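import Mathlib

/-!
Shared definitions for the lower bound `α > L` (maximal principal evaluation of Schubert
polynomials, layered permutations are not asymptotically optimal).
-/

namespace Pool.Agent.Helper43.LB

open Finset

/-! ### Fillings (T-model) -/

/-- `T` is a filling of the grid `r × q` with values in `{0, …, B}`, weakly increasing along rows
and columns, at most `c i` inside the shape (`j < l i`) and equal to `B` outside of it. -/
def Fill (r q B : ℕ) (l c : ℕ → ℕ) (T : Fin r → Fin q → Fin (B + 1)) : Prop :=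
  (∀ (i : Fin r) (j j' : Fin q), j ≤ j' → T i j ≤ T i j') ∧
  (∀ (i i' : Fin r) (j : Fin q), i ≤ i' → T i j ≤ T i' j) ∧
  (∀ (i : Fin r) (j : Fin q), (j : ℕ) < l i → (T i j : ℕ) ≤ c i) ∧
  (∀ (i : Fin r) (j : Fin q), l i ≤ (j : ℕ) → (T i j : ℕ) = B)

/-- number of fillings -/
noncomputable def NT (r q B : ℕ) (l c : ℕ → ℕ) : ℕ :=
  Nat.card {T : Fin r → Fin q → Fin (B + 1) // Fill r q B l c T}

/-- number of fillings of the staircase shape `δ_m - η` with caps `p + η` (rows `i = 0, …, m-2`,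
row `i` has `m - 1 - i - η i` cells). -/
noncomputable def NE (m p B : ℕ) (η : ℕ → ℕ) : ℕ :=
  NT (m - 1) (m - 1) B (fun i => m - 1 - i - η i) (fun i => p + η i)

/-- the profile `j` on the rows `≥ k` (cut off by the shape) -/
def eTail (m k j : ℕ) (i : ℕ) : ℕ := if i < k then 0 else min j (m - 1 - i)

/-- the transposed profile -/
def eHead (m k j : ℕ) (i : ℕ) : ℕ := min j (m - 1 - k - i)

/-- the bump -/
def eBump (m k j : ℕ) (i : ℕ) : ℕ := if i < k then 0 else min j (m - 1 - k - i)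

/-- the constant profile -/
def eMax (m j : ℕ) (i : ℕ) : ℕ := min j (m - 1 - i)

/-! ### Determinants -/

/-- `h_r(1^f)` -/
def hc (f r : ℕ) : ℤ := ((f + r - 1).choose r : ℤ)

/-- flagged Jacobi–Trudi matrix at `x = 1` (rows and columns counted from `0`) -/
def jt (r : ℕ) (l f : ℕ → ℕ) : Matrix (Fin r) (Fin r) ℤ := fun i c =>
  if l i + (c : ℕ) < (i : ℕ) then 0 else hc (f i) (l i + (c : ℕ) - (i : ℕ))

/-! ### Products over finite sets of positive integers -/

/-- product of the elements -/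
noncomputable def ip (S : Finset ℕ) : ℝ := ∏ s ∈ S, (s : ℝ)

/-- product over the pairs `s < t` of `S` -/
noncomputable def pp (f : ℝ → ℝ → ℝ) (S : Finset ℕ) : ℝ :=
  ∏ t ∈ S, ∏ s ∈ S.filter (· < t), f s t

/-- `∏_{s<t} (t² - s²)` -/
noncomputable def vn (S : Finset ℕ) : ℝ := pp (fun s t => t ^ 2 - s ^ 2) S

/-- `∏_{l=1}^n (2 l - 1)!` -/
noncomputable def od (n : ℕ) : ℝ := ∏ l ∈ range n, ((2 * l + 1).factorial : ℝ)

/-- `L_k(S) = ∏ s · ∏ (t² - s²) / ∏_{l ≤ k} (2l-1)!`, `k = |S|` -/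
noncomputable def Lf (S : Finset ℕ) : ℝ := ip S * vn S / od S.card

/-- product formula of the staircase with caps `p` -/
noncomputable def Zf (m p : ℕ) : ℝ := Lf (Ico (p + 1) (p + m))

/-- `L̂_{k,j}(S)` -/
noncomputable def Lh (j : ℕ) (S : Finset ℕ) : ℝ :=
  (∏ s ∈ S, ∏ v ∈ range (j + 1), ((s : ℝ) + v)) * pp (fun s t => (t - s) * (s + t + j)) S
    / ∏ l ∈ range S.card, ((2 * l + 1 + j).factorial : ℝ)

/-- the tail sum: `m = 2k + 1 + w`, `a = p + k`, `b = a + w` -/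
noncomputable def Tf (k w j p : ℕ) : ℝ :=
  ∑ S ∈ (Icc 1 (p + k)).powersetCard k,
    Lh j S * Lf (S.image (· + j) ∪ Ico (p + k + j + 1) (p + k + w + 1))

/-! ### The ensemble -/

/-- weight `∏ s² ∏ (t² - s²)² ∏_{s, a < Y ≤ b} (Y² - s²)` -/
noncomputable def wt (a b : ℕ) (S : Finset ℕ) : ℝ :=
  ip S ^ 2 * vn S ^ 2 * ∏ s ∈ S, ∏ Y ∈ Ioc a b, ((Y : ℝ) ^ 2 - (s : ℝ) ^ 2)

/-- partition function on `{1, …, a}` -/
noncomputable def U (k a b : ℕ) : ℝ := ∑ S ∈ (Icc 1 a).powersetCard k, wt a b S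

/-- partition function on `{2, …, a}` -/
noncomputable def U0 (k a b : ℕ) : ℝ := ∑ S ∈ (Icc 2 a).powersetCard k, wt a b S

/-- expectation with respect to the weight `wt a b` on the `k`-subsets of `{2, …, a}` -/
noncomputable def E0 (k a b : ℕ) (f : Finset ℕ → ℝ) : ℝ :=
  (∑ S ∈ (Icc 2 a).powersetCard k, wt a b S * f S) / U0 k a b

/-! ### Asymptotic functions -/

/-- `F(y) = y log y - y` -/
noncomputable def Ff (y : ℝ) : ℝ := y * Real.log y - y

/-- `G(y) = y²/2 log y - 3/4 y²`, `G' = F` -/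
noncomputable def Gf (y : ℝ) : ℝ := y ^ 2 / 2 * Real.log y - 3 / 4 * y ^ 2

/-- main term of `log Zf m p` -/
noncomputable def Sf (m p : ℝ) : ℝ :=
  Gf m + Gf (2 * p + 2 * m) / 2 + Gf (2 * p) / 2 - Gf (2 * p + m) - Gf (2 * m) / 2

/-! ### Interlacing determinants -/

/-- `det [C(x_i + l - 1 + e, 2 l + e)]` with the columns `l = k-1, …, 0`; meant for strictly
decreasing sequences `x` of positive integers. -/
def LG (k e : ℕ) (x : Fin k → ℕ) : ℤ :=
  Matrix.det (fun i l : Fin k =>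
    ((x i + (k - 1 - (l : ℕ)) + e - 1).choose (2 * (k - 1 - (l : ℕ)) + e) : ℤ))

/-- constant of the ensemble -/
noncomputable def Kf (k a b : ℕ) : ℝ := ip (Ioc a b) * vn (Ioc a b) / (od k * od (k + (b - a)))

/-- constant of the tail: `∏_{a+j<Y≤b} Y · vn / (∏_{l<k} (2l+1+j)! · od (k+b-a-j))` -/
noncomputable def Kt (k j a b : ℕ) : ℝ :=
  ip (Ioc (a + j) b) * vn (Ioc (a + j) b)
    / ((∏ l ∈ range k, ((2 * l + 1 + j).factorial : ℝ)) * od (k + (b - a) - j))

/-- main term of `log (ip (Ioc a b) * vn (Ioc a b))` -/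
noncomputable def Vf (a b : ℝ) : ℝ := Gf (b - a) + Gf (2 * b) / 2 + Gf (2 * a) / 2 - Gf (a + b)

/-! ### Main terms of the ratios of partition functions (`m = 2k + w`, `a = p + k`, `b = a + w`) -/

/-- product formula of `U k a b` -/
noncomputable def Uf (k a b : ℕ) : ℝ := Zf (2 * k + 1 + (b - a)) (a - k) / Kf k a b

noncomputable def B1 (m w p a b : ℝ) : ℝ :=
  Ff (2 * m) + Ff (2 * p) + Ff w + Ff (a + b) - Ff m - Ff (2 * p + m) - Ff (2 * a) - Ff (m + w)

noncomputable def B2 (m w p a b : ℝ) : ℝ :=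
  2 * Ff m + Ff (2 * p + 2 * m) - Ff (2 * p) - 2 * Ff (2 * m) + Ff (m - w) + Ff (m + w)
    - 2 * Ff b + 2 * Ff a

noncomputable def B3 (m w p a b : ℝ) : ℝ :=
  Ff m + Ff (2 * p + 2 * m) - Ff (2 * p + m) - Ff (2 * m) - Ff w - Ff (2 * b) + Ff (a + b)
    + Ff (m + w)

/-- constants of the one-body bound -/
noncomputable def cA : ℝ := 109 / 200
noncomputable def cB : ℝ := 7 / 50
noncomputable def cI : ℝ := 1466 / 100000

/-- main term of `log` of the number of fillings of the bump shape -/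
noncomputable def Dd (k w j p : ℝ) : ℝ :=
  2 * ((Vf (p + k + j) (p + k + w) - (Gf (2 * k + j) - Gf j) / 2 - Gf (2 * (k + w - j)) / 2)
    - (Vf (p + k) (p + k + w) - Gf (2 * k) / 2 - Gf (2 * (k + w)) / 2) + Sf (2 * k + w) p)
  - Sf (2 * k + w - j) (p + j)
  + 2 * j * (3 / 4 * B1 (2 * k + w) w p (p + k) (p + k + w)
      - 1 / 4 * B3 (2 * k + w) w p (p + k) (p + k + w)
      + (1 - cB * w / (2 * (p + k + w))) * (B2 (2 * k + w) w p (p + k) (p + k + w) / 4)
      + w / (2 * (p + k + w)) * (cA * k + cB * k * Real.log (p + k + w) - cI * (p + k + w)))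
  - 5 * j ^ 2 * Real.log (1 + 2 * (p + k) / j) - 8 * j ^ 2 * k / (p + k)

/-- layered growth function -/
noncomputable def ph (P : ℝ) : ℝ := Sf 1 P / (1 + 2 * P)

end Pool.Agent.Helper43.LB
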