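import Pool.Agent.Helper43.LB.UUf
import Pool.Agent.Helper25.LB.DetNT
import Pool.Agent.Helper94.LB.Glue
import Pool.Agent.Helper78.LimMain

/-!
One step of the construction: `u(p + m) ≥ u(p) · (number of fillings of the bump shape)`.
-/

namespace Pool.Agent.Helper43.LB

open Finset Pool.Agent.Helper78.Schub

/-- the statement of module B -/
def PermDet (S : (n : ℕ) → Equiv.Perm (Fin n) → MvPolynomial (Fin n) ℤ) : Prop :=
  ∀ (p m : ℕ) (η : ℕ → ℕ) (_ : ∀ i, η i ≤ η (i + 1) + 1) (_ : ∀ i, η i ≤ m - 1 - i)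
    (_ : (jt (m - 1) (fun i => m - 1 - i - η i) (fun i => p + i + 1 + η i)).det ≠ 0),
    ∃ u : Equiv.Perm (Fin m), MvPolynomial.eval (fun _ => (1 : ℤ)) (S (p + m) (glue 1 u))
      = (jt (m - 1) (fun i => m - 1 - i - η i) (fun i => p + i + 1 + η i)).det

theorem det_NE (m p j : ℕ) (η : ℕ → ℕ) (h1 : ∀ i, η i ≤ η (i + 1) + 1)
    (h2 : ∀ i, η i ≤ m - 1 - i) (h3 : ∀ i, η i ≤ j) :
    (jt (m - 1) (fun i => m - 1 - i - η i) (fun i => p + i + 1 + η i)).det
      = (NE m p (p + j) η : ℤ) := by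
  have h := det_jt (m - 1) (m - 1) (p + j) (fun i => m - 1 - i - η i) (fun i => p + i + 1 + η i)
    (fun i => by have := h1 i; have := h2 (i + 1); omega)
    (fun i => by have := h1 i; omega)
    (fun i _ _ => by omega)
    (by omega)
    (fun i _ _ => by have := h3 i; omega)
  rw [h]
  unfold NE
  congr 3
  ext i
  omega

theorem eBump_le (m k j i : ℕ) : eBump m k j i ≤ j := by
  unfold eBump; split_ifs <;> omega

theorem eBump_step (m k j i : ℕ) : eBump m k j i ≤ eBump m k j (i + 1) + 1 := by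
  unfold eBump; split_ifs <;> omega

theorem eBump_le' (m k j i : ℕ) : eBump m k j i ≤ m - 1 - i := by
  unfold eBump; split_ifs <;> omega

theorem exists_eval_max (n : ℕ) (S : Equiv.Perm (Fin n) → MvPolynomial (Fin n) ℤ) :
    ∃ w, maxEval n S = MvPolynomial.eval (fun _ => (1 : ℤ)) (S w) := by
  obtain ⟨w, -, hw⟩ := Finset.exists_mem_eq_sup' (s := (Finset.univ : Finset (Equiv.Perm (Fin n))))
    Finset.univ_nonempty (fun w => MvPolynomial.eval (fun _ => (1 : ℤ)) (S w))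
  exact ⟨w, hw⟩

theorem le_maxEval (n : ℕ) (S : Equiv.Perm (Fin n) → MvPolynomial (Fin n) ℤ)
    (w : Equiv.Perm (Fin n)) : MvPolynomial.eval (fun _ => (1 : ℤ)) (S w) ≤ maxEval n S :=
  Finset.le_sup' (fun w => MvPolynomial.eval (fun _ => (1 : ℤ)) (S w)) (Finset.mem_univ w)

theorem step_mul (hNE : NETail) (S : (n : ℕ) → Equiv.Perm (Fin n) → MvPolynomial (Fin n) ℤ)
    (hS : ∀ n, IsSchubertFamily n (S n)) (hB : PermDet S) (k w j p : ℕ) (hjw : j ≤ w) :
    maxEval p (S p) * (NE (2 * k + 1 + w) p (p + j) (eBump (2 * k + 1 + w) k j) : ℤ)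
      ≤ maxEval (p + (2 * k + 1 + w)) (S _) := by
  obtain ⟨w', hw'⟩ := exists_eval_max p (S p)
  have hd := det_NE (2 * k + 1 + w) p j (eBump (2 * k + 1 + w) k j)
    (eBump_step _ _ _) (eBump_le' _ _ _) (eBump_le _ _ _)
  have hpos := NE_bump_pos hNE k w j p hjw
  obtain ⟨u, hu⟩ := hB p (2 * k + 1 + w) (eBump (2 * k + 1 + w) k j) (eBump_step _ _ _)
    (eBump_le' _ _ _) (by rw [hd]; exact_mod_cast hpos.ne')
  rw [hd] at hu
  rw [hw', ← hu, ← eval_glue S hS]
  exact le_maxEval _ _ _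

theorem log_step (hNE : NETail) (S : (n : ℕ) → Equiv.Perm (Fin n) → MvPolynomial (Fin n) ℤ)
    (hS : ∀ n, IsSchubertFamily n (S n)) (hB : PermDet S) (k w j p : ℕ) (hjw : j ≤ w) :
    Real.log (maxEval p (S p)) + 2 * Real.log (Tf k w j p)
        - Real.log (Zf (2 * k + 1 + w - j) (p + j))
      ≤ Real.log (maxEval (p + (2 * k + 1 + w)) (S _)) := by
  have h1 := step_mul hNE S hS hB k w j p hjw
  have h2 := NE_bump_ge hNE k w j p hjw
  have h3 := NE_bump_pos hNE k w j p hjw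
  have h4 := Tf_pos k w j p hjw
  have h5 := Zf_pos (2 * k + 1 + w - j) (p + j)
  have h6 : (1 : ℝ) ≤ maxEval p (S p) := by
    exact_mod_cast Pool.Agent.Helper78.Lim.maxEval_pos p (S p) (hS p)
  have h7 : (0 : ℝ) < NE (2 * k + 1 + w) p (p + j) (eBump (2 * k + 1 + w) k j) := by
    exact_mod_cast h3
  have h8 : ((maxEval p (S p) : ℤ) : ℝ) * NE (2 * k + 1 + w) p (p + j) (eBump (2 * k + 1 + w) k j)
      ≤ maxEval (p + (2 * k + 1 + w)) (S _) := by exact_mod_cast h1
  have h9 := Real.log_le_log (by positivity) h8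
  rw [Real.log_mul (by positivity) h7.ne'] at h9
  have h10 := Real.log_le_log (by positivity) h2
  rw [Real.log_pow, Real.log_mul h7.ne' h5.ne'] at h10
  push_cast at h10
  linarith

end Pool.Agent.Helper43.LB
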