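import Pool.Agent.Helper43.LB.Ineq
import Pool.Agent.Helper43.LB.Step

/-!
The growth rate is at least the limit of the step gains.
-/

namespace Pool.Agent.Helper43.LB

open Finset Filter Topology Pool.Agent.Helper78.Schub

/-- the statement of the scaling lemma -/
def Scale : Prop := ∀ κ ω ε P : ℝ, 0 < κ → 0 < ε → ε < ω → 0 < P →
  Tendsto (fun M : ℕ => Dd (⌊κ * M⌋₊ : ℝ) (⌊ω * M⌋₊ : ℝ) (⌊ε * M⌋₊ : ℝ) (⌊P * M⌋₊ : ℝ) / (M : ℝ) ^ 2)
    atTop (𝓝 (Dd κ ω ε P))

theorem floor_tendsto {a : ℝ} (ha : 0 < a) :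
    Tendsto (fun M : ℕ => (⌊a * M⌋₊ : ℝ) / M) atTop (𝓝 a) :=
  (tendsto_nat_floor_mul_div_atTop ha.le).comp tendsto_natCast_atTop_atTop

theorem floor_atTop {a : ℝ} (ha : 0 < a) : Tendsto (fun M : ℕ => ⌊a * (M : ℝ)⌋₊) atTop atTop := by
  apply tendsto_nat_floor_atTop.comp
  exact tendsto_natCast_atTop_atTop.const_mul_atTop ha

/-- `f (n_M) / M ^ 2 → Λ x ^ 2` if `n_M / M → x > 0` and `f n / n ^ 2 → Λ` -/
theorem comp_tendsto {f : ℕ → ℝ} {Λ : ℝ} (hf : Tendsto (fun n : ℕ => f n / (n : ℝ) ^ 2) atTop (𝓝 Λ))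
    {N : ℕ → ℕ} {x : ℝ} (hN : Tendsto (fun M : ℕ => (N M : ℝ) / M) atTop (𝓝 x))
    (hN' : Tendsto N atTop atTop) :
    Tendsto (fun M : ℕ => f (N M) / (M : ℝ) ^ 2) atTop (𝓝 (Λ * x ^ 2)) := by
  have h1 := (hf.comp hN').mul (hN.pow 2)
  refine h1.congr' ?_
  filter_upwards [hN'.eventually_ge_atTop 1, eventually_ge_atTop 1] with M h2 h3
  have h4 : (0 : ℝ) < N M := by exact_mod_cast h2
  have h5 : (0 : ℝ) < M := by exact_mod_cast h3
  simp only [Function.comp_apply]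
  field_simp

theorem alpha_ge (hob : OneBody) (hNE : NETail) (hA : Asym) (hsc : Scale)
    (S : (n : ℕ) → Equiv.Perm (Fin n) → MvPolynomial (Fin n) ℤ)
    (hS : ∀ n, IsSchubertFamily n (S n)) (hB : PermDet S) {Λ : ℝ}
    (hΛ : Tendsto (fun n : ℕ => Real.log (maxEval n (S n)) / (n : ℝ) ^ 2) atTop (𝓝 Λ))
    {κ ω ε P : ℝ} (hκ : 0 < κ) (hε : 0 < ε) (hεω : ε < ω) (hP : 0 < P) (h1 : 2 * κ + ω = 1) :
    Dd κ ω ε P ≤ Λ * (1 + 2 * P) := by
  obtain ⟨C, hC⟩ := main_ineq hob hNE hA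
  have hω : 0 < ω := hε.trans hεω
  set k : ℕ → ℕ := fun M => ⌊κ * (M : ℝ)⌋₊ with hk
  set w : ℕ → ℕ := fun M => ⌊ω * (M : ℝ)⌋₊ with hw
  set j : ℕ → ℕ := fun M => ⌊ε * (M : ℝ)⌋₊ with hj
  set p : ℕ → ℕ := fun M => ⌊P * (M : ℝ)⌋₊ with hp
  have tk : Tendsto (fun M : ℕ => (k M : ℝ) / M) atTop (𝓝 κ) := floor_tendsto hκ
  have tw : Tendsto (fun M : ℕ => (w M : ℝ) / M) atTop (𝓝 ω) := floor_tendsto hω
  have tp : Tendsto (fun M : ℕ => (p M : ℝ) / M) atTop (𝓝 P) := floor_tendsto hP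
  have ti : Tendsto (fun M : ℕ => (1 : ℝ) / M) atTop (𝓝 0) := by
    simpa [Function.comp_def] using
      (tendsto_inv_atTop_zero (𝕜 := ℝ)).comp (tendsto_natCast_atTop_atTop (R := ℝ))
  have ak : Tendsto k atTop atTop := floor_atTop hκ
  have aj : Tendsto j atTop atTop := floor_atTop hε
  have ap : Tendsto p atTop atTop := floor_atTop hP
  -- the larger size
  have tN : Tendsto (fun M : ℕ => ((p M + (2 * k M + 1 + w M) : ℕ) : ℝ) / M) atTop
      (𝓝 (P + 1)) := by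
    have h2 := ((tp.add (tk.const_mul 2)).add ti).add tw
    have e : P + 2 * κ + 0 + ω = P + 1 := by linarith
    rw [e] at h2
    refine h2.congr fun M => ?_
    push_cast
    ring
  have aN : Tendsto (fun M : ℕ => p M + (2 * k M + 1 + w M)) atTop atTop :=
    tendsto_atTop_mono (fun M => by omega) ap
  have l1 := comp_tendsto hΛ tN aN
  have l2 := comp_tendsto hΛ tp ap
  -- the error
  have tb : Tendsto (fun M : ℕ => ((p M : ℝ) + k M + w M + 2) / M) atTop (𝓝 (P + κ + ω)) := by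
    have h2 := (((tp.add tk).add tw).add (ti.const_mul 2))
    have e : P + κ + ω + 2 * 0 = P + κ + ω := by ring
    rw [e] at h2
    refine h2.congr fun M => ?_
    ring
  have ab : Tendsto (fun M : ℕ => (p M : ℝ) + k M + w M + 2) atTop atTop := by
    have : Tendsto (fun M : ℕ => (p M : ℝ)) atTop atTop := tendsto_natCast_atTop_atTop.comp ap
    exact tendsto_atTop_mono (fun M => by
      have : (0 : ℝ) ≤ k M := Nat.cast_nonneg _
      have : (0 : ℝ) ≤ w M := Nat.cast_nonneg _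
      linarith) this
  have te : Tendsto (fun M : ℕ => ((p M : ℝ) + k M + w M + 1) * Real.log (p M + k M + w M + 2)
      / (M : ℝ) ^ 2) atTop (𝓝 0) := by
    have h2 : Tendsto (fun M : ℕ => Real.log (p M + k M + w M + 2) / ((p M : ℝ) + k M + w M + 2))
        atTop (𝓝 0) := (Real.isLittleO_log_id_atTop.tendsto_div_nhds_zero).comp ab
    have h3 := h2.mul (tb.pow 2)
    rw [zero_mul] at h3
    refine tendsto_of_tendsto_of_tendsto_of_le_of_le' tendsto_const_nhds h3 ?_ ?_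
    · filter_upwards with M
      have : (0 : ℝ) ≤ k M := Nat.cast_nonneg _
      have : (0 : ℝ) ≤ w M := Nat.cast_nonneg _
      have : (0 : ℝ) ≤ p M := Nat.cast_nonneg _
      have : 0 ≤ Real.log ((p M : ℝ) + k M + w M + 2) := Real.log_nonneg (by linarith)
      positivity
    · filter_upwards [eventually_ge_atTop 1] with M hM
      have h0 : (0 : ℝ) < M := by exact_mod_cast hM
      have : (0 : ℝ) ≤ k M := Nat.cast_nonneg _
      have : (0 : ℝ) ≤ w M := Nat.cast_nonneg _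
      have : (0 : ℝ) ≤ p M := Nat.cast_nonneg _
      have h4 : 0 ≤ Real.log ((p M : ℝ) + k M + w M + 2) := Real.log_nonneg (by linarith)
      have e : Real.log ((p M : ℝ) + k M + w M + 2) / ((p M : ℝ) + k M + w M + 2)
          * (((p M : ℝ) + k M + w M + 2) / M) ^ 2
          = (((p M : ℝ) + k M + w M + 2) * Real.log (p M + k M + w M + 2)) / (M : ℝ) ^ 2 := by
        field_simp
      rw [e]
      gcongr
      linarith
  have ld := hsc κ ω ε P hκ hε hεω hP
  have lo := (l2.add ld).sub (te.const_mul C)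
  have hle : Λ * P ^ 2 + Dd κ ω ε P - C * 0 ≤ Λ * (P + 1) ^ 2 := by
    refine le_of_tendsto_of_tendsto lo l1 ?_
    filter_upwards [ak.eventually_ge_atTop 1, aj.eventually_ge_atTop 1, ap.eventually_ge_atTop 1,
      eventually_ge_atTop 1] with M m1 m2 m3 m4
    have h0 : (0 : ℝ) < M := by exact_mod_cast m4
    have hjw : j M ≤ w M := by
      apply Nat.floor_le_floor
      gcongr
    have h2 := hC (k M) (w M) (j M) (p M) m1 m2 hjw m3
    have h3 := log_step hNE S hS hB (k M) (w M) (j M) (p M) hjw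
    have h4 : Real.log (maxEval (p M) (S (p M))) + Dd (k M) (w M) (j M) (p M)
        - C * (((p M : ℝ) + k M + w M + 1) * Real.log (p M + k M + w M + 2))
        ≤ Real.log (maxEval (p M + (2 * k M + 1 + w M)) (S (p M + (2 * k M + 1 + w M)))) := by
      linarith
    have h5 := div_le_div_of_nonneg_right h4 (by positivity : (0 : ℝ) ≤ (M : ℝ) ^ 2)
    calc _ = (Real.log (maxEval (p M) (S (p M))) + Dd (k M) (w M) (j M) (p M)
        - C * (((p M : ℝ) + k M + w M + 1) * Real.log (p M + k M + w M + 2))) / (M : ℝ) ^ 2 := by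
          ring
      _ ≤ _ := h5
  nlinarith [hle]

end Pool.Agent.Helper43.LB
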