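import Pool.Agent.Helper43.LB.Defs

/-!
MP_660525_LB, row F: interlacing sums of the determinants `LG` and their product formulas.
-/

namespace Pool.Agent.Helper43.LB

open Finset

/-! ### Sums of a determinant over a box -/

/-- a determinant is multilinear in its rows: sum over a box -/
theorem alt_sum_det {k : ℕ} (g : Fin k → ℕ → ℤ) (s : Fin k → Finset ℕ) :
    ∑ y ∈ Fintype.piFinset s, Matrix.det (Matrix.of fun i l : Fin k => g l (y i))
      = Matrix.det (Matrix.of fun i l : Fin k => ∑ v ∈ s i, g l v) := by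
  have h := (Matrix.detRowAlternating (n := Fin k) (R := ℤ)).toMultilinearMap.map_sum_finset
    (fun (_ : Fin k) (v : ℕ) => (fun l : Fin k => g l v)) s
  have e : (fun i : Fin k => ∑ v ∈ s i, (fun l : Fin k => g l v))
      = (Matrix.of fun i l : Fin k => ∑ v ∈ s i, g l v) := by
    funext i l
    simp [Finset.sum_apply]
  rw [e] at h
  exact h.symm

/-- the hockey stick identity -/
theorem alt_hockey (a b c r : ℕ) (hab : a ≤ b) :
    ∑ y ∈ Ioc a b, ((y + c).choose r : ℤ)
      = ((b + c + 1).choose (r + 1) : ℤ) - ((a + c + 1).choose (r + 1) : ℤ) := by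
  induction b, hab using Nat.le_induction with
  | base => simp
  | succ n hn ih =>
    rw [Finset.sum_Ioc_succ_top hn, ih]
    have : (n + 1 + c + 1).choose (r + 1) = (n + 1 + c).choose r + (n + 1 + c).choose (r + 1) :=
      Nat.choose_succ_succ _ _
    have e : n + c + 1 = n + 1 + c := by ring
    rw [this, e]
    push_cast
    ring

/-- subtracting the next row does not change the determinant -/
theorem alt_rows {k : ℕ} (R : Fin k → Fin k → ℤ) :
    Matrix.det (Matrix.of fun i l : Fin k =>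
      R i l - if h : (i : ℕ) + 1 < k then R ⟨i + 1, h⟩ l else 0)
      = Matrix.det (Matrix.of fun i l : Fin k => R i l) := by
  classical
  set M : Matrix (Fin k) (Fin k) ℤ := Matrix.of fun i j : Fin k =>
    if j = i then 1 else if (j : ℕ) = (i : ℕ) + 1 then -1 else 0 with hM
  have hmul : (Matrix.of fun i l : Fin k =>
      R i l - if h : (i : ℕ) + 1 < k then R ⟨i + 1, h⟩ l else 0)
      = M * (Matrix.of fun i l : Fin k => R i l) := by
    ext i l
    rw [Matrix.mul_apply]
    simp only [hM, Matrix.of_apply]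
    by_cases h : (i : ℕ) + 1 < k
    · rw [dif_pos h]
      have hne : (⟨i + 1, h⟩ : Fin k) ≠ i := by
        intro he
        have := congrArg Fin.val he
        simp at this
      rw [← Finset.add_sum_erase _ _ (Finset.mem_univ i),
        ← Finset.add_sum_erase _ _ (Finset.mem_erase.2 ⟨hne, Finset.mem_univ _⟩)]
      rw [Finset.sum_eq_zero]
      · simp [hne]
        ring
      · intro j hj
        rw [Finset.mem_erase, Finset.mem_erase] at hj
        rw [if_neg hj.2.1, if_neg, zero_mul]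
        intro he
        exact hj.1 (Fin.ext (by simp [he]))
    · rw [dif_neg h]
      rw [← Finset.add_sum_erase _ _ (Finset.mem_univ i), Finset.sum_eq_zero]
      · simp
      · intro j hj
        rw [Finset.mem_erase] at hj
        rw [if_neg hj.1, if_neg, zero_mul]
        intro he
        have := j.2
        omega
  rw [hmul, Matrix.det_mul]
  have hd : M.det = 1 := by
    rw [Matrix.det_of_isUpperTriangular]
    · simp [hM]
    · intro i j hij
      simp only [hM, Matrix.of_apply, id] at hij ⊢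
      have h1 : (j : ℕ) < i := hij
      rw [if_neg, if_neg]
      · omega
      · intro h
        rw [h] at h1
        omega
  rw [hd, one_mul]

theorem LG_plus (k e : ℕ) (x : Fin k → ℕ) (hx : StrictAnti x) (h1 : ∀ i, 1 ≤ x i) :
    ∑ y ∈ Fintype.piFinset (fun i : Fin k =>
      Ioc (if h : (i : ℕ) + 1 < k then x ⟨i + 1, h⟩ else 0) (x i)), LG k e y
      = LG k (e + 1) x := by
  have h := alt_sum_det (k := k)
    (fun l v => (((v + (k - 1 - (l : ℕ)) + e - 1).choose (2 * (k - 1 - (l : ℕ)) + e) : ℕ) : ℤ))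
    (fun i : Fin k => Ioc (if h : (i : ℕ) + 1 < k then x ⟨i + 1, h⟩ else 0) (x i))
  refine Eq.trans h ?_
  have h2 : LG k (e + 1) x = Matrix.det (Matrix.of fun i l : Fin k =>
      (((x i + (k - 1 - (l : ℕ)) + (e + 1) - 1).choose
        (2 * (k - 1 - (l : ℕ)) + (e + 1)) : ℕ) : ℤ)) := rfl
  rw [h2]
  refine Eq.trans ?_ (alt_rows (fun i l : Fin k =>
      (((x i + (k - 1 - (l : ℕ)) + (e + 1) - 1).choose
        (2 * (k - 1 - (l : ℕ)) + (e + 1)) : ℕ) : ℤ)))
  congr 1
  ext i l
  simp only [Matrix.of_apply]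
  have key : ∀ a b L : ℕ, a ≤ b →
      ∑ v ∈ Ioc a b, (((v + L + e - 1).choose (2 * L + e) : ℕ) : ℤ)
        = (((b + L + (e + 1) - 1).choose (2 * L + (e + 1)) : ℕ) : ℤ)
          - (((a + L + (e + 1) - 1).choose (2 * L + (e + 1)) : ℕ) : ℤ) := by
    intro a b L hab
    rcases Nat.eq_zero_or_pos (L + e) with h0 | h0
    · have hL : L = 0 := by omega
      have he : e = 0 := by omega
      subst hL he
      have : ∀ v ∈ Ioc a b, (((v + 0 + 0 - 1).choose (2 * 0 + 0) : ℕ) : ℤ) = 1 := by
        intro v _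
        simp
      rw [sum_congr rfl this]
      simp
      omega
    · have : ∀ v ∈ Ioc a b, (((v + L + e - 1).choose (2 * L + e) : ℕ) : ℤ)
          = (((v + (L + e - 1)).choose (2 * L + e) : ℕ) : ℤ) := by
        intro v _
        congr 2
        omega
      rw [sum_congr rfl this, alt_hockey a b (L + e - 1) (2 * L + e) hab]
      have e1 : b + (L + e - 1) + 1 = b + L + (e + 1) - 1 := by omega
      have e2 : a + (L + e - 1) + 1 = a + L + (e + 1) - 1 := by omega
      rw [e1, e2]
      rfl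
  by_cases hi : (i : ℕ) + 1 < k
  · rw [dif_pos hi, dif_pos hi]
    apply key
    exact le_of_lt (hx (by
      rw [Fin.lt_def]
      simp))
  · rw [dif_neg hi, dif_neg hi]
    rw [key _ _ _ (Nat.zero_le _)]
    congr 1
    rw [Nat.cast_eq_zero]
    apply Nat.choose_eq_zero_of_lt
    omega

/-- the hockey stick identity on `Ico` -/
theorem alt_hockey' (a b c r : ℕ) (hab : a ≤ b) :
    ∑ y ∈ Ico a b, ((y + c).choose r : ℤ)
      = ((b + c).choose (r + 1) : ℤ) - ((a + c).choose (r + 1) : ℤ) := by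
  induction b, hab using Nat.le_induction with
  | base => simp
  | succ n hn ih =>
    rw [Finset.sum_Ico_succ_top hn, ih]
    have : (n + 1 + c).choose (r + 1) = (n + c).choose r + (n + c).choose (r + 1) := by
      have e : n + 1 + c = (n + c) + 1 := by ring
      rw [e]
      exact Nat.choose_succ_succ _ _
    rw [this]
    push_cast
    ring

theorem LG_grow (k : ℕ) (x : Fin (k + 1) → ℕ) (hx : StrictAnti x) (h1 : ∀ i, 1 ≤ x i) :
    ∑ y ∈ Fintype.piFinset (fun i : Fin k => Ico (x i.succ) (x i.castSucc)), LG k 1 y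
      = LG (k + 1) 0 x := by
  have h := alt_sum_det (k := k)
    (fun l v => (((v + (k - 1 - (l : ℕ)) + 1 - 1).choose (2 * (k - 1 - (l : ℕ)) + 1) : ℕ) : ℤ))
    (fun i : Fin k => Ico (x i.succ) (x i.castSucc))
  refine Eq.trans h ?_
  have h2 : LG (k + 1) 0 x = Matrix.det (Matrix.of fun i l : Fin (k + 1) =>
      (((x i + (k + 1 - 1 - (l : ℕ)) + 0 - 1).choose
        (2 * (k + 1 - 1 - (l : ℕ)) + 0) : ℕ) : ℤ)) := rfl
  rw [h2]
  refine Eq.trans ?_ (alt_rows (fun i l : Fin (k + 1) =>
      (((x i + (k + 1 - 1 - (l : ℕ)) + 0 - 1).choose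
        (2 * (k + 1 - 1 - (l : ℕ)) + 0) : ℕ) : ℤ)))
  rw [Matrix.det_succ_column _ (Fin.last k), Finset.sum_eq_single (Fin.last k)]
  · simp only [Matrix.of_apply, Fin.val_last]
    rw [dif_neg (by omega)]
    have e1 : ((-1 : ℤ)) ^ (k + k) = 1 := by
      rw [← two_mul, pow_mul]
      norm_num
    rw [e1]
    simp only [Nat.add_sub_cancel, Nat.sub_self, Nat.mul_zero, Nat.add_zero,
      Nat.choose_zero_right, Nat.cast_one, sub_zero, one_mul, mul_one]
    congr 1
    ext i l
    simp only [Matrix.of_apply, Matrix.submatrix_apply, Fin.succAbove_last, Fin.val_castSucc]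
    have hi : (i : ℕ) + 1 < k + 1 := by
      have := i.2
      omega
    rw [dif_pos hi]
    have hs : (⟨(i : ℕ) + 1, hi⟩ : Fin (k + 1)) = i.succ := Fin.ext rfl
    rw [hs]
    have hl := l.2
    rw [alt_hockey' _ _ _ _ (le_of_lt (hx (Fin.castSucc_lt_succ)))]
    have e3 : ∀ v : ℕ, v + (k - (l : ℕ)) - 1 = v + (k - 1 - (l : ℕ)) := by
      intro v
      omega
    have e4 : 2 * (k - (l : ℕ)) = 2 * (k - 1 - (l : ℕ)) + 1 + 1 := by omega
    rw [e3, e3, e4]
  · intro i _ hi
    have hlt : (i : ℕ) + 1 < k + 1 := by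
      have h3 := i.2
      have h4 : (i : ℕ) ≠ k := fun h => hi (Fin.ext (by simpa using h))
      omega
    simp only [Matrix.of_apply, Fin.val_last]
    rw [dif_pos hlt]
    simp
  · intro h
    exact absurd (Finset.mem_univ _) h

/-! ### Product formulas -/

/-- `C(x+L+j, 2L+j+1) (2L+j+1)!` as a product -/
theorem alt_choose (x j L : ℕ) :
    (((x + L + j).choose (2 * L + 1 + j) : ℕ) : ℝ) * ((2 * L + 1 + j).factorial : ℝ)
      = (∏ v ∈ range (j + 1), ((x : ℝ) + v))
        * ∏ u ∈ range L, (((x : ℝ) - (u + 1)) * ((x : ℝ) + j + (u + 1))) := by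
  have h0 : ∀ n r : ℕ, ((n.choose r : ℕ) : ℝ) * (r.factorial : ℝ) = (n.descFactorial r : ℝ) := by
    intro n r
    rw [Nat.descFactorial_eq_factorial_mul_choose]
    push_cast
    ring
  have h1 : ∀ n r : ℕ, ((n.descFactorial (r + 1) : ℕ) : ℝ)
      = ((n : ℝ) - r) * (n.descFactorial r : ℝ) := by
    intro n r
    rw [Nat.descFactorial_succ]
    rcases le_or_gt r n with h | h
    · push_cast [Nat.cast_sub h]
      ring
    · rw [Nat.descFactorial_of_lt h]
      simp
  rw [h0]
  induction L with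
  | zero =>
    rw [Finset.range_zero, Finset.prod_empty, mul_one]
    induction j with
    | zero => simp
    | succ j ih =>
      have e1 : x + 0 + (j + 1) = (x + 0 + j) + 1 := by ring
      have e2 : 2 * 0 + 1 + (j + 1) = (2 * 0 + 1 + j) + 1 := by ring
      rw [e1, e2, Nat.succ_descFactorial_succ, Finset.prod_range_succ, ← ih]
      push_cast
      ring
  | succ L ih =>
    have e1 : x + (L + 1) + j = (x + L + j) + 1 := by ring
    have e2 : 2 * (L + 1) + 1 + j = (2 * L + 1 + j + 1) + 1 := by ring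
    rw [e1, e2, Nat.succ_descFactorial_succ, Finset.prod_range_succ
      (fun u : ℕ => (((x : ℝ) - (u + 1)) * ((x : ℝ) + j + (u + 1)))) L]
    rw [Nat.cast_mul, h1, ih]
    generalize (∏ v ∈ range (j + 1), ((x : ℝ) + v)) = A
    generalize (∏ u ∈ range L, (((x : ℝ) - (u + 1)) * ((x : ℝ) + j + (u + 1)))) = B
    push_cast
    ring

/-- the polynomial `∏_{u=1}^{L} (X - u (j + u))` -/
noncomputable def altP (j L : ℕ) : Polynomial ℝ :=
  ∏ u ∈ range L, (Polynomial.X - Polynomial.C (((u : ℝ) + 1) * ((j : ℝ) + (u + 1))))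

theorem altP_monic (j L : ℕ) : (altP j L).Monic :=
  Polynomial.monic_prod_of_monic _ _ (fun _ _ => Polynomial.monic_X_sub_C _)

theorem altP_deg (j L : ℕ) : (altP j L).natDegree = L := by
  unfold altP
  rw [Polynomial.natDegree_prod_of_monic _ _ (fun _ _ => Polynomial.monic_X_sub_C _),
    Finset.sum_congr rfl (fun u _ => Polynomial.natDegree_X_sub_C _)]
  simp

theorem altP_eval (j L x : ℕ) : (altP j L).eval ((x : ℝ) * (x + j))
    = ∏ u ∈ range L, (((x : ℝ) - (u + 1)) * ((x : ℝ) + j + (u + 1))) := by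
  unfold altP
  rw [Polynomial.eval_prod]
  refine prod_congr rfl fun u _ => ?_
  simp only [Polynomial.eval_sub, Polynomial.eval_X, Polynomial.eval_C]
  ring

/-- products over ordered pairs of the image of a strictly monotone sequence -/
theorem alt_pp {k : ℕ} (f : ℝ → ℝ → ℝ) (y : Fin k → ℕ) (hy : StrictMono y) :
    pp f (univ.image y) = ∏ i : Fin k, ∏ j ∈ Ioi i, f (y i) (y j) := by
  unfold pp
  rw [prod_image (fun a _ b _ h => hy.injective h)]
  have h : ∀ j : Fin k, ∏ s ∈ (univ.image y).filter (· < y j), f (s : ℝ) (y j)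
      = ∏ i ∈ Iio j, f (y i) (y j) := by
    intro j
    have e : (univ.image y).filter (· < y j) = (Iio j).image y := by
      ext s
      simp only [mem_filter, mem_image, mem_univ, true_and, mem_Iio]
      constructor
      · rintro ⟨⟨i, rfl⟩, h2⟩
        exact ⟨i, hy.lt_iff_lt.1 h2, rfl⟩
      · rintro ⟨i, h2, rfl⟩
        exact ⟨⟨i, rfl⟩, hy h2⟩
    rw [e, prod_image (fun a _ b _ h => hy.injective h)]
  rw [prod_congr rfl fun j _ => h j]
  rw [prod_comm' (t' := univ) (s' := fun i => Ioi i)]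
  intro a b
  simp

theorem LG_Lh (k j : ℕ) (x : Fin k → ℕ) (hx : StrictAnti x) (h1 : ∀ i, 1 ≤ x i) :
    (LG k (j + 1) x : ℝ) = Lh j (univ.image x) := by
  set y : Fin k → ℕ := fun i => x (Fin.rev i) with hy
  have hym : StrictMono y := fun a b hab => hx (Fin.rev_lt_rev.2 hab)
  have himg : univ.image x = univ.image y := by
    ext s
    simp only [mem_image, mem_univ, true_and, hy]
    constructor
    · rintro ⟨i, rfl⟩
      exact ⟨Fin.rev i, by rw [Fin.rev_rev]⟩
    · rintro ⟨i, rfl⟩
      exact ⟨_, rfl⟩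
  rw [himg]
  unfold Lh
  have hcard : (univ.image y).card = k := by
    rw [card_image_of_injective _ hym.injective]
    simp
  rw [hcard, alt_pp _ y hym, prod_image (fun a _ b _ h => hym.injective h)]
  have hdet : (LG k (j + 1) x : ℝ) = Matrix.det (Matrix.of fun i l : Fin k =>
      (((y i + (l : ℕ) + j).choose (2 * (l : ℕ) + 1 + j) : ℕ) : ℝ)) := by
    have e1 : LG k (j + 1) x = Matrix.det (Matrix.of fun i l : Fin k =>
      (((x i + (k - 1 - (l : ℕ)) + (j + 1) - 1).choose
        (2 * (k - 1 - (l : ℕ)) + (j + 1)) : ℕ) : ℤ)) := rfl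
    rw [e1, ← Matrix.det_submatrix_equiv_self Fin.revPerm]
    have e2 := (Int.castRingHom ℝ).map_det ((Matrix.of fun i l : Fin k =>
      (((x i + (k - 1 - (l : ℕ)) + (j + 1) - 1).choose
        (2 * (k - 1 - (l : ℕ)) + (j + 1)) : ℕ) : ℤ)).submatrix Fin.revPerm Fin.revPerm)
    simp only [eq_intCast] at e2
    rw [e2]
    congr 1
    ext i l
    simp only [RingHom.mapMatrix_apply, Matrix.map_apply, Matrix.submatrix_apply,
      Matrix.of_apply, Fin.revPerm_apply, Fin.val_rev, Int.coe_castRingHom, Int.cast_natCast, hy]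
    have hl := l.2
    have e3 : k - 1 - (k - ((l : ℕ) + 1)) = l := by omega
    rw [e3]
    congr 2
    ring
  rw [hdet]
  have hfac : ∀ l : Fin k, ((2 * (l : ℕ) + 1 + j).factorial : ℝ) ≠ 0 := fun l =>
    Nat.cast_ne_zero.2 (Nat.factorial_ne_zero _)
  have hmat : (Matrix.of fun i l : Fin k =>
      (((y i + (l : ℕ) + j).choose (2 * (l : ℕ) + 1 + j) : ℕ) : ℝ))
      = Matrix.of fun i l : Fin k => ((2 * (l : ℕ) + 1 + j).factorial : ℝ)⁻¹
        * (Matrix.of fun i l : Fin k => (∏ v ∈ range (j + 1), ((y i : ℝ) + v))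
          * (Matrix.of fun i l : Fin k => (altP j l).eval ((y i : ℝ) * (y i + j))) i l) i l := by
    ext i l
    simp only [Matrix.of_apply]
    rw [altP_eval, ← alt_choose, mul_comm (((y i + (l : ℕ) + j).choose _ : ℕ) : ℝ),
      inv_mul_cancel_left₀ (hfac l)]
  rw [hmat, Matrix.det_mul_row, Matrix.det_mul_column]
  rw [← Matrix.det_eval_matrixOfPolynomials_eq_det_vandermonde _ _ (fun i => altP_deg j i)
    (fun i => altP_monic j i), Matrix.det_vandermonde]
  rw [prod_inv_distrib, Fin.prod_univ_eq_prod_range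
    (fun l => ((2 * l + 1 + j).factorial : ℝ)) k]
  have hprod : ∏ i : Fin k, ∏ l ∈ Ioi i, ((y l : ℝ) * (y l + j) - (y i : ℝ) * (y i + j))
      = ∏ i : Fin k, ∏ l ∈ Ioi i, ((y l : ℝ) - y i) * (y i + y l + j) := by
    refine prod_congr rfl fun i _ => prod_congr rfl fun l _ => ?_
    ring
  rw [hprod]
  rw [div_eq_mul_inv]
  ring

theorem LG_Lf (k : ℕ) (x : Fin k → ℕ) (hx : StrictAnti x) (h1 : ∀ i, 1 ≤ x i) :
    (LG k 1 x : ℝ) = Lf (univ.image x) := by
  have h := LG_Lh k 0 x hx h1
  rw [zero_add] at h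
  rw [h]
  unfold Lh Lf ip vn od
  have e : ∀ s t : ℝ, (t - s) * (s + t + ((0 : ℕ) : ℝ)) = t ^ 2 - s ^ 2 := by
    intro s t
    push_cast
    ring
  simp only [e]
  simp

end Pool.Agent.Helper43.LB
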