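import Pool.Agent.Helper43.LB.Defs

/-!
Increments of the asymptotic functions.
-/

namespace Pool.Agent.Helper43.LB

theorem log_incr {y c : ℝ} (hy : 0 ≤ y) (hc0 : 0 ≤ c) :
    0 ≤ y * (Real.log (y + c) - Real.log y) ∧ y * (Real.log (y + c) - Real.log y) ≤ c := by
  rcases hy.eq_or_lt with h | h
  · subst h; simp [hc0]
  · have h1 : Real.log y ≤ Real.log (y + c) := Real.log_le_log h (by linarith)
    refine ⟨mul_nonneg hy (by linarith), ?_⟩
    have h2 : Real.log (y + c) - Real.log y ≤ c / y := by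
      rw [← Real.log_div (by positivity) h.ne']
      have := Real.log_le_sub_one_of_pos (show 0 < (y + c) / y by positivity)
      have e : (y + c) / y - 1 = c / y := by field_simp; ring
      linarith
    calc y * (Real.log (y + c) - Real.log y) ≤ y * (c / y) := by gcongr
      _ = c := by field_simp

theorem log4b {y b c : ℝ} (hb : 3 ≤ b) (hc : c ≤ 2) (hyb : y ≤ 4 * b)
    (h1 : 1 ≤ y + c) : 0 ≤ Real.log (y + c) ∧ Real.log (y + c) ≤ 2 * Real.log (b + 2) := by
  refine ⟨Real.log_nonneg h1, ?_⟩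
  have : 2 * Real.log (b + 2) = Real.log ((b + 2) ^ 2) := by rw [Real.log_pow]; push_cast; ring
  rw [this]
  apply Real.log_le_log (by linarith)
  nlinarith

theorem one_le_log {b : ℝ} (hb : 3 ≤ b) : 1 ≤ Real.log (b + 2) := by
  rw [Real.le_log_iff_exp_le (by linarith)]
  have := Real.exp_one_lt_d9
  linarith

theorem Ff_diff {y c b : ℝ} (hb : 3 ≤ b) (hy : 0 ≤ y) (hyb : y ≤ 4 * b) (hc0 : 0 ≤ c)
    (hc : c ≤ 2) (h1 : 1 ≤ y + c) : |Ff (y + c) - Ff y| ≤ 8 * Real.log (b + 2) := by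
  obtain ⟨i1, i2⟩ := log_incr hy hc0
  obtain ⟨l1, l2⟩ := log4b hb hc hyb h1
  have hL := one_le_log hb
  have e : Ff (y + c) - Ff y = y * (Real.log (y + c) - Real.log y) + c * Real.log (y + c) - c := by
    unfold Ff; ring
  rw [e, abs_le]
  have h2 : 0 ≤ c * Real.log (y + c) := mul_nonneg hc0 l1
  have h3 : c * Real.log (y + c) ≤ 2 * (2 * Real.log (b + 2)) := by gcongr
  constructor <;> nlinarith

theorem Gf_diff {y c b : ℝ} (hb : 3 ≤ b) (hy : 0 ≤ y) (hyb : y ≤ 4 * b) (hc0 : 0 ≤ c)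
    (hc : c ≤ 2) (h1 : 1 ≤ y + c) :
    |Gf (y + c) - Gf y| ≤ 36 * ((b + 1) * Real.log (b + 2)) := by
  obtain ⟨i1, i2⟩ := log_incr hy hc0
  obtain ⟨l1, l2⟩ := log4b hb hc hyb h1
  have hL := one_le_log hb
  have e : Gf (y + c) - Gf y = y / 2 * (y * (Real.log (y + c) - Real.log y))
      + (y * c + c ^ 2 / 2) * Real.log (y + c) - 3 / 4 * (2 * y * c + c ^ 2) := by
    unfold Gf; ring
  have a1 : y / 2 * (y * (Real.log (y + c) - Real.log y)) ≤ 4 * b / 2 * 2 := by
    gcongr; linarith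
  have a0 : 0 ≤ y / 2 * (y * (Real.log (y + c) - Real.log y)) := by positivity
  have b0 : 0 ≤ (y * c + c ^ 2 / 2) * Real.log (y + c) := by positivity
  have b1 : (y * c + c ^ 2 / 2) * Real.log (y + c)
      ≤ (4 * b * 2 + 2 ^ 2 / 2) * (2 * Real.log (b + 2)) := by gcongr
  have c0 : 0 ≤ 3 / 4 * (2 * y * c + c ^ 2) := by positivity
  have c1 : 3 / 4 * (2 * y * c + c ^ 2) ≤ 3 / 4 * (2 * (4 * b) * 2 + 2 ^ 2) := by gcongr
  have d1 : (b + 1) * 1 ≤ (b + 1) * Real.log (b + 2) := by gcongr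
  rw [e, abs_le]
  constructor <;> nlinarith

/-- `Dd` with a free parameter `m` -/
noncomputable def Dm (m k w j p : ℝ) : ℝ :=
  2 * ((Vf (p + k + j) (p + k + w) - (Gf (2 * k + j) - Gf j) / 2 - Gf (2 * (k + w - j)) / 2)
    - (Vf (p + k) (p + k + w) - Gf (2 * k) / 2 - Gf (2 * (k + w)) / 2) + Sf m p)
  - Sf (m - j) (p + j)
  + 2 * j * (3 / 4 * B1 m w p (p + k) (p + k + w)
      - 1 / 4 * B3 m w p (p + k) (p + k + w)
      + (1 - cB * w / (2 * (p + k + w))) * (B2 m w p (p + k) (p + k + w) / 4)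
      + w / (2 * (p + k + w)) * (cA * k + cB * k * Real.log (p + k + w) - cI * (p + k + w)))
  - 5 * j ^ 2 * Real.log (1 + 2 * (p + k) / j) - 8 * j ^ 2 * k / (p + k)

theorem Dd_eq (k w j p : ℝ) : Dd k w j p = Dm (2 * k + w) k w j p := rfl

theorem Sf_diff {m p b : ℝ} (hb : 3 ≤ b) (hm : 0 ≤ m) (hp : 0 ≤ p) (h : p + m ≤ 2 * b) :
    |Sf (m + 1) p - Sf m p| ≤ 108 * ((b + 1) * Real.log (b + 2)) := by
  have h1 := abs_le.1 (Gf_diff (y := m) (c := 1) hb hm (by linarith) (by norm_num) (by norm_num)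
    (by linarith))
  have h2 := abs_le.1 (Gf_diff (y := 2 * p + 2 * m) (c := 2) hb (by linarith) (by linarith)
    (by norm_num) (by norm_num) (by linarith))
  have h3 := abs_le.1 (Gf_diff (y := 2 * p + m) (c := 1) hb (by linarith) (by linarith)
    (by norm_num) (by norm_num) (by linarith))
  have h4 := abs_le.1 (Gf_diff (y := 2 * m) (c := 2) hb (by linarith) (by linarith)
    (by norm_num) (by norm_num) (by linarith))
  have e2 : 2 * p + 2 * m + 2 = 2 * p + 2 * (m + 1) := by ring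
  have e3 : 2 * p + m + 1 = 2 * p + (m + 1) := by ring
  have e4 : 2 * m + 2 = 2 * (m + 1) := by ring
  rw [e2] at h2
  rw [e3] at h3
  rw [e4] at h4
  unfold Sf
  rw [abs_le]
  constructor <;> linarith [h1.1, h1.2, h2.1, h2.2, h3.1, h3.2, h4.1, h4.2]

theorem B1_diff {m w p a a' b : ℝ} (hb : 3 ≤ b) (hm : 0 ≤ m) (hp : 0 ≤ p) (hw : 0 ≤ w)
    (h : p + m ≤ 2 * b) (hmw : m + w ≤ 4 * b) :
    |B1 (m + 1) w p a a' - B1 m w p a a'| ≤ 32 * Real.log (b + 2) := by
  have h1 := abs_le.1 (Ff_diff (y := 2 * m) (c := 2) hb (by linarith) (by linarith) (by norm_num)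
    (by norm_num) (by linarith))
  have h2 := abs_le.1 (Ff_diff (y := m) (c := 1) hb (by linarith) (by linarith)
    (by norm_num) (by norm_num) (by linarith))
  have h3 := abs_le.1 (Ff_diff (y := 2 * p + m) (c := 1) hb (by linarith) (by linarith)
    (by norm_num) (by norm_num) (by linarith))
  have h4 := abs_le.1 (Ff_diff (y := m + w) (c := 1) hb (by linarith) (by linarith)
    (by norm_num) (by norm_num) (by linarith))
  have e1 : 2 * m + 2 = 2 * (m + 1) := by ring
  have e3 : 2 * p + m + 1 = 2 * p + (m + 1) := by ring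
  have e4 : m + w + 1 = m + 1 + w := by ring
  rw [e1] at h1
  rw [e3] at h3
  rw [e4] at h4
  unfold B1
  rw [abs_le]
  constructor <;> linarith [h1.1, h1.2, h2.1, h2.2, h3.1, h3.2, h4.1, h4.2]

theorem B2_diff {m w p a a' b : ℝ} (hb : 3 ≤ b) (hm : 0 ≤ m) (hp : 0 ≤ p) (hw : 0 ≤ w)
    (hmw' : w ≤ m) (h : p + m ≤ 2 * b) :
    |B2 (m + 1) w p a a' - B2 m w p a a'| ≤ 56 * Real.log (b + 2) := by
  have h1 := abs_le.1 (Ff_diff (y := m) (c := 1) hb (by linarith) (by linarith)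
    (by norm_num) (by norm_num) (by linarith))
  have h2 := abs_le.1 (Ff_diff (y := 2 * p + 2 * m) (c := 2) hb (by linarith) (by linarith)
    (by norm_num) (by norm_num) (by linarith))
  have h3 := abs_le.1 (Ff_diff (y := 2 * m) (c := 2) hb (by linarith) (by linarith) (by norm_num)
    (by norm_num) (by linarith))
  have h4 := abs_le.1 (Ff_diff (y := m - w) (c := 1) hb (by linarith) (by linarith)
    (by norm_num) (by norm_num) (by linarith))
  have h5 := abs_le.1 (Ff_diff (y := m + w) (c := 1) hb (by linarith) (by linarith)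
    (by norm_num) (by norm_num) (by linarith))
  have e2 : 2 * p + 2 * m + 2 = 2 * p + 2 * (m + 1) := by ring
  have e3 : 2 * m + 2 = 2 * (m + 1) := by ring
  have e4 : m - w + 1 = m + 1 - w := by ring
  have e5 : m + w + 1 = m + 1 + w := by ring
  rw [e2] at h2
  rw [e3] at h3
  rw [e4] at h4
  rw [e5] at h5
  unfold B2
  rw [abs_le]
  constructor <;> linarith [h1.1, h1.2, h2.1, h2.2, h3.1, h3.2, h4.1, h4.2, h5.1, h5.2]

theorem B3_diff {m w p a a' b : ℝ} (hb : 3 ≤ b) (hm : 0 ≤ m) (hp : 0 ≤ p) (hw : 0 ≤ w)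
    (h : p + m ≤ 2 * b) (hmw : m + w ≤ 4 * b) :
    |B3 (m + 1) w p a a' - B3 m w p a a'| ≤ 40 * Real.log (b + 2) := by
  have h1 := abs_le.1 (Ff_diff (y := m) (c := 1) hb (by linarith) (by linarith)
    (by norm_num) (by norm_num) (by linarith))
  have h2 := abs_le.1 (Ff_diff (y := 2 * p + 2 * m) (c := 2) hb (by linarith) (by linarith)
    (by norm_num) (by norm_num) (by linarith))
  have h3 := abs_le.1 (Ff_diff (y := 2 * m) (c := 2) hb (by linarith) (by linarith) (by norm_num)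
    (by norm_num) (by linarith))
  have h4 := abs_le.1 (Ff_diff (y := 2 * p + m) (c := 1) hb (by linarith) (by linarith)
    (by norm_num) (by norm_num) (by linarith))
  have h5 := abs_le.1 (Ff_diff (y := m + w) (c := 1) hb (by linarith) (by linarith)
    (by norm_num) (by norm_num) (by linarith))
  have e2 : 2 * p + 2 * m + 2 = 2 * p + 2 * (m + 1) := by ring
  have e3 : 2 * m + 2 = 2 * (m + 1) := by ring
  have e4 : 2 * p + m + 1 = 2 * p + (m + 1) := by ring
  have e5 : m + w + 1 = m + 1 + w := by ring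
  rw [e2] at h2
  rw [e3] at h3
  rw [e4] at h4
  rw [e5] at h5
  unfold B3
  rw [abs_le]
  constructor <;> linarith [h1.1, h1.2, h2.1, h2.2, h3.1, h3.2, h4.1, h4.2, h5.1, h5.2]

/-- passing from `2 k + w` to `2 k + 1 + w` -/
theorem Dm_ge {k w j p b : ℝ} (hk : 0 ≤ k) (hj : 0 ≤ j) (hjw : j ≤ w) (hp : 0 ≤ p)
    (hbe : b = p + k + w) (hb : 3 ≤ b) :
    Dd k w j p - 500 * ((b + 1) * Real.log (b + 2)) ≤ Dm (2 * k + 1 + w) k w j p := by
  have hL := one_le_log hb
  have s1 := abs_le.1 (Sf_diff (m := 2 * k + w) (p := p) hb (by linarith) hp (by linarith))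
  have s2 := abs_le.1 (Sf_diff (m := 2 * k + w - j) (p := p + j) hb (by linarith) (by linarith)
    (by linarith))
  have t1 := abs_le.1 (B1_diff (m := 2 * k + w) (p := p) (w := w) (a := p + k) (a' := p + k + w)
    hb (by linarith) hp (by linarith) (by linarith) (by linarith))
  have t2 := abs_le.1 (B2_diff (m := 2 * k + w) (p := p) (w := w) (a := p + k) (a' := p + k + w)
    hb (by linarith) hp (by linarith) (by linarith) (by linarith))
  have t3 := abs_le.1 (B3_diff (m := 2 * k + w) (p := p) (w := w) (a := p + k) (a' := p + k + w)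
    hb (by linarith) hp (by linarith) (by linarith) (by linarith))
  have e1 : 2 * k + w + 1 = 2 * k + 1 + w := by ring
  have e2 : 2 * k + w - j + 1 = 2 * k + 1 + w - j := by ring
  rw [e1] at s1 t1 t2 t3
  rw [e2] at s2
  rw [Dd_eq]
  unfold Dm
  set L := Real.log (b + 2) with hLdef
  set x1 := B1 (2 * k + 1 + w) w p (p + k) (p + k + w)
  set x2 := B2 (2 * k + 1 + w) w p (p + k) (p + k + w)
  set x3 := B3 (2 * k + 1 + w) w p (p + k) (p + k + w)
  set y1 := B1 (2 * k + w) w p (p + k) (p + k + w)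
  set y2 := B2 (2 * k + w) w p (p + k) (p + k + w)
  set y3 := B3 (2 * k + w) w p (p + k) (p + k + w)
  have hcB : cB = 7 / 50 := rfl
  have hw : 0 ≤ w := by linarith
  have hcoef0 : 0 ≤ 1 - cB * w / (2 * (p + k + w)) := by
    rw [← hbe]
    have : cB * w / (2 * b) ≤ 1 := by
      rw [div_le_one (by linarith), hcB]; linarith
    linarith
  have hcoef1 : 1 - cB * w / (2 * (p + k + w)) ≤ 1 := by
    rw [← hbe]
    have : 0 ≤ cB * w / (2 * b) := by rw [hcB]; positivity
    linarith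
  set co := 1 - cB * w / (2 * (p + k + w))
  have hjb : j ≤ b + 1 := by linarith
  have u1 : j * (y1 - 32 * L) ≤ j * x1 := by gcongr; linarith [t1.1]
  have u3 : j * x3 ≤ j * (y3 + 40 * L) := by gcongr; linarith [t3.2]
  have u2 : j * co * (y2 - 56 * L) ≤ j * co * x2 := by gcongr; linarith [t2.1]
  have v1 : j * L ≤ (b + 1) * L := by gcongr
  have v2 : j * co * L ≤ (b + 1) * 1 * L := by gcongr
  have v0 : 0 ≤ (b + 1) * L := by positivity
  have w2 : 2 * j * (3 / 4 * y1 - 1 / 4 * y3 + co * (y2 / 4)) - (48 + 20 + 28) * ((b + 1) * L)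
      ≤ 2 * j * (3 / 4 * x1 - 1 / 4 * x3 + co * (x2 / 4)) := by
    nlinarith [u1, u2, u3, v1, v2]
  nlinarith [s1.1, s1.2, s2.1, s2.2, w2]

end Pool.Agent.Helper43.LB
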