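import Pool.Agent.Helper43.LB.Defs

/-!
The ensemble: removal of a particle, the hole lemma and the Jensen bounds.
-/

namespace Pool.Agent.Helper43.LB

open Finset

/-! ### products over pairs -/

theorem pp_insert (f : ℝ → ℝ → ℝ) (R : Finset ℕ) (s : ℕ) (hs : s ∉ R) :
    pp f (insert s R) = pp f R * ∏ t ∈ R, (if t < s then f t s else f s t) := by
  unfold pp
  rw [prod_insert hs]
  have h1 : (insert s R).filter (· < s) = R.filter (· < s) := by
    rw [filter_insert, if_neg (lt_irrefl s)]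
  have h2 : ∀ t ∈ R, ∏ x ∈ (insert s R).filter (· < t), f x t
      = (∏ x ∈ R.filter (· < t), f x t) * (if s < t then f s t else 1) := by
    intro t _
    rw [filter_insert]
    split_ifs with h
    · rw [prod_insert, mul_comm]
      simp [hs]
    · simp
  rw [h1, prod_congr rfl h2, prod_mul_distrib, mul_comm, mul_assoc]
  congr 1
  rw [prod_filter, ← prod_mul_distrib]
  apply prod_congr rfl
  intro t ht
  have hne : t ≠ s := fun e => hs (e ▸ ht)
  rcases lt_or_gt_of_ne hne with h | h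
  · simp [h, not_lt.2 h.le]
  · simp [h, not_lt.2 h.le]

theorem pp_congr (f g : ℝ → ℝ → ℝ) (S : Finset ℕ)
    (h : ∀ t ∈ S, ∀ s ∈ S, s < t → f s t = g s t) : pp f S = pp g S := by
  unfold pp
  apply prod_congr rfl
  intro t ht
  apply prod_congr rfl
  intro s hs
  rw [mem_filter] at hs
  exact h t ht s hs.1 hs.2

theorem pp_pos (f : ℝ → ℝ → ℝ) (S : Finset ℕ)
    (h : ∀ t ∈ S, ∀ s ∈ S, s < t → 0 < f s t) : 0 < pp f S := by
  unfold pp
  apply prod_pos
  intro t ht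
  apply prod_pos
  intro s hs
  rw [mem_filter] at hs
  exact h t ht s hs.1 hs.2

theorem pp_mul (f g : ℝ → ℝ → ℝ) (S : Finset ℕ) :
    pp (fun s t => f s t * g s t) S = pp f S * pp g S := by
  unfold pp
  rw [← prod_mul_distrib]
  apply prod_congr rfl
  intro t _
  rw [← prod_mul_distrib]

/-- the one-particle factor -/
noncomputable def w1 (a b : ℕ) (R : Finset ℕ) (s : ℕ) : ℝ :=
  (s : ℝ) ^ 2 * (∏ t ∈ R, ((t : ℝ) ^ 2 - (s : ℝ) ^ 2) ^ 2)
    * ∏ Y ∈ Ioc a b, ((Y : ℝ) ^ 2 - (s : ℝ) ^ 2)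

theorem wt_insert (a b : ℕ) (R : Finset ℕ) (s : ℕ) (hs : s ∉ R) :
    wt a b (insert s R) = wt a b R * w1 a b R s := by
  have h : vn (insert s R) ^ 2 = vn R ^ 2 * ∏ t ∈ R, ((t : ℝ) ^ 2 - (s : ℝ) ^ 2) ^ 2 := by
    unfold vn
    rw [pp_insert _ _ _ hs, mul_pow, ← prod_pow]
    congr 1
    apply prod_congr rfl
    intro t _
    split_ifs <;> ring
  unfold wt w1
  rw [h, ip, ip, prod_insert hs, prod_insert hs]
  ring

theorem sq_sub_pos {s t : ℕ} (h : s < t) : (0 : ℝ) < (t : ℝ) ^ 2 - (s : ℝ) ^ 2 := by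
  have h1 : (s : ℝ) < t := by exact_mod_cast h
  have h2 : (0 : ℝ) ≤ s := Nat.cast_nonneg _
  nlinarith

theorem ip_pos {S : Finset ℕ} (h : ∀ s ∈ S, 1 ≤ s) : 0 < ip S := by
  unfold ip
  apply prod_pos
  intro s hs
  have := h s hs
  exact_mod_cast this

theorem vn_pos (S : Finset ℕ) : 0 < vn S := pp_pos _ _ fun _ _ _ _ h => sq_sub_pos h

theorem wt_pos {a b : ℕ} {S : Finset ℕ} (h : S ⊆ Icc 1 a) : 0 < wt a b S := by
  unfold wt
  have h1 : 0 < ip S := ip_pos fun s hs => (mem_Icc.1 (h hs)).1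
  have h2 := vn_pos S
  have h3 : 0 < ∏ s ∈ S, ∏ Y ∈ Ioc a b, ((Y : ℝ) ^ 2 - (s : ℝ) ^ 2) := by
    apply prod_pos
    intro s hs
    apply prod_pos
    intro Y hY
    have := (mem_Icc.1 (h hs)).2
    have := (mem_Ioc.1 hY).1
    exact sq_sub_pos (by omega)
  positivity

theorem w1_pos {a b s : ℕ} {R : Finset ℕ} (hs1 : 1 ≤ s) (hs : s ≤ a) (hsR : s ∉ R) :
    0 < w1 a b R s := by
  unfold w1
  have h1 : (0 : ℝ) < s := by exact_mod_cast hs1
  have h2 : 0 < ∏ t ∈ R, ((t : ℝ) ^ 2 - (s : ℝ) ^ 2) ^ 2 := by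
    apply prod_pos
    intro t ht
    have hne : t ≠ s := fun e => hsR (e ▸ ht)
    have : (t : ℝ) ^ 2 - (s : ℝ) ^ 2 ≠ 0 := by
      rcases lt_or_gt_of_ne hne with h | h
      · have := sq_sub_pos h
        intro e
        linarith
      · exact (sq_sub_pos h).ne'
    positivity
  have h3 : 0 < ∏ Y ∈ Ioc a b, ((Y : ℝ) ^ 2 - (s : ℝ) ^ 2) := by
    apply prod_pos
    intro Y hY
    have := (mem_Ioc.1 hY).1
    exact sq_sub_pos (by omega)
  positivity

/-! ### double counting -/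

theorem sum_powersetCard_erase (T : Finset ℕ) (k : ℕ) (g : ℕ → Finset ℕ → ℝ) :
    ∑ S ∈ T.powersetCard (k + 1), ∑ s ∈ S, g s (S.erase s)
      = ∑ R ∈ T.powersetCard k, ∑ s ∈ T \ R, g s R := by
  rw [sum_sigma', sum_sigma']
  refine sum_bij' (fun x _ => ⟨x.1.erase x.2, x.2⟩) (fun x _ => ⟨insert x.2 x.1, x.2⟩) ?_ ?_ ?_ ?_ ?_
  · rintro ⟨S, s⟩ h
    simp only [mem_sigma, mem_powersetCard, mem_sdiff, mem_erase] at h ⊢
    refine ⟨⟨(erase_subset _ _).trans h.1.1, ?_⟩, h.1.1 h.2, by simp⟩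
    rw [card_erase_of_mem h.2, h.1.2]
    omega
  · rintro ⟨R, s⟩ h
    simp only [mem_sigma, mem_powersetCard, mem_sdiff] at h ⊢
    refine ⟨⟨insert_subset h.2.1 h.1.1, ?_⟩, mem_insert_self _ _⟩
    rw [card_insert_of_notMem h.2.2, h.1.2]
  · rintro ⟨S, s⟩ h
    simp only [mem_sigma] at h
    simp only [insert_erase h.2]
  · rintro ⟨R, s⟩ h
    simp only [mem_sigma, mem_sdiff] at h
    simp only [erase_insert h.2.2]
  · rintro ⟨S, s⟩ _
    rfl

end Pool.Agent.Helper43.LB
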