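import Pool.Agent.Helper43.LB.Ens

/-!
The hole lemma: `P(1 ∈ S) ≤ (poly) P(1 ∉ S)`.
-/

namespace Pool.Agent.Helper43.LB

open Finset Nat

theorem prodA1 (r n : ℕ) (hn : 2 ≤ n) :
    (∏ t ∈ Ico 2 n, ((r : ℝ) + t)) * ((r + 1)! : ℝ) = ((r + n - 1)! : ℝ) := by
  induction n, hn using Nat.le_induction with
  | base => simp
  | succ n hn ih =>
    rw [prod_Ico_succ_top hn, mul_right_comm, ih]
    have : r + (n + 1) - 1 = (r + n - 1) + 1 := by omega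
    rw [this, factorial_succ]
    push_cast
    have h2 : ((r + n - 1 : ℕ) : ℝ) = r + n - 1 := by
      rw [Nat.cast_sub (by omega)]; push_cast; ring
    rw [h2]
    ring

theorem prodA2 (r n : ℕ) (hn : 2 ≤ n) (hr : n ≤ r) :
    (∏ t ∈ Ico 2 n, ((r : ℝ) - t)) * ((r - n)! : ℝ) = ((r - 2)! : ℝ) := by
  induction n, hn using Nat.le_induction with
  | base => simp
  | succ n hn ih =>
    rw [prod_Ico_succ_top hn, mul_assoc, ← ih (by omega)]
    congr 1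
    have : r - n = (r - (n + 1)) + 1 := by omega
    rw [this, factorial_succ]
    push_cast
    rw [Nat.cast_sub (by omega)]
    push_cast
    ring

theorem prodA3 (n : ℕ) (hn : 2 ≤ n) :
    (∏ t ∈ Ico 2 n, ((t : ℝ) ^ 2 - 1)) * 2 = ((n - 2)! : ℝ) * (n ! : ℝ) := by
  induction n, hn using Nat.le_induction with
  | base => simp
  | succ n hn ih =>
    rw [prod_Ico_succ_top hn, mul_right_comm, ih]
    have h1 : n + 1 - 2 = (n - 2) + 1 := by omega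
    rw [h1, factorial_succ, factorial_succ]
    push_cast
    rw [Nat.cast_sub (by omega)]
    push_cast
    ring

/-- `A · Q` in closed form -/
theorem prodA (r : ℕ) (hr : 2 ≤ r) :
    (∏ t ∈ Ico 2 r, (((r : ℝ) ^ 2 - (t : ℝ) ^ 2) / ((t : ℝ) ^ 2 - 1))) * (((r + 1)! : ℝ) * (r ! : ℝ))
      = 2 * ((2 * r - 1)! : ℝ) := by
  rw [prod_div_distrib]
  have h1 : ∏ t ∈ Ico 2 r, ((r : ℝ) ^ 2 - (t : ℝ) ^ 2)
      = (∏ t ∈ Ico 2 r, ((r : ℝ) - t)) * ∏ t ∈ Ico 2 r, ((r : ℝ) + t) := by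
    rw [← prod_mul_distrib]
    apply prod_congr rfl
    intro t _
    ring
  have e1 := prodA1 r r hr
  have e2 := prodA2 r r hr le_rfl
  have e3 := prodA3 r hr
  rw [show r + r - 1 = 2 * r - 1 by omega] at e1
  rw [Nat.sub_self, factorial_zero, Nat.cast_one, mul_one] at e2
  rw [h1, e2]
  have p3 : (0 : ℝ) < ∏ t ∈ Ico 2 r, ((t : ℝ) ^ 2 - 1) := by
    apply prod_pos
    intro t ht
    have := (mem_Ico.1 ht).1
    have h2 : (2 : ℝ) ≤ t := by exact_mod_cast this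
    nlinarith
  have p1 : (0 : ℝ) < ((r - 2)! : ℝ) := by exact_mod_cast factorial_pos _
  rw [div_mul_eq_mul_div, div_eq_iff p3.ne']
  calc ((r - 2)! : ℝ) * (∏ t ∈ Ico 2 r, ((r : ℝ) + t)) * (((r + 1)! : ℝ) * (r ! : ℝ))
      = ((∏ t ∈ Ico 2 r, ((r : ℝ) + t)) * ((r + 1)! : ℝ)) * (((r - 2)! : ℝ) * (r ! : ℝ)) := by ring
    _ = ((2 * r - 1)! : ℝ) * ((∏ t ∈ Ico 2 r, ((t : ℝ) ^ 2 - 1)) * 2) := by rw [e1, e3]
    _ = _ := by ring

theorem prodQ (r b : ℕ) (hr : 1 ≤ r) (hb : r ≤ b) :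
    (∏ t ∈ Ioc r b, (((t : ℝ) ^ 2 - (r : ℝ) ^ 2) / ((t : ℝ) ^ 2 - 1)))
        * (((2 * r)! : ℝ) * ((b - 1)! : ℝ) * ((b + 1)! : ℝ))
      = ((b - r)! : ℝ) * ((b + r)! : ℝ) * ((r - 1)! : ℝ) * ((r + 1)! : ℝ) := by
  induction b, hb using Nat.le_induction with
  | base =>
    rw [Ioc_self, prod_empty, Nat.sub_self, ← two_mul, factorial_zero]
    push_cast
    ring
  | succ b hb ih =>
    rw [prod_Ioc_succ_top hb]
    have h1 : b + 1 - r = (b - r) + 1 := by omega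
    have h2 : b + 1 + r = (b + r) + 1 := by omega
    have h3 : b + 1 - 1 = (b - 1) + 1 := by omega
    rw [h1, h2, h3, factorial_succ (b - r), factorial_succ (b + r), factorial_succ (b - 1),
      factorial_succ (b + 1)]
    push_cast
    rw [Nat.cast_sub hb, Nat.cast_sub (by omega : 1 ≤ b)]
    have hb1 : (1 : ℝ) ≤ b := by exact_mod_cast (by omega : 1 ≤ b)
    have hne : ((b : ℝ) + 1) ^ 2 - 1 ≠ 0 := by nlinarith
    push_cast
    have e : (((b : ℝ) + 1) ^ 2 - (r : ℝ) ^ 2) / (((b : ℝ) + 1) ^ 2 - 1)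
        * (((b : ℝ) - 1 + 1) * ((b : ℝ) + 1 + 1)) = ((b : ℝ) - r + 1) * ((b : ℝ) + r + 1) := by
      field_simp
      ring
    calc _ = ((∏ t ∈ Ioc r b, (((t : ℝ) ^ 2 - (r : ℝ) ^ 2) / ((t : ℝ) ^ 2 - 1)))
          * (((2 * r)! : ℝ) * ((b - 1)! : ℝ) * ((b + 1)! : ℝ)))
          * ((((b : ℝ) + 1) ^ 2 - (r : ℝ) ^ 2) / (((b : ℝ) + 1) ^ 2 - 1)
            * (((b : ℝ) - 1 + 1) * ((b : ℝ) + 1 + 1))) := by ring
      _ = _ := by rw [ih, e]; ring

theorem fact_conv (r b : ℕ) (hr : 1 ≤ r) (hb : r ≤ b) :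
    (b - 1)! * (b + 1)! ≤ (b - r)! * (b + r)! := by
  induction r, hr using Nat.le_induction with
  | base => exact le_rfl
  | succ r hr ih =>
    refine (ih (by omega)).trans ?_
    have h1 : b - r = (b - (r + 1)) + 1 := by omega
    have h2 : b + (r + 1) = (b + r) + 1 := by omega
    rw [h1, h2, factorial_succ, factorial_succ]
    have : b - (r + 1) + 1 ≤ b + r + 1 := by omega
    calc (b - (r + 1) + 1) * (b - (r + 1))! * (b + r)!
        = (b - (r + 1) + 1) * ((b - (r + 1))! * (b + r)!) := by ring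
      _ ≤ (b + r + 1) * ((b - (r + 1))! * (b + r)!) := Nat.mul_le_mul_right _ this
      _ = _ := by ring

/-- `A · Q ≥ 1 / r²` -/
theorem AQ_ge (r b : ℕ) (hr : 2 ≤ r) (hb : r ≤ b) :
    1 ≤ (r : ℝ) ^ 2 * ((∏ t ∈ Ico 2 r, (((r : ℝ) ^ 2 - (t : ℝ) ^ 2) / ((t : ℝ) ^ 2 - 1)))
      * ∏ t ∈ Ioc r b, (((t : ℝ) ^ 2 - (r : ℝ) ^ 2) / ((t : ℝ) ^ 2 - 1))) := by
  have hA := prodA r hr
  have hQ := prodQ r b (by omega) hb
  have hc : (((b - 1)! : ℝ) * ((b + 1)! : ℝ)) ≤ ((b - r)! : ℝ) * ((b + r)! : ℝ) := by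
    exact_mod_cast fact_conv r b (by omega) hb
  set A := ∏ t ∈ Ico 2 r, (((r : ℝ) ^ 2 - (t : ℝ) ^ 2) / ((t : ℝ) ^ 2 - 1))
  set Q := ∏ t ∈ Ioc r b, (((t : ℝ) ^ 2 - (r : ℝ) ^ 2) / ((t : ℝ) ^ 2 - 1))
  have p1 : (0 : ℝ) < ((b - 1)! : ℝ) := by exact_mod_cast factorial_pos _
  have p2 : (0 : ℝ) < ((b + 1)! : ℝ) := by exact_mod_cast factorial_pos _
  have p3 : (0 : ℝ) < ((2 * r)! : ℝ) := by exact_mod_cast factorial_pos _
  have p4 : (0 : ℝ) < ((r - 1)! : ℝ) := by exact_mod_cast factorial_pos _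
  have p5 : (0 : ℝ) < ((r + 1)! : ℝ) := by exact_mod_cast factorial_pos _
  have p6 : (0 : ℝ) < (r ! : ℝ) := by exact_mod_cast factorial_pos _
  have p7 : (0 : ℝ) < ((2 * r - 1)! : ℝ) := by exact_mod_cast factorial_pos _
  have hr0 : (0 : ℝ) < r := by exact_mod_cast (by omega : 0 < r)
  -- Q ≥ (r-1)!(r+1)!/(2r)!
  have hQ2 : ((r - 1)! : ℝ) * ((r + 1)! : ℝ) ≤ Q * ((2 * r)! : ℝ) := by
    have h1 : ((r - 1)! : ℝ) * ((r + 1)! : ℝ) * (((b - 1)! : ℝ) * ((b + 1)! : ℝ))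
        ≤ Q * ((2 * r)! : ℝ) * (((b - 1)! : ℝ) * ((b + 1)! : ℝ)) := by
      calc _ ≤ ((r - 1)! : ℝ) * ((r + 1)! : ℝ) * (((b - r)! : ℝ) * ((b + r)! : ℝ)) := by
            gcongr
        _ = Q * (((2 * r)! : ℝ) * ((b - 1)! : ℝ) * ((b + 1)! : ℝ)) := by rw [hQ]; ring
        _ = _ := by ring
    exact le_of_mul_le_mul_right h1 (by positivity)
  have e1 : (r ! : ℝ) = r * ((r - 1)! : ℝ) := by
    have : r ! = r * (r - 1)! := (Nat.mul_factorial_pred (by omega)).symm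
    exact_mod_cast this
  have e2 : ((2 * r)! : ℝ) = 2 * r * ((2 * r - 1)! : ℝ) := by
    have : (2 * r)! = 2 * r * (2 * r - 1)! := (Nat.mul_factorial_pred (by omega)).symm
    exact_mod_cast this
  have hAe : A = 2 * ((2 * r - 1)! : ℝ) / (((r + 1)! : ℝ) * (r ! : ℝ)) := by
    rw [eq_div_iff (by positivity)]; exact hA
  have hQe : ((r - 1)! : ℝ) * ((r + 1)! : ℝ) / ((2 * r)! : ℝ) ≤ Q := by
    rw [div_le_iff₀ p3]; exact hQ2
  have hA0 : 0 < A := by rw [hAe]; positivity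
  calc (1 : ℝ) = (r : ℝ) ^ 2 * (A * (((r - 1)! : ℝ) * ((r + 1)! : ℝ) / ((2 * r)! : ℝ))) := by
        rw [hAe, e1, e2]
        field_simp
    _ ≤ _ := by gcongr

theorem prod_subset_ge {T R : Finset ℕ} (h : R ⊆ T) (gg : ℕ → ℝ) (h0 : ∀ t ∈ T, 0 ≤ gg t)
    (h1 : ∀ t ∈ T, gg t ≤ 1) : ∏ t ∈ T, gg t ≤ ∏ t ∈ R, gg t := by
  rw [← prod_sdiff h]
  have e1 : ∏ t ∈ T \ R, gg t ≤ 1 := by
    apply prod_le_one
    · intro t ht; exact h0 t (sdiff_subset ht)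
    · intro t ht; exact h1 t (sdiff_subset ht)
  have e2 : 0 ≤ ∏ t ∈ R, gg t := prod_nonneg fun t ht => h0 t (h ht)
  calc _ ≤ 1 * ∏ t ∈ R, gg t := by gcongr
    _ = _ := one_mul _

theorem w1_hole (a b r : ℕ) (R : Finset ℕ) (hr : 2 ≤ r) (hra : r ≤ a) (hab : a ≤ b)
    (hR : R ⊆ Icc 2 a) (hrR : r ∉ R) (hlow : ∀ t, 2 ≤ t → t < r → t ∈ R) :
    w1 a b R 1 ≤ (r : ℝ) ^ 2 * w1 a b R r := by
  classical
  have hsplit : R = Ico 2 r ∪ R.filter (r < ·) := by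
    ext t
    simp only [mem_union, mem_Ico, mem_filter]
    constructor
    · intro ht
      rcases lt_trichotomy t r with h | h | h
      · left; exact ⟨(mem_Icc.1 (hR ht)).1, h⟩
      · exact absurd (h ▸ ht) hrR
      · right; exact ⟨ht, h⟩
    · rintro (⟨h1, h2⟩ | ⟨h1, _⟩)
      · exact hlow t h1 h2
      · exact h1
  have hdisj : Disjoint (Ico 2 r) (R.filter (r < ·)) := by
    rw [disjoint_left]
    intro t h1 h2
    have := (mem_Ico.1 h1).2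
    have := (mem_filter.1 h2).2
    omega
  set gg : ℕ → ℝ := fun t => ((t : ℝ) ^ 2 - (r : ℝ) ^ 2) / ((t : ℝ) ^ 2 - 1) with hgg
  have hr1 : (2 : ℝ) ≤ r := by exact_mod_cast hr
  have hgg0 : ∀ t : ℕ, r < t → 0 < gg t := by
    intro t ht
    have h1 := sq_sub_pos ht
    have h2 : (r : ℝ) < t := by exact_mod_cast ht
    apply div_pos h1
    nlinarith
  have hgg1 : ∀ t : ℕ, r < t → gg t ≤ 1 := by
    intro t ht
    have h2 : (r : ℝ) < t := by exact_mod_cast ht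
    rw [hgg]
    simp only
    rw [div_le_one (by nlinarith)]
    nlinarith
  -- the two products
  have hne : ∀ t : ℕ, 2 ≤ t → ((t : ℝ) ^ 2 - 1) ≠ 0 := by
    intro t ht
    have : (2 : ℝ) ≤ t := by exact_mod_cast ht
    nlinarith
  have hpos1 : ∀ t : ℕ, 2 ≤ t → (0 : ℝ) < ((t : ℝ) ^ 2 - 1) := by
    intro t ht
    have : (2 : ℝ) ≤ t := by exact_mod_cast ht
    nlinarith
  have hR2 : ∏ t ∈ R, ((t : ℝ) ^ 2 - (r : ℝ) ^ 2) ^ 2
      = (∏ t ∈ R, ((t : ℝ) ^ 2 - 1) ^ 2) * ∏ t ∈ R, gg t ^ 2 := by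
    rw [← prod_mul_distrib]
    apply prod_congr rfl
    intro t ht
    have := hne t (mem_Icc.1 (hR ht)).1
    simp only [hgg]
    field_simp
  have hY2 : ∏ Y ∈ Ioc a b, ((Y : ℝ) ^ 2 - (r : ℝ) ^ 2)
      = (∏ Y ∈ Ioc a b, ((Y : ℝ) ^ 2 - 1)) * ∏ Y ∈ Ioc a b, gg Y := by
    rw [← prod_mul_distrib]
    apply prod_congr rfl
    intro t ht
    have := hne t (by have := (mem_Ioc.1 ht).1; omega)
    simp only [hgg]
    field_simp
  have hA : ∏ t ∈ Ico 2 r, gg t ^ 2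
      = (∏ t ∈ Ico 2 r, (((r : ℝ) ^ 2 - (t : ℝ) ^ 2) / ((t : ℝ) ^ 2 - 1))) ^ 2 := by
    rw [← prod_pow]
    apply prod_congr rfl
    intro t ht
    simp only [hgg]
    rw [div_pow, div_pow]
    congr 1
    ring
  have hR3 : ∏ t ∈ R, gg t ^ 2 = (∏ t ∈ Ico 2 r, gg t ^ 2) * ∏ t ∈ R.filter (r < ·), gg t ^ 2 := by
    rw [← prod_union hdisj, ← hsplit]
  have hR4 : (∏ t ∈ Ioc r a, gg t) ^ 2 ≤ ∏ t ∈ R.filter (r < ·), gg t ^ 2 := by
    rw [prod_pow]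
    have h1 : ∏ t ∈ Ioc r a, gg t ≤ ∏ t ∈ R.filter (r < ·), gg t := by
      apply prod_subset_ge
      · intro t ht
        rw [mem_filter] at ht
        rw [mem_Ioc]
        exact ⟨ht.2, (mem_Icc.1 (hR ht.1)).2⟩
      · intro t ht; exact (hgg0 t (mem_Ioc.1 ht).1).le
      · intro t ht; exact hgg1 t (mem_Ioc.1 ht).1
    have h2 : 0 ≤ ∏ t ∈ Ioc r a, gg t := prod_nonneg fun t ht => (hgg0 t (mem_Ioc.1 ht).1).le
    exact pow_le_pow_left₀ h2 h1 2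
  have hY3 : (∏ Y ∈ Ioc a b, gg Y) ^ 2 ≤ ∏ Y ∈ Ioc a b, gg Y := by
    have h0 : 0 ≤ ∏ Y ∈ Ioc a b, gg Y :=
      prod_nonneg fun t ht => (hgg0 t (by have := (mem_Ioc.1 ht).1; omega)).le
    have h1 : ∏ Y ∈ Ioc a b, gg Y ≤ 1 := by
      apply prod_le_one
      · intro t ht; exact (hgg0 t (by have := (mem_Ioc.1 ht).1; omega)).le
      · intro t ht; exact hgg1 t (by have := (mem_Ioc.1 ht).1; omega)
    nlinarith
  have hQ : ∏ t ∈ Ioc r b, gg t = (∏ t ∈ Ioc r a, gg t) * ∏ Y ∈ Ioc a b, gg Y := by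
    have hu : Ioc r b = Ioc r a ∪ Ioc a b := by
      rw [Ioc_union_Ioc_eq_Ioc hra hab]
    rw [hu, prod_union]
    rw [disjoint_left]
    intro t h1 h2
    have := (mem_Ioc.1 h1).2
    have := (mem_Ioc.1 h2).1
    omega
  have hAQ := AQ_ge r b hr (hra.trans hab)
  unfold w1
  rw [hR2, hY2, hR3, hA]
  simp only [Nat.cast_one, one_pow, one_mul]
  set A := ∏ t ∈ Ico 2 r, (((r : ℝ) ^ 2 - (t : ℝ) ^ 2) / ((t : ℝ) ^ 2 - 1)) with hAdef
  have hA0 : 0 ≤ A := by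
    apply prod_nonneg
    intro t ht
    have h1 := sq_sub_pos (mem_Ico.1 ht).2
    have h2 := hpos1 t (mem_Ico.1 ht).1
    positivity
  have hP1 : 0 < ∏ t ∈ R, ((t : ℝ) ^ 2 - 1) ^ 2 := by
    apply prod_pos
    intro t ht
    have := hpos1 t (mem_Icc.1 (hR ht)).1
    positivity
  have hP2 : 0 < ∏ Y ∈ Ioc a b, ((Y : ℝ) ^ 2 - 1) := by
    apply prod_pos
    intro t ht
    exact hpos1 t (by have := (mem_Ioc.1 ht).1; omega)
  have hq1 : 0 ≤ ∏ t ∈ Ioc r a, gg t := prod_nonneg fun t ht => (hgg0 t (mem_Ioc.1 ht).1).le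
  have hq2 : 0 ≤ ∏ Y ∈ Ioc a b, gg Y :=
    prod_nonneg fun t ht => (hgg0 t (by have := (mem_Ioc.1 ht).1; omega)).le
  set q1 := ∏ t ∈ Ioc r a, gg t
  set q2 := ∏ Y ∈ Ioc a b, gg Y
  set q3 := ∏ t ∈ R.filter (r < ·), gg t ^ 2
  have hAQ' : 1 ≤ (r : ℝ) ^ 2 * (A * (q1 * q2)) := by rw [← hQ]; exact hAQ
  have key : 1 ≤ (r : ℝ) ^ 2 * ((r : ℝ) ^ 2 * (A ^ 2 * q3 * q2)) := by
    calc (1 : ℝ) ≤ ((r : ℝ) ^ 2 * (A * (q1 * q2))) ^ 2 := by
          exact one_le_pow₀ hAQ'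
      _ = (r : ℝ) ^ 2 * ((r : ℝ) ^ 2 * (A ^ 2 * q1 ^ 2 * q2 ^ 2)) := by ring
      _ ≤ _ := by gcongr
  calc (∏ t ∈ R, ((t : ℝ) ^ 2 - 1) ^ 2) * ∏ Y ∈ Ioc a b, ((Y : ℝ) ^ 2 - 1)
      ≤ ((∏ t ∈ R, ((t : ℝ) ^ 2 - 1) ^ 2) * ∏ Y ∈ Ioc a b, ((Y : ℝ) ^ 2 - 1))
        * ((r : ℝ) ^ 2 * ((r : ℝ) ^ 2 * (A ^ 2 * q3 * q2))) := by
        apply le_mul_of_one_le_right (by positivity) key
    _ = _ := by ring

theorem exists_hole (k a : ℕ) (R : Finset ℕ) (hR : R ⊆ Icc 2 a) (hc : R.card = k) :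
    ∃ r, 2 ≤ r ∧ r ≤ k + 2 ∧ r ∉ R ∧ ∀ t, 2 ≤ t → t < r → t ∈ R := by
  classical
  have hex : ∃ r, 2 ≤ r ∧ r ∉ R := by
    refine ⟨a + 2, by omega, fun h => ?_⟩
    have := (mem_Icc.1 (hR h)).2
    omega
  refine ⟨Nat.find hex, (Nat.find_spec hex).1, ?_, (Nat.find_spec hex).2, ?_⟩
  · have hsub : Ico 2 (Nat.find hex) ⊆ R := by
      intro t ht
      rw [mem_Ico] at ht
      by_contra hn
      exact Nat.find_min hex ht.2 ⟨ht.1, hn⟩
    have := card_le_card hsub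
    rw [Nat.card_Ico, hc] at this
    omega
  · intro t h2 hlt
    by_contra hn
    exact Nat.find_min hex hlt ⟨h2, hn⟩

theorem U0_nonneg (k a b : ℕ) : 0 ≤ U0 k a b := by
  apply sum_nonneg
  intro S hS
  apply (wt_pos _).le
  have := (mem_powersetCard.1 hS).1
  exact this.trans (Icc_subset_Icc (by omega) le_rfl)

theorem U_le (k a b : ℕ) (hka : k < a) (hab : a ≤ b) :
    U k a b ≤ ((k : ℝ) + 1) ^ 3 * U0 k a b := by
  classical
  have hT : Icc 1 a = insert 1 (Icc 2 a) := by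
    ext t; simp only [mem_Icc, mem_insert]; omega
  have h1T : (1 : ℕ) ∉ Icc 2 a := by simp
  cases k with
  | zero => simp [U, U0]
  | succ k =>
    have hsum : U (k + 1) a b = U0 (k + 1) a b
        + ∑ R ∈ (Icc 2 a).powersetCard k, wt a b (insert 1 R) := by
      unfold U U0
      rw [hT, powersetCard_succ_insert h1T, sum_union, sum_image]
      · intro R1 h1 R2 h2 he
        have n1 : 1 ∉ R1 := fun h => h1T ((mem_powersetCard.1 h1).1 h)
        have n2 : 1 ∉ R2 := fun h => h1T ((mem_powersetCard.1 h2).1 h)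
        rw [← erase_insert n1, ← erase_insert n2, he]
      · rw [disjoint_left]
        intro S h1 h2
        obtain ⟨R, _, rfl⟩ := mem_image.1 h2
        exact h1T ((mem_powersetCard.1 h1).1 (mem_insert_self _ _))
    have hstep : ∀ R ∈ (Icc 2 a).powersetCard k, wt a b (insert 1 R)
        ≤ ((k : ℝ) + 2) ^ 2 * ∑ s ∈ Icc 2 a \ R, wt a b (insert s R) := by
      intro R hR
      rw [mem_powersetCard] at hR
      obtain ⟨r, h2r, hrk, hrR, hlow⟩ := exists_hole k a R hR.1 hR.2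
      have h1R : 1 ∉ R := fun h => h1T (hR.1 h)
      have hra : r ≤ a := by omega
      have h1 := w1_hole a b r R h2r hra hab hR.1 hrR hlow
      have hsubR : R ⊆ Icc 1 a := hR.1.trans (Icc_subset_Icc (by omega) le_rfl)
      have hwR : 0 < wt a b R := wt_pos hsubR
      have hpos : ∀ s ∈ Icc 2 a \ R, 0 ≤ wt a b (insert s R) := by
        intro s hs
        rw [mem_sdiff, mem_Icc] at hs
        apply (wt_pos _).le
        apply insert_subset _ hsubR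
        rw [mem_Icc]; omega
      have hsingle : wt a b (insert r R) ≤ ∑ s ∈ Icc 2 a \ R, wt a b (insert s R) := by
        apply single_le_sum hpos
        rw [mem_sdiff, mem_Icc]
        exact ⟨⟨h2r, hra⟩, hrR⟩
      have hr2 : (r : ℝ) ≤ k + 2 := by exact_mod_cast hrk
      have hwr : 0 < wt a b (insert r R) := by
        apply wt_pos
        apply insert_subset _ hsubR
        rw [mem_Icc]; omega
      calc wt a b (insert 1 R) = wt a b R * w1 a b R 1 := wt_insert a b R 1 h1R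
        _ ≤ wt a b R * ((r : ℝ) ^ 2 * w1 a b R r) := by gcongr
        _ = (r : ℝ) ^ 2 * wt a b (insert r R) := by rw [wt_insert a b R r hrR]; ring
        _ ≤ ((k : ℝ) + 2) ^ 2 * wt a b (insert r R) := by gcongr
        _ ≤ _ := by gcongr
    have hdc : ∑ R ∈ (Icc 2 a).powersetCard k, ∑ s ∈ Icc 2 a \ R, wt a b (insert s R)
        = ((k : ℝ) + 1) * U0 (k + 1) a b := by
      rw [← sum_powersetCard_erase (Icc 2 a) k (fun s R => wt a b (insert s R))]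
      unfold U0
      rw [mul_sum]
      apply sum_congr rfl
      intro S hS
      rw [mem_powersetCard] at hS
      rw [sum_congr rfl (g := fun _ => wt a b S)]
      · rw [sum_const, hS.2, nsmul_eq_mul]
        push_cast
        ring
      · intro s hs
        rw [insert_erase hs]
    rw [hsum]
    have hb : ∑ R ∈ (Icc 2 a).powersetCard k, wt a b (insert 1 R)
        ≤ ((k : ℝ) + 2) ^ 2 * (((k : ℝ) + 1) * U0 (k + 1) a b) := by
      rw [← hdc, mul_sum]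
      exact sum_le_sum hstep
    have hU := U0_nonneg (k + 1) a b
    have hk : (0 : ℝ) ≤ k := Nat.cast_nonneg _
    push_cast
    nlinarith [mul_nonneg hk hU, mul_nonneg (mul_nonneg hk hk) hU]

end Pool.Agent.Helper43.LB
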