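import Pool.Agent.Helper43.LB.UUf
import Pool.Agent.Helper43.LB.Diff

/-!
The quantitative form of one step.
-/

namespace Pool.Agent.Helper43.LB

open Finset

/-- statements of module I1 -/
structure Asym : Prop where
  zf : ∃ C : ℝ, ∀ m p : ℕ, 1 ≤ m → |Real.log (Zf m p) - Sf m p| ≤ C * m * Real.log (p + m + 1)
  kf : ∃ C : ℝ, ∀ k a b : ℕ, k ≤ a → a ≤ b →
    |Real.log (Kf k a b) - (Vf a b - Gf (2 * k) / 2 - Gf (2 * (k + (b - a))) / 2)|
      ≤ C * (b + 1) * Real.log (b + 2)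
  kt : ∃ C : ℝ, ∀ k j a b : ℕ, k ≤ a → a + j ≤ b →
    |Real.log (Kt k j a b) - (Vf (a + j) b - (Gf (2 * k + j) - Gf j) / 2
        - Gf (2 * (k + (b - a) - j)) / 2)|
      ≤ C * (b + 1) * Real.log (b + 2)
  b1 : ∃ C : ℝ, ∀ k w p : ℕ, 1 ≤ p →
    B1 (2 * k + 1 + w) w p (p + k) (p + k + w) - C * Real.log (p + k + w + 2)
      ≤ Real.log (Uf k (p + k) (p + k + w)) - Real.log (Uf k (p + k - 1) (p + k + w))
  b2 : ∃ C : ℝ, ∀ k w p : ℕ, 1 ≤ k →
    B2 (2 * k + 1 + w) w p (p + k) (p + k + w) - C * Real.log (p + k + w + 2)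
      ≤ Real.log (Uf k (p + k) (p + k + w)) - Real.log (Uf (k - 1) (p + k) (p + k + w))
        - 2 * Real.log (ip (Ioc (p + k) (p + k + w)))
  b3 : ∃ C : ℝ, ∀ k w p : ℕ,
    Real.log (Uf k (p + k) (p + k + w + 1)) - Real.log (Uf k (p + k) (p + k + w))
      ≤ B3 (2 * k + 1 + w) w p (p + k) (p + k + w) + C * Real.log (p + k + w + 2)

theorem log_Uf (k a b : ℕ) : Real.log (Uf k a b)
    = Real.log (Zf (2 * k + 1 + (b - a)) (a - k)) - Real.log (Kf k a b) := by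
  unfold Uf
  rw [Real.log_div (Zf_pos _ _).ne' (Kf_pos _ _ _).ne']

theorem main_ineq (hob : OneBody) (hNE : NETail) (hA : Asym) :
    ∃ C : ℝ, ∀ k w j p : ℕ, 1 ≤ k → 1 ≤ j → j ≤ w → 1 ≤ p →
      Dd k w j p - C * ((p + k + w + 1) * Real.log (p + k + w + 2))
        ≤ 2 * Real.log (Tf k w j p) - Real.log (Zf (2 * k + 1 + w - j) (p + j)) := by
  obtain ⟨C1, h1⟩ := hA.zf
  obtain ⟨C2, h2⟩ := hA.kf
  obtain ⟨C3, h3⟩ := hA.kt
  obtain ⟨C4, h4⟩ := hA.b1
  obtain ⟨C5, h5⟩ := hA.b2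
  obtain ⟨C6, h6⟩ := hA.b3
  obtain ⟨D, D0, d1, d2, d3, d4, d5, d6⟩ : ∃ D : ℝ, 0 ≤ D ∧ C1 ≤ D ∧ C2 ≤ D ∧ C3 ≤ D ∧ C4 ≤ D
      ∧ C5 ≤ D ∧ C6 ≤ D :=
    ⟨max 0 (max C1 (max C2 (max C3 (max C4 (max C5 C6))))), by simp, by simp, by simp, by simp,
      by simp, by simp, by simp⟩
  refine ⟨30 * D + 26 + 500, ?_⟩
  intro k w j p hk hj hjw hp
  have T := tail_lower hob k w j p hk hj hjw hp
  rw [U_eq_Uf hNE k (p + k) (p + k + w) (by omega) (by omega),
    U_eq_Uf hNE k (p + k - 1) (p + k + w) (by omega) (by omega),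
    U_eq_Uf hNE k (p + k) (p + k + w + 1) (by omega) (by omega),
    U_eq_Uf hNE (k - 1) (p + k) (p + k + w) (by omega) (by omega)] at T
  have a1 := h1 (2 * k + 1 + w) p (by omega)
  have a1' := h1 (2 * k + 1 + w - j) (p + j) (by omega)
  have a2 := h2 k (p + k) (p + k + w) (by omega) (by omega)
  have a3 := h3 k j (p + k) (p + k + w) (by omega) (by omega)
  have a4 := h4 k w p hp
  have a5 := h5 k w p hk
  have a6 := h6 k w p
  have a7 := log_Uf k (p + k) (p + k + w)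
  have e1 : p + k + w - (p + k) = w := by omega
  have e2 : p + k - k = p := by omega
  rw [e1, e2] at a7
  have e3 : ((2 * k + 1 + w - j : ℕ) : ℝ) = 2 * k + 1 + w - j := by
    rw [Nat.cast_sub (by omega)]; push_cast; ring
  rw [e3] at a1'
  push_cast at a1 a1' a2 a3
  set b : ℝ := (p : ℝ) + k + w with hb
  have hk' : (1 : ℝ) ≤ k := by exact_mod_cast hk
  have hj' : (1 : ℝ) ≤ j := by exact_mod_cast hj
  have hp' : (1 : ℝ) ≤ p := by exact_mod_cast hp
  have hjw' : (j : ℝ) ≤ w := by exact_mod_cast hjw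
  have hb3 : 3 ≤ b := by linarith
  have hL := one_le_log hb3
  set L := Real.log (b + 2) with hLdef
  -- error terms
  have er1 : C1 * (2 * (k : ℝ) + 1 + w) * Real.log ((p : ℝ) + (2 * k + 1 + w) + 1)
      ≤ 4 * D * ((b + 1) * L) := by
    have l1 : Real.log ((p : ℝ) + (2 * k + 1 + w) + 1) ≤ 2 * L := by
      have : 2 * L = Real.log ((b + 2) ^ 2) := by rw [Real.log_pow]; push_cast; ring
      rw [this]
      apply Real.log_le_log (by linarith)
      nlinarith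
    have l0 : 0 ≤ Real.log ((p : ℝ) + (2 * k + 1 + w) + 1) := Real.log_nonneg (by linarith)
    calc C1 * (2 * (k : ℝ) + 1 + w) * Real.log ((p : ℝ) + (2 * k + 1 + w) + 1)
        ≤ D * (2 * (k : ℝ) + 1 + w) * Real.log ((p : ℝ) + (2 * k + 1 + w) + 1) := by gcongr
      _ ≤ D * (2 * (b + 1)) * (2 * L) := by gcongr; linarith
      _ = _ := by ring
  have er1' : C1 * (2 * (k : ℝ) + 1 + w - j) * Real.log ((p : ℝ) + j + (2 * k + 1 + w - j) + 1)
      ≤ 4 * D * ((b + 1) * L) := by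
    have l1 : Real.log ((p : ℝ) + j + (2 * k + 1 + w - j) + 1) ≤ 2 * L := by
      have : 2 * L = Real.log ((b + 2) ^ 2) := by rw [Real.log_pow]; push_cast; ring
      rw [this]
      apply Real.log_le_log (by linarith)
      nlinarith
    have l0 : 0 ≤ Real.log ((p : ℝ) + j + (2 * k + 1 + w - j) + 1) := Real.log_nonneg (by linarith)
    have l2 : 0 ≤ 2 * (k : ℝ) + 1 + w - j := by linarith
    calc C1 * (2 * (k : ℝ) + 1 + w - j) * Real.log ((p : ℝ) + j + (2 * k + 1 + w - j) + 1)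
        ≤ D * (2 * (k : ℝ) + 1 + w - j) * Real.log ((p : ℝ) + j + (2 * k + 1 + w - j) + 1) := by
          gcongr
      _ ≤ D * (2 * (b + 1)) * (2 * L) := by gcongr; linarith
      _ = _ := by ring
  have er2 : C2 * (b + 1) * L ≤ D * ((b + 1) * L) := by
    rw [← mul_assoc]; gcongr
  have er3 : C3 * (b + 1) * L ≤ D * ((b + 1) * L) := by
    rw [← mul_assoc]; gcongr
  have er4 : C4 * L ≤ D * L := by gcongr
  have er5 : C5 * L ≤ D * L := by gcongr
  have er6 : C6 * L ≤ D * L := by gcongr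
  have a1u := abs_le.1 a1
  have a1u' := abs_le.1 a1'
  have a2u := abs_le.1 a2
  have a3u := abs_le.1 a3
  have G := Dm_ge (k := k) (w := w) (j := j) (p := p) (b := b) (by linarith) (by linarith) hjw'
    (by linarith) rfl hb3
  unfold Dm at G
  rw [← hb, ← hLdef] at G
  have ebw : b - ((p : ℝ) + k) = w := by rw [hb]; ring
  rw [ebw] at a2u a3u
  have hcB : cB = 7 / 50 := rfl
  have hcoef0 : 0 ≤ 1 - cB * w / (2 * b) := by
    have : cB * w / (2 * b) ≤ 1 := by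
      rw [div_le_one (by linarith), hcB]; linarith
    linarith
  have hcoef1 : 1 - cB * w / (2 * b) ≤ 1 := by
    have : 0 ≤ cB * w / (2 * b) := by rw [hcB]; positivity
    linarith
  set co := 1 - cB * w / (2 * b) with hco
  set x1 := B1 (2 * (k : ℝ) + 1 + w) w p (p + k) b
  set x2 := B2 (2 * (k : ℝ) + 1 + w) w p (p + k) b
  set x3 := B3 (2 * (k : ℝ) + 1 + w) w p (p + k) b
  set u := Real.log (Uf k (p + k) (p + k + w))
  set u1 := Real.log (Uf k (p + k - 1) (p + k + w))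
  set u2 := Real.log (Uf (k - 1) (p + k) (p + k + w))
  set u3 := Real.log (Uf k (p + k) (p + k + w + 1))
  set ii := Real.log (ip (Ioc (p + k) (p + k + w)))
  have hjb : (j : ℝ) ≤ b + 1 := by linarith
  have v1 : (j : ℝ) * (x1 - D * L) ≤ j * (u - u1) :=
    mul_le_mul_of_nonneg_left (by linarith) (by linarith)
  have v3 : (j : ℝ) * (u3 - u) ≤ j * (x3 + D * L) :=
    mul_le_mul_of_nonneg_left (by linarith) (by linarith)
  have v2 : (j : ℝ) * co * (x2 - D * L) ≤ j * co * (u - u2 - 2 * ii) :=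
    mul_le_mul_of_nonneg_left (by linarith) (by positivity)
  have g1 : (j : ℝ) * (D * L) ≤ D * ((b + 1) * L) := by
    calc (j : ℝ) * (D * L) ≤ (b + 1) * (D * L) := by gcongr
      _ = _ := by ring
  have g2 : (j : ℝ) * co * (D * L) ≤ D * ((b + 1) * L) := by
    calc (j : ℝ) * co * (D * L) ≤ (b + 1) * 1 * (D * L) := by gcongr
      _ = _ := by ring
  have g3 : ((j : ℝ) + 1) * L ≤ (b + 1) * L := by gcongr; linarith
  have v0 : 0 ≤ (b + 1) * L := by positivity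
  have vD : 0 ≤ D * ((b + 1) * L) := by positivity
  have W : 2 * (j : ℝ) * (3 / 4 * x1 - 1 / 4 * x3 + co * (x2 / 4)) - 3 * (D * ((b + 1) * L))
      ≤ 2 * (j : ℝ) * (3 / 4 * (u - u1) - 1 / 4 * (u3 - u) + co * ((u - u2 - 2 * ii) / 4)) := by
    linarith
  obtain ⟨a1l, a1r⟩ := a1u
  obtain ⟨a1l', a1r'⟩ := a1u'
  obtain ⟨a2l, a2r⟩ := a2u
  obtain ⟨a3l, a3r⟩ := a3u
  clear_value co x1 x2 x3 u u1 u2 u3 ii L
  clear h1 h2 h3 h4 h5 h6 a1 a1' a2 a3 hA hNE hob hco hLdef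
  have T2 : 2 * Real.log (Kt k j (p + k) (p + k + w)) + 2 * u
      + 2 * (j : ℝ) * (3 / 4 * (u - u1) - 1 / 4 * (u3 - u) + co * ((u - u2 - 2 * ii) / 4))
      + 2 * (j : ℝ) * (w / (2 * b) * (cA * k + cB * k * Real.log b - cI * b))
      - 5 * (j : ℝ) ^ 2 * Real.log (1 + 2 * (p + k) / j) - 8 * (j : ℝ) ^ 2 * k / (p + k)
      - 26 * ((j + 1) * L) ≤ 2 * Real.log (Tf k w j p) := by
    have := mul_le_mul_of_nonneg_left T (by norm_num : (0 : ℝ) ≤ 2)
    refine le_trans (le_of_eq ?_) this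
    ring
  have G2 : Dd k w j p - 500 * ((b + 1) * L) ≤
      2 * (Vf (p + k + j) b - (Gf (2 * k + j) - Gf j) / 2 - Gf (2 * (k + w - j)) / 2)
      - 2 * (Vf (p + k) b - Gf (2 * k) / 2 - Gf (2 * (k + w)) / 2) + 2 * Sf (2 * k + 1 + w) p
      - Sf (2 * k + 1 + w - j) (p + j)
      + 2 * (j : ℝ) * (3 / 4 * x1 - 1 / 4 * x3 + co * (x2 / 4))
      + 2 * (j : ℝ) * (w / (2 * b) * (cA * k + cB * k * Real.log b - cI * b))
      - 5 * (j : ℝ) ^ 2 * Real.log (1 + 2 * (p + k) / j) - 8 * (j : ℝ) ^ 2 * k / (p + k) := by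
    refine le_trans G (le_of_eq ?_)
    ring
  generalize (5 * (j : ℝ) ^ 2 * Real.log (1 + 2 * (p + k) / j)) = r1 at T2 G2
  generalize (8 * (j : ℝ) ^ 2 * k / (p + k)) = r2 at T2 G2
  generalize (2 * (j : ℝ) * (w / (2 * b) * (cA * k + cB * k * Real.log b - cI * b))) = r3 at T2 G2
  generalize (2 * (j : ℝ) * (3 / 4 * x1 - 1 / 4 * x3 + co * (x2 / 4))) = r4 at W G2
  generalize (2 * (j : ℝ) * (3 / 4 * (u - u1) - 1 / 4 * (u3 - u) + co * ((u - u2 - 2 * ii) / 4)))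
    = r5 at W T2
  have e30 : 2 * Real.log (Tf k w j p) - Real.log (Zf (2 * k + 1 + w - j) (p + j))
      ≥ Dd k w j p - (19 * D + 26 + 500) * ((b + 1) * L) := by
    linarith
  have e31 : (19 * D + 26 + 500) * ((b + 1) * L) ≤ (30 * D + 26 + 500) * ((b + 1) * L) := by
    gcongr; norm_num
  linarith

end Pool.Agent.Helper43.LB
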