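import Pool.Agent.Helper43.LB.Hole

/-!
Jensen bounds for the ensemble.
-/

namespace Pool.Agent.Helper43.LB

open Finset

theorem jensen_log (P : Finset (Finset ℕ)) (w g : Finset ℕ → ℝ) (hw : ∀ S ∈ P, 0 < w S)
    (hg : ∀ S ∈ P, 0 < g S) (hne : P.Nonempty) :
    (∑ S ∈ P, w S * Real.log (g S)) / (∑ S ∈ P, w S)
      ≤ Real.log ((∑ S ∈ P, w S * g S) / ∑ S ∈ P, w S) := by
  have hW : 0 < ∑ S ∈ P, w S := sum_pos hw hne
  have h := strictConcaveOn_log_Ioi.concaveOn.le_map_sum (t := P)
    (w := fun S => w S / ∑ S ∈ P, w S) (p := g) (fun S hS => (div_pos (hw S hS) hW).le)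
    (by rw [← sum_div]; exact div_self hW.ne') (fun S hS => Set.mem_Ioi.2 (hg S hS))
  simp only [smul_eq_mul] at h
  calc _ = ∑ S ∈ P, w S / (∑ S ∈ P, w S) * Real.log (g S) := by
        rw [sum_div]
        apply sum_congr rfl
        intro S _
        ring
    _ ≤ _ := h
    _ = _ := by
        congr 1
        rw [sum_div]
        apply sum_congr rfl
        intro S _
        ring

theorem mem_P {k a : ℕ} {S : Finset ℕ} (hS : S ∈ (Icc 2 a).powersetCard k) :
    S ⊆ Icc 2 a ∧ S ⊆ Icc 1 a ∧ S.card = k := by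
  rw [mem_powersetCard] at hS
  exact ⟨hS.1, hS.1.trans (Icc_subset_Icc (by omega) le_rfl), hS.2⟩

theorem P_nonempty {k a : ℕ} (h : k < a) : ((Icc 2 a).powersetCard k).Nonempty := by
  rw [powersetCard_nonempty, Nat.card_Icc]
  omega

theorem U0_pos {k a : ℕ} (b : ℕ) (h : k < a) : 0 < U0 k a b :=
  sum_pos (fun _ hS => wt_pos (mem_P hS).2.1) (P_nonempty h)

theorem U_pos {k a : ℕ} (b : ℕ) (h : k ≤ a) : 0 < U k a b := by
  apply sum_pos
  · intro S hS
    exact wt_pos (mem_powersetCard.1 hS).1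
  · rw [powersetCard_nonempty, Nat.card_Icc]
    omega

theorem U0_le (k a b : ℕ) : U0 k a b ≤ U k a b := by
  apply sum_le_sum_of_subset_of_nonneg
  · exact powersetCard_mono (Icc_subset_Icc (by omega) le_rfl)
  · intro S hS _
    exact (wt_pos (mem_powersetCard.1 hS).1).le

theorem log_U0_ge {k a b : ℕ} (hka : k < a) (hab : a ≤ b) :
    Real.log (U k a b) - 3 * Real.log (k + 1) ≤ Real.log (U0 k a b) := by
  have h := U_le k a b hka hab
  have h0 := U0_pos b hka
  have h1 := U_pos b hka.le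
  have hk : (0 : ℝ) < k + 1 := by positivity
  have := Real.log_le_log h1 h
  rw [Real.log_mul (by positivity) h0.ne', Real.log_pow] at this
  push_cast at this
  linarith

theorem E0_mono {k a b : ℕ} (hka : k < a) (f g : Finset ℕ → ℝ)
    (h : ∀ S ∈ (Icc 2 a).powersetCard k, f S ≤ g S) : E0 k a b f ≤ E0 k a b g := by
  unfold E0
  apply div_le_div_of_nonneg_right _ (U0_pos b hka).le
  apply sum_le_sum
  intro S hS
  exact mul_le_mul_of_nonneg_left (h S hS) (wt_pos (mem_P hS).2.1).le

theorem E0_add (k a b : ℕ) (f g : Finset ℕ → ℝ) :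
    E0 k a b (fun S => f S + g S) = E0 k a b f + E0 k a b g := by
  unfold E0
  rw [← add_div, ← sum_add_distrib]
  congr 1
  apply sum_congr rfl
  intro S _
  ring

theorem E0_smul (k a b : ℕ) (c : ℝ) (f : Finset ℕ → ℝ) :
    E0 k a b (fun S => c * f S) = c * E0 k a b f := by
  unfold E0
  rw [mul_div_assoc', mul_sum]
  congr 1
  apply sum_congr rfl
  intro S _
  ring

theorem E0_const {k a : ℕ} (b : ℕ) (hka : k < a) (c : ℝ) : E0 k a b (fun _ => c) = c := by
  unfold E0
  rw [← sum_mul]
  exact mul_div_cancel_left₀ c (U0_pos b hka).ne'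

theorem E0_jensen {k a b : ℕ} (hka : k < a) (g : Finset ℕ → ℝ)
    (hg : ∀ S ∈ (Icc 2 a).powersetCard k, 0 < g S) :
    E0 k a b (fun S => Real.log (g S))
      ≤ Real.log (∑ S ∈ (Icc 2 a).powersetCard k, wt a b S * g S) - Real.log (U0 k a b) := by
  have h := jensen_log _ (wt a b) g (fun S hS => wt_pos (mem_P hS).2.1) hg (P_nonempty hka)
  rw [Real.log_div] at h
  · exact h
  · apply ne_of_gt
    apply sum_pos _ (P_nonempty hka)
    intro S hS
    exact mul_pos (wt_pos (mem_P hS).2.1) (hg S hS)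
  · exact (U0_pos b hka).ne'

/-! ### shift by one -/

theorem sum_shift (k a : ℕ) (g : Finset ℕ → ℝ) :
    ∑ S ∈ (Icc 2 a).powersetCard k, g (S.image (· - 1))
      = ∑ S ∈ (Icc 1 (a - 1)).powersetCard k, g S := by
  refine sum_bij' (fun S _ => S.image (· - 1)) (fun S _ => S.image (· + 1)) ?_ ?_ ?_ ?_ ?_
  · intro S hS
    rw [mem_powersetCard] at hS ⊢
    refine ⟨?_, ?_⟩
    · intro t ht
      obtain ⟨s, hs, rfl⟩ := mem_image.1 ht
      have := mem_Icc.1 (hS.1 hs)
      rw [mem_Icc]
      omega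
    · rw [card_image_of_injOn, hS.2]
      intro x hx y hy hxy
      have h1 := mem_Icc.1 (hS.1 hx)
      have h2 := mem_Icc.1 (hS.1 hy)
      simp only at hxy
      omega
  · intro S hS
    rw [mem_powersetCard] at hS ⊢
    refine ⟨?_, ?_⟩
    · intro t ht
      obtain ⟨s, hs, rfl⟩ := mem_image.1 ht
      have := mem_Icc.1 (hS.1 hs)
      rw [mem_Icc]
      omega
    · rw [card_image_of_injective, hS.2]
      exact add_left_injective 1
  · intro S hS
    rw [mem_powersetCard] at hS
    rw [image_image]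
    ext t
    simp only [mem_image, Function.comp]
    constructor
    · rintro ⟨s, hs, rfl⟩
      have := mem_Icc.1 (hS.1 hs)
      rwa [Nat.sub_add_cancel (by omega)]
    · intro ht
      have := mem_Icc.1 (hS.1 ht)
      exact ⟨t, ht, by omega⟩
  · intro S _
    rw [image_image]
    ext t
    simp [Function.comp]
  · intro S _
    rfl

/-- first Jensen bound: the pair statistic -/
theorem jen1 {k a b : ℕ} (hka : k < a) :
    Real.log (U0 k a b) - Real.log (U k (a - 1) b)
      ≤ E0 k a b (fun S => Real.log (wt a b S) - Real.log (wt (a - 1) b (S.image (· - 1)))) := by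
  have hpos : ∀ S ∈ (Icc 2 a).powersetCard k, 0 < wt (a - 1) b (S.image (· - 1)) := by
    intro S hS
    apply wt_pos
    intro t ht
    obtain ⟨s, hs, rfl⟩ := mem_image.1 ht
    have := mem_Icc.1 ((mem_P hS).1 hs)
    rw [mem_Icc]
    omega
  have h := E0_jensen (b := b) hka (fun S => wt (a - 1) b (S.image (· - 1)) / wt a b S)
    (fun S hS => div_pos (hpos S hS) (wt_pos (mem_P hS).2.1))
  have e1 : ∑ S ∈ (Icc 2 a).powersetCard k, wt a b S * (wt (a - 1) b (S.image (· - 1)) / wt a b S)
      = U k (a - 1) b := by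
    unfold U
    rw [← sum_shift k a (wt (a - 1) b)]
    apply sum_congr rfl
    intro S hS
    have := (wt_pos (b := b) (mem_P hS).2.1).ne'
    field_simp
  rw [e1] at h
  have e2 : E0 k a b (fun S => Real.log (wt (a - 1) b (S.image (· - 1)) / wt a b S))
      = - E0 k a b (fun S => Real.log (wt a b S) - Real.log (wt (a - 1) b (S.image (· - 1)))) := by
    have : E0 k a b (fun S => (-1) * (Real.log (wt a b S)
        - Real.log (wt (a - 1) b (S.image (· - 1)))))
        = - E0 k a b (fun S => Real.log (wt a b S) - Real.log (wt (a - 1) b (S.image (· - 1)))) := by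
      rw [E0_smul]; ring
    rw [← this]
    unfold E0
    congr 1
    apply sum_congr rfl
    intro S hS
    beta_reduce
    rw [Real.log_div (hpos S hS).ne' (wt_pos (mem_P hS).2.1).ne']
    ring
  rw [e2] at h
  linarith

/-- third Jensen bound -/
theorem jen3 {k a b : ℕ} (hka : k < a) (hab : a ≤ b) :
    E0 k a b (fun S => Real.log (∏ s ∈ S, (((b : ℝ) + 1) ^ 2 - (s : ℝ) ^ 2)))
      ≤ Real.log (U k a (b + 1)) - Real.log (U0 k a b) := by
  have hpos : ∀ S ∈ (Icc 2 a).powersetCard k, 0 < ∏ s ∈ S, (((b : ℝ) + 1) ^ 2 - (s : ℝ) ^ 2) := by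
    intro S hS
    apply prod_pos
    intro s hs
    have h1 := (mem_Icc.1 ((mem_P hS).1 hs)).2
    have := sq_sub_pos (s := s) (t := b + 1) (by omega)
    push_cast at this
    exact this
  refine (E0_jensen hka _ hpos).trans ?_
  have e1 : ∑ S ∈ (Icc 2 a).powersetCard k, wt a b S * ∏ s ∈ S, (((b : ℝ) + 1) ^ 2 - (s : ℝ) ^ 2)
      = U0 k a (b + 1) := by
    unfold U0
    apply sum_congr rfl
    intro S _
    unfold wt
    rw [mul_assoc, ← prod_mul_distrib]
    congr 1
    apply prod_congr rfl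
    intro s _
    rw [prod_Ioc_succ_top hab]
    push_cast
    rfl
  rw [e1]
  have := Real.log_le_log (U0_pos (b + 1) hka) (U0_le k a (b + 1))
  linarith

theorem sum_inv_sq (a : ℕ) : ∑ s ∈ Icc 2 a, ((s : ℝ) ^ 2)⁻¹ ≤ 1 := by
  rcases Nat.lt_or_ge a 2 with h | h
  · rw [Icc_eq_empty (by omega)]
    simp
  · have key : ∀ n : ℕ, 1 ≤ n → ∑ s ∈ Icc 2 n, ((s : ℝ) ^ 2)⁻¹ ≤ 1 - 1 / n := by
      intro n hn
      induction n, hn using Nat.le_induction with
      | base => simp
      | succ n hn ih =>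
        rw [sum_Icc_succ_top (by omega)]
        have hn0 : (0 : ℝ) < n := by exact_mod_cast hn
        have e : (((n + 1 : ℕ) : ℝ) ^ 2)⁻¹ ≤ 1 / (n : ℝ) - 1 / ((n + 1 : ℕ) : ℝ) := by
          push_cast
          rw [div_sub_div _ _ hn0.ne' (by positivity), inv_eq_one_div,
            div_le_div_iff₀ (by positivity) (by positivity)]
          nlinarith
        linarith
    have := key a (by omega)
    have h2 : (0 : ℝ) ≤ 1 / a := by positivity
    linarith

/-- second Jensen bound: `E ∏ s⁻⁴` by deleting the smallest particle -/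
theorem sum_inv_four {k a b : ℕ} :
    ∑ S ∈ (Icc 2 a).powersetCard (k + 1), wt a b S * (ip S ^ 4)⁻¹
      ≤ ip (Ioc a b) ^ 2 * U k a b := by
  classical
  set C := ip (Ioc a b) ^ 2 with hC
  have hC0 : 0 < C := by
    have := ip_pos (S := Ioc a b) (fun s hs => by have := (mem_Ioc.1 hs).1; omega)
    positivity
  set g : ℕ → Finset ℕ → ℝ := fun s R =>
    if ∀ t ∈ R, s < t then ((s : ℝ) ^ 2)⁻¹ * (wt a b R * C) else 0 with hg
  have hg0 : ∀ s R, R ⊆ Icc 2 a → 0 ≤ g s R := by
    intro s R hR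
    simp only [hg]
    split_ifs
    · have := wt_pos (b := b) (hR.trans (Icc_subset_Icc (by omega) le_rfl) : R ⊆ Icc 1 a)
      positivity
    · exact le_rfl
  have h1 : ∀ S ∈ (Icc 2 a).powersetCard (k + 1), wt a b S * (ip S ^ 4)⁻¹
      ≤ ∑ s ∈ S, g s (S.erase s) := by
    intro S hS
    obtain ⟨h2, h3, h4⟩ := mem_P hS
    have hne : S.Nonempty := by rw [← card_pos, h4]; omega
    set s := S.min' hne with hs
    have hsS : s ∈ S := S.min'_mem hne
    have hlt : ∀ t ∈ S.erase s, s < t := by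
      intro t ht
      rw [mem_erase] at ht
      exact lt_of_le_of_ne (S.min'_le t ht.2) (Ne.symm ht.1)
    have hnn : ∀ x ∈ S, 0 ≤ g x (S.erase x) := fun x _ => hg0 x _ ((erase_subset _ _).trans h2)
    refine le_trans ?_ (single_le_sum hnn hsS)
    simp only [hg]
    rw [if_pos hlt]
    have hs2 : 2 ≤ s := (mem_Icc.1 (h2 hsS)).1
    have hsa : s ≤ a := (mem_Icc.1 (h2 hsS)).2
    have hs0 : (0 : ℝ) < s := by exact_mod_cast (by omega : 0 < s)
    have e1 : wt a b S = wt a b (S.erase s) * w1 a b (S.erase s) s := by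
      rw [← wt_insert _ _ _ _ (notMem_erase s S), insert_erase hsS]
    have e2 : ip S = s * ip (S.erase s) := by
      unfold ip
      rw [← mul_prod_erase S (fun x => (x : ℝ)) hsS]
    have hwR : 0 < wt a b (S.erase s) := wt_pos ((erase_subset _ _).trans h3)
    have hipR : 0 < ip (S.erase s) := ip_pos fun t ht => by
      have := (mem_Icc.1 (h3 (mem_of_mem_erase ht))).1
      exact this
    -- bound of the one-particle factor
    have hw : w1 a b (S.erase s) s ≤ (s : ℝ) ^ 2 * ip (S.erase s) ^ 4 * C := by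
      unfold w1
      have f1 : ∏ t ∈ S.erase s, ((t : ℝ) ^ 2 - (s : ℝ) ^ 2) ^ 2 ≤ ip (S.erase s) ^ 4 := by
        unfold ip
        rw [← prod_pow]
        apply prod_le_prod
        · intro t _; positivity
        · intro t ht
          have := sq_sub_pos (hlt t ht)
          have h5 : (t : ℝ) ^ 2 - (s : ℝ) ^ 2 ≤ (t : ℝ) ^ 2 := by nlinarith
          calc ((t : ℝ) ^ 2 - (s : ℝ) ^ 2) ^ 2 ≤ ((t : ℝ) ^ 2) ^ 2 := by
                apply pow_le_pow_left₀ this.le h5
            _ = (t : ℝ) ^ 4 := by ring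
      have f2 : ∏ Y ∈ Ioc a b, ((Y : ℝ) ^ 2 - (s : ℝ) ^ 2) ≤ C := by
        rw [hC]
        unfold ip
        rw [← prod_pow]
        apply prod_le_prod
        · intro Y hY
          have := (mem_Ioc.1 hY).1
          exact (sq_sub_pos (by omega)).le
        · intro Y _
          nlinarith
      have f3 : 0 ≤ ∏ Y ∈ Ioc a b, ((Y : ℝ) ^ 2 - (s : ℝ) ^ 2) := by
        apply prod_nonneg
        intro Y hY
        have := (mem_Ioc.1 hY).1
        exact (sq_sub_pos (by omega)).le
      gcongr
    rw [e1, e2, mul_pow, mul_inv]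
    calc wt a b (S.erase s) * w1 a b (S.erase s) s * (((s : ℝ) ^ 4)⁻¹ * (ip (S.erase s) ^ 4)⁻¹)
        ≤ wt a b (S.erase s) * ((s : ℝ) ^ 2 * ip (S.erase s) ^ 4 * C)
          * (((s : ℝ) ^ 4)⁻¹ * (ip (S.erase s) ^ 4)⁻¹) := by gcongr
      _ = _ := by field_simp
  calc _ ≤ ∑ S ∈ (Icc 2 a).powersetCard (k + 1), ∑ s ∈ S, g s (S.erase s) := sum_le_sum h1
    _ = ∑ R ∈ (Icc 2 a).powersetCard k, ∑ s ∈ Icc 2 a \ R, g s R := sum_powersetCard_erase _ _ _
    _ ≤ ∑ R ∈ (Icc 2 a).powersetCard k, wt a b R * C := by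
        apply sum_le_sum
        intro R hR
        obtain ⟨h2, h3, h4⟩ := mem_P hR
        have hwR : 0 < wt a b R := wt_pos h3
        calc ∑ s ∈ Icc 2 a \ R, g s R ≤ ∑ s ∈ Icc 2 a, g s R := by
              apply sum_le_sum_of_subset_of_nonneg sdiff_subset
              intro s _ _
              exact hg0 s R h2
          _ ≤ ∑ s ∈ Icc 2 a, ((s : ℝ) ^ 2)⁻¹ * (wt a b R * C) := by
              apply sum_le_sum
              intro s _
              simp only [hg]
              split_ifs
              · exact le_rfl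
              · positivity
          _ = (∑ s ∈ Icc 2 a, ((s : ℝ) ^ 2)⁻¹) * (wt a b R * C) := by rw [sum_mul]
          _ ≤ 1 * (wt a b R * C) := by
              gcongr
              exact sum_inv_sq a
          _ = _ := one_mul _
    _ = C * U0 k a b := by
        unfold U0
        rw [mul_sum]
        apply sum_congr rfl
        intro R _
        ring
    _ ≤ C * U k a b := by
        gcongr
        exact U0_le k a b

theorem jen2 {k a b : ℕ} (hka : k + 1 < a) :
    (Real.log (U0 (k + 1) a b) - Real.log (U k a b) - 2 * Real.log (ip (Ioc a b))) / 4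
      ≤ E0 (k + 1) a b (fun S => ∑ s ∈ S, Real.log s) := by
  have hpos : ∀ S ∈ (Icc 2 a).powersetCard (k + 1), 0 < ip S := by
    intro S hS
    exact ip_pos fun t ht => (mem_Icc.1 ((mem_P hS).2.1 ht)).1
  have h := E0_jensen (b := b) hka (fun S => (ip S ^ 4)⁻¹)
    (fun S hS => by have := hpos S hS; positivity)
  have hC0 : 0 < ip (Ioc a b) := ip_pos (S := Ioc a b) (fun s hs => by
    have := (mem_Ioc.1 hs).1; omega)
  have hsum : 0 < ∑ S ∈ (Icc 2 a).powersetCard (k + 1), wt a b S * (ip S ^ 4)⁻¹ := by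
    apply sum_pos _ (P_nonempty hka)
    intro S hS
    have := hpos S hS
    have := wt_pos (b := b) (mem_P hS).2.1
    positivity
  have hU : 0 < U k a b := U_pos b (by omega)
  have h2 := Real.log_le_log hsum (sum_inv_four (k := k) (a := a) (b := b))
  rw [Real.log_mul (by positivity) hU.ne', Real.log_pow] at h2
  have e : E0 (k + 1) a b (fun S => Real.log ((ip S ^ 4)⁻¹))
      = -4 * E0 (k + 1) a b (fun S => ∑ s ∈ S, Real.log s) := by
    rw [← E0_smul]
    unfold E0
    congr 1
    apply sum_congr rfl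
    intro S hS
    beta_reduce
    rw [Real.log_inv, Real.log_pow]
    have : Real.log (ip S) = ∑ s ∈ S, Real.log s := by
      unfold ip
      rw [Real.log_prod]
      intro s hs
      have := (mem_Icc.1 ((mem_P hS).1 hs)).1
      have : (s : ℝ) ≠ 0 := by
        have : s ≠ 0 := by omega
        exact_mod_cast this
      exact this
    rw [this]
    push_cast
    ring
  rw [e] at h
  push_cast at h2
  linarith

end Pool.Agent.Helper43.LB
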