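import Pool.Agent.Helper30.LB.Opt

/-!
The layered optimum to ten digits.
-/

namespace Pool.Agent.Helper43.LB

open Real Set

/-- the four relations between `log 2`, `log 3`, `log 5`, `log 7` -/
theorem prime_rel :
    (2 * (1 / 251 + (1 / 251) ^ 3 / 3 + (1 / 251) ^ 5 / 5) ≤ log 2 + 2 * log 3 + log 7 - 3 * log 5 ∧
      log 2 + 2 * log 3 + log 7 - 3 * log 5 ≤ 2 * (1 / 251 + (1 / 251) ^ 3 / 3 + (1 / 251) ^ 5 / 5
        + (1 / 251) ^ 7 / (1 - (1 / 251) ^ 2))) ∧
    (2 * (1 / 449 + (1 / 449) ^ 3 / 3 + (1 / 449) ^ 5 / 5)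
        ≤ 2 * log 3 + 2 * log 5 - 5 * log 2 - log 7 ∧
      2 * log 3 + 2 * log 5 - 5 * log 2 - log 7 ≤ 2 * (1 / 449 + (1 / 449) ^ 3 / 3
        + (1 / 449) ^ 5 / 5 + (1 / 449) ^ 7 / (1 - (1 / 449) ^ 2))) ∧
    (2 * (1 / 4801 + (1 / 4801) ^ 3 / 3 + (1 / 4801) ^ 5 / 5)
        ≤ 4 * log 7 - 5 * log 2 - log 3 - 2 * log 5 ∧
      4 * log 7 - 5 * log 2 - log 3 - 2 * log 5 ≤ 2 * (1 / 4801 + (1 / 4801) ^ 3 / 3
        + (1 / 4801) ^ 5 / 5 + (1 / 4801) ^ 7 / (1 - (1 / 4801) ^ 2))) ∧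
    (2 * (1 / 8749 + (1 / 8749) ^ 3 / 3 + (1 / 8749) ^ 5 / 5)
        ≤ 4 * log 5 + log 7 - log 2 - 7 * log 3 ∧
      4 * log 5 + log 7 - log 2 - 7 * log 3 ≤ 2 * (1 / 8749 + (1 / 8749) ^ 3 / 3
        + (1 / 8749) ^ 5 / 5 + (1 / 8749) ^ 7 / (1 - (1 / 8749) ^ 2))) := by
  have L1 := log_bounds (x := 1 / 251) (by norm_num) (by norm_num)
  have L2 := log_bounds (x := 1 / 449) (by norm_num) (by norm_num)
  have L3 := log_bounds (x := 1 / 4801) (by norm_num) (by norm_num)
  have L4 := log_bounds (x := 1 / 8749) (by norm_num) (by norm_num)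
  have e1 : log ((1 + 1 / 251) / (1 - 1 / 251)) = log 2 + 2 * log 3 + log 7 - 3 * log 5 := by
    rw [show ((1 : ℝ) + 1 / 251) / (1 - 1 / 251) = 2 * 3 ^ 2 * 7 / 5 ^ 3 by norm_num,
      Real.log_div (by norm_num) (by norm_num), Real.log_mul (by norm_num) (by norm_num),
      Real.log_mul (by norm_num) (by norm_num), Real.log_pow, Real.log_pow]
    push_cast
    ring
  have e2 : log ((1 + 1 / 449) / (1 - 1 / 449)) = 2 * log 3 + 2 * log 5 - 5 * log 2 - log 7 := by
    rw [show ((1 : ℝ) + 1 / 449) / (1 - 1 / 449) = 3 ^ 2 * 5 ^ 2 / (2 ^ 5 * 7) by norm_num,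
      Real.log_div (by norm_num) (by norm_num), Real.log_mul (by norm_num) (by norm_num),
      Real.log_mul (by norm_num) (by norm_num), Real.log_pow, Real.log_pow, Real.log_pow]
    push_cast
    ring
  have e3 : log ((1 + 1 / 4801) / (1 - 1 / 4801)) = 4 * log 7 - 5 * log 2 - log 3 - 2 * log 5 := by
    rw [show ((1 : ℝ) + 1 / 4801) / (1 - 1 / 4801) = 7 ^ 4 / (2 ^ 5 * 3 * 5 ^ 2) by norm_num,
      Real.log_div (by norm_num) (by norm_num), Real.log_mul (by norm_num) (by norm_num),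
      Real.log_mul (by norm_num) (by norm_num), Real.log_pow, Real.log_pow, Real.log_pow]
    push_cast
    ring
  have e4 : log ((1 + 1 / 8749) / (1 - 1 / 8749)) = 4 * log 5 + log 7 - log 2 - 7 * log 3 := by
    rw [show ((1 : ℝ) + 1 / 8749) / (1 - 1 / 8749) = 5 ^ 4 * 7 / (2 * 3 ^ 7) by norm_num,
      Real.log_div (by norm_num) (by norm_num), Real.log_mul (by norm_num) (by norm_num),
      Real.log_mul (by norm_num) (by norm_num), Real.log_pow, Real.log_pow]
    push_cast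
    ring
  rw [e1] at L1
  rw [e2] at L2
  rw [e3] at L3
  rw [e4] at L4
  exact ⟨L1, L2, L3, L4⟩

theorem log_a (r v : ℝ) (h : v = 3 ^ 3 * 7 / 5 ^ 3 * r) (hr : 0 < r) :
    log v = 3 * log 3 + log 7 - 3 * log 5 + log r := by
  rw [h, Real.log_mul (by norm_num) hr.ne', Real.log_div (by norm_num) (by norm_num),
      Real.log_mul (by norm_num) (by norm_num), Real.log_pow, Real.log_pow]
  push_cast
  ring

theorem log_b (r v : ℝ) (h : v = 3 ^ 2 * 7 / 5 ^ 2 * r) (hr : 0 < r) :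
    log v = 2 * log 3 + log 7 - 2 * log 5 + log r := by
  rw [h, Real.log_mul (by norm_num) hr.ne', Real.log_div (by norm_num) (by norm_num),
      Real.log_mul (by norm_num) (by norm_num), Real.log_pow, Real.log_pow]
  push_cast
  ring

theorem log_c (r v : ℝ) (h : v = 3 ^ 2 * 7 ^ 2 / 5 ^ 3 * r) (hr : 0 < r) :
    log v = 2 * log 3 + 2 * log 7 - 3 * log 5 + log r := by
  rw [h, Real.log_mul (by norm_num) hr.ne', Real.log_div (by norm_num) (by norm_num),
      Real.log_mul (by norm_num) (by norm_num), Real.log_pow, Real.log_pow, Real.log_pow]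
  push_cast
  ring

theorem ph_gt' : 0.2932362762 * log 2 < ph 0.764234 := by
  obtain ⟨⟨a1, a2⟩, ⟨b1, b2⟩, ⟨c1, c2⟩, ⟨d1, d2⟩⟩ := prime_rel
  have L5 := log_bounds (x := 4117 / 760117) (by norm_num) (by norm_num)
  have L6 := log_bounds (x := 2117 / 1262117) (by norm_num) (by norm_num)
  have L7 := log_bounds (x := 13 / 196013) (by norm_num) (by norm_num)
  have g1 := log_a ((1 + 4117 / 760117) / (1 - 4117 / 760117)) (2 * 0.764234) (by norm_num)
    (by norm_num)
  have g2 := log_b ((1 + 2117 / 1262117) / (1 - 2117 / 1262117)) (2 * 0.764234 + 1) (by norm_num)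
    (by norm_num)
  have g3 := log_c ((1 + 13 / 196013) / (1 - 13 / 196013)) (2 * 0.764234 + 2) (by norm_num)
    (by norm_num)
  unfold ph
  rw [Sf_one, lt_div_iff₀ (by norm_num)]
  unfold sf
  rw [g1, g2, g3]
  generalize log ((1 + 4117 / 760117) / (1 - 4117 / 760117)) = z5 at L5 ⊢
  generalize log ((1 + 2117 / 1262117) / (1 - 2117 / 1262117)) = z6 at L6 ⊢
  generalize log ((1 + 13 / 196013) / (1 - 13 / 196013)) = z7 at L7 ⊢
  generalize log 2 = z2 at *
  generalize log 3 = z3 at *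
  generalize log 5 = z8 at *
  generalize log 7 = z9 at *
  obtain ⟨L5, L5'⟩ := L5
  obtain ⟨L6, L6'⟩ := L6
  obtain ⟨L7, L7'⟩ := L7
  norm_num at a1 a2 b1 b2 c1 c2 d1 d2 L5 L5' L6 L6' L7 L7' ⊢
  linarith

/-- the two coefficients of the tangent line at the approximate optimum -/
theorem tangent_bounds :
    Af (30569368099 / 20000000000) / 2 < 0.2932362763 * log 2 ∧
    sf (30569368099 / 20000000000)
      - Af (30569368099 / 20000000000) / 2 * (30569368099 / 20000000000)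
      < 0.2932362763 * log 2 := by
  obtain ⟨⟨a1, a2⟩, ⟨b1, b2⟩, ⟨c1, c2⟩, ⟨d1, d2⟩⟩ := prime_rel
  have L5 := log_bounds (x := 329368099 / 60809368099) (by norm_num) (by norm_num)
  have L6 := log_bounds (x := 56456033 / 33656456033) (by norm_num) (by norm_num)
  have L7 := log_bounds (x := 9368099 / 141129368099) (by norm_num) (by norm_num)
  have g1 := log_a ((1 + 329368099 / 60809368099) / (1 - 329368099 / 60809368099))
    (30569368099 / 20000000000) (by norm_num) (by norm_num)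
  have g2 := log_b ((1 + 56456033 / 33656456033) / (1 - 56456033 / 33656456033))
    (30569368099 / 20000000000 + 1) (by norm_num) (by norm_num)
  have g3 := log_c ((1 + 9368099 / 141129368099) / (1 - 9368099 / 141129368099))
    (30569368099 / 20000000000 + 2) (by norm_num) (by norm_num)
  unfold sf Af
  rw [g1, g2, g3]
  generalize log ((1 + 329368099 / 60809368099) / (1 - 329368099 / 60809368099)) = z5 at L5 ⊢
  generalize log ((1 + 56456033 / 33656456033) / (1 - 56456033 / 33656456033)) = z6 at L6 ⊢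
  generalize log ((1 + 9368099 / 141129368099) / (1 - 9368099 / 141129368099)) = z7 at L7 ⊢
  generalize log 2 = z2 at *
  generalize log 3 = z3 at *
  generalize log 5 = z8 at *
  generalize log 7 = z9 at *
  obtain ⟨L5, L5'⟩ := L5
  obtain ⟨L6, L6'⟩ := L6
  obtain ⟨L7, L7'⟩ := L7
  norm_num at a1 a2 b1 b2 c1 c2 d1 d2 L5 L5' L6 L6' L7 L7' ⊢
  constructor <;> linarith

theorem ph_lt' (Q : ℝ) (hQ : 0 ≤ Q) : ph Q < 0.2932362763 * log 2 := by
  obtain ⟨h1, h2⟩ := tangent_bounds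
  have h3 := sf_le_tangent (s := 30569368099 / 20000000000) (x := 2 * Q) (by norm_num)
    (by positivity)
  unfold ph
  rw [Sf_one, div_lt_iff₀ (by positivity)]
  generalize Af (30569368099 / 20000000000) / 2 = A at *
  generalize sf (30569368099 / 20000000000) = B at *
  generalize 0.2932362763 * log 2 = c at *
  nlinarith

end Pool.Agent.Helper43.LB
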