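import Pool.Agent.Helper43.LB.Alpha
import Pool.Agent.Helper3.LB.Gain
import Pool.Agent.Helper3.LB.OneBody
import Pool.Agent.Helper43.LB.Opt2
import Pool.Agent.Helper35.LB.Main
import Pool.Agent.Helper78.LB.Slices
import Pool.Agent.Helper78.LB.Scale
import Pool.Agent.Helper91.LB.Asy
import Pool.Agent.Helper94.LB.Layered

/-!
The growth rate of the maximal principal evaluation is strictly larger than the growth rate of
the maximum over the layered permutations.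
-/

namespace Pool.Agent.Helper43.LB

open Finset Filter Topology Pool.Agent.Helper78.Schub

theorem asym : Asym := ⟨Pool.Agent.Helper91.LB.log_Zf, Pool.Agent.Helper91.LB.log_Kf, Pool.Agent.Helper91.LB.log_Kt,
  Pool.Agent.Helper91.LB.beta1, Pool.Agent.Helper91.LB.beta2, Pool.Agent.Helper91.LB.beta3⟩

theorem Zf_zero (p : ℕ) : Zf 0 p = 1 := by
  unfold Zf
  rw [Ico_eq_empty (by omega)]
  simp [Lf, ip, vn, pp, od]

theorem eval_rev_eq (S : (n : ℕ) → Equiv.Perm (Fin n) → MvPolynomial (Fin n) ℤ)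
    (hS : ∀ n, IsSchubertFamily n (S n)) (p m : ℕ) :
    ((MvPolynomial.eval (fun _ => (1 : ℤ))
      (S (p + m) (glue 1 (Fin.revPerm : Equiv.Perm (Fin m)))) : ℤ) : ℝ) = Zf m p := by
  rw [eval_rev S hS p m]
  rcases Nat.eq_zero_or_pos m with rfl | hm
  · rw [Zf_zero]
    simp
  · have h1 := det_NE (p := p) m 0 (fun _ => 0) (fun i => by omega) (fun i => by omega)
      (fun i => le_rfl)
    have h2 := NE_max NE_tail m p 0 (by omega)
    have e : eMax m 0 = fun _ => 0 := by ext i; simp [eMax]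
    rw [e] at h2
    simp only [Nat.sub_zero, Nat.add_zero] at h1 h2
    rw [h1, ← h2]
    simp

theorem le_layEval' {n : ℕ} (S : Equiv.Perm (Fin n) → MvPolynomial (Fin n) ℤ)
    {w : Equiv.Perm (Fin n)} (hw : IsLayered w) :
    MvPolynomial.eval (fun _ => (1 : ℤ)) (S w) ≤ layEval n S := by
  classical
  unfold layEval
  exact Finset.le_sup' (fun w => MvPolynomial.eval (fun _ => (1 : ℤ)) (S w))
    (by simp [hw])

theorem tendsto_logb {f : ℕ → ℝ} {Λ : ℝ}
    (h : Tendsto (fun n : ℕ => Real.log (f n) / (n : ℝ) ^ 2) atTop (𝓝 Λ)) :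
    Tendsto (fun n : ℕ => Real.logb 2 (f n) / (n : ℝ) ^ 2) atTop (𝓝 (Λ / Real.log 2)) := by
  refine (h.div_const (Real.log 2)).congr fun n => ?_
  unfold Real.logb
  ring

theorem tendsto_log {f : ℕ → ℝ} {Λ : ℝ}
    (h : Tendsto (fun n : ℕ => Real.logb 2 (f n) / (n : ℝ) ^ 2) atTop (𝓝 Λ)) :
    Tendsto (fun n : ℕ => Real.log (f n) / (n : ℝ) ^ 2) atTop (𝓝 (Λ * Real.log 2)) := by
  have h2 : Real.log 2 ≠ 0 := (Real.log_pos (by norm_num)).ne'
  refine (h.mul_const (Real.log 2)).congr fun n => ?_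
  unfold Real.logb
  field_simp

theorem main_theorem :
    (∀ n : ℕ, ∃! S : Equiv.Perm (Fin n) → MvPolynomial (Fin n) ℤ, IsSchubertFamily n S) ∧
    ∃ α L δ : ℝ, ∃ N : ℕ, 0.2932362762 < L ∧ L < 0.2932362763 ∧ L < α ∧
      α ≤ 0.3555 ∧ 0 < δ ∧
      ∀ S : (n : ℕ) → Equiv.Perm (Fin n) → MvPolynomial (Fin n) ℤ,
        (∀ n, IsSchubertFamily n (S n)) →
        Tendsto (fun n : ℕ => Real.logb 2 (maxEval n (S n)) / (n : ℝ) ^ 2) atTop (𝓝 α) ∧
        Tendsto (fun n : ℕ => Real.logb 2 (layEval n (S n)) / (n : ℝ) ^ 2) atTop (𝓝 L) ∧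
        (∀ n ≥ N, ∀ w : Equiv.Perm (Fin n), IsLayered w →
          ((MvPolynomial.eval (fun _ => (1 : ℤ)) (S n w) : ℤ) : ℝ)
            ≤ (2 : ℝ) ^ (-(δ * (n : ℝ) ^ 2)) * maxEval n (S n)) ∧
        (∀ n : ℕ, Real.logb 2 (maxEval n (S n)) ≤ 0.3555 * (n : ℝ) ^ 2 + 104 * n + 76) := by
  obtain ⟨huniq, α, -, hα2, hlim⟩ := Pool.Agent.Helper78.Lim.limit_main
  refine ⟨huniq, ?_⟩
  choose S0 hS0 using fun n => (huniq n).exists
  have hall : ∀ S : (n : ℕ) → Equiv.Perm (Fin n) → MvPolynomial (Fin n) ℤ,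
      (∀ n, IsSchubertFamily n (S n)) → S = S0 := fun S hS =>
    funext fun n => (huniq n).unique (hS n) (hS0 n)
  obtain ⟨h1, -, h3⟩ := hlim S0 hS0
  obtain ⟨P, hP1, hP2, hP⟩ := exists_opt
  have hP0 : 0 < P := by linarith [hP1, (by norm_num : (0 : ℝ) < 0.76)]
  have hl2 : 0 < Real.log 2 := Real.log_pos (by norm_num)
  have hL := lay_main S0 hS0 (eval_rev_eq S0 hS0) asym.zf P hP0 hP
  have hL2 := tendsto_logb hL
  obtain ⟨κ, ω, ε, hκ, hε, hεω, hκω, hgain⟩ := exists_gain P hP1 hP2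
  have hge := alpha_ge one_body (fun k w j p h => NE_tail k w j p h) asym
    (fun κ ω ε P h1 h2 h3 h4 => Dd_scale κ ω ε P h1 h2 h3 h4) S0 hS0
    (fun p m η h1 h2 h3 => exists_perm_det S0 hS0 p m η h1 h2 h3) (tendsto_log h1)
    hκ hε hεω hP0 hκω
  have hlt : ph P / Real.log 2 < α := by
    rw [div_lt_iff₀ hl2]
    unfold ph
    rw [div_lt_iff₀ (by linarith)]
    linarith
  have hL0 : 0.2932362762 < ph P / Real.log 2 := by
    rw [lt_div_iff₀ hl2]
    exact ph_gt'.trans_le (hP _ (by norm_num))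
  have hL1 : ph P / Real.log 2 < 0.2932362763 := by
    rw [div_lt_iff₀ hl2]
    exact ph_lt' P hP0.le
  set L := ph P / Real.log 2 with hLdef
  set δ := (α - L) / 3 with hδ
  have hδ0 : 0 < δ := by rw [hδ]; linarith
  -- the comparison for large n
  have ev1 := h1.eventually (lt_mem_nhds (show α - δ < α by linarith))
  have ev2 := hL2.eventually (gt_mem_nhds (show L < L + δ by linarith))
  obtain ⟨N, hN⟩ := Filter.eventually_atTop.1 (ev1.and (ev2.and (eventually_ge_atTop 1)))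
  refine ⟨α, L, δ, N, hL0, hL1, hlt, hα2, hδ0, ?_⟩
  intro S hS
  obtain rfl := hall S hS
  refine ⟨h1, hL2, ?_, h3⟩
  intro n hn w hw
  obtain ⟨g1, g2, g3⟩ := hN n hn
  have hn0 : (0 : ℝ) < n := by exact_mod_cast g3
  have hn2 : (0 : ℝ) < (n : ℝ) ^ 2 := by positivity
  rw [lt_div_iff₀ hn2] at g1
  rw [div_lt_iff₀ hn2] at g2
  have m1 : (1 : ℝ) ≤ maxEval n (S n) := by
    exact_mod_cast Pool.Agent.Helper78.Lim.maxEval_pos n (S n) (hS n)
  have m2 : (0 : ℝ) < layEval n (S n) := by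
    have : (1 : ℤ) ≤ layEval n (S n) := Pool.Agent.Helper94.LB.one_le_layEval S hS n
    exact_mod_cast (by omega : (0 : ℤ) < layEval n (S n))
  have m3 : Real.logb 2 (layEval n (S n))
      ≤ -(δ * (n : ℝ) ^ 2) + Real.logb 2 (maxEval n (S n)) := by
    have : (α - δ) * (n : ℝ) ^ 2 - (L + δ) * (n : ℝ) ^ 2 = δ * (n : ℝ) ^ 2 := by
      rw [hδ]; ring
    linarith
  have m4 : ((MvPolynomial.eval (fun _ => (1 : ℤ)) (S n w) : ℤ) : ℝ) ≤ layEval n (S n) := by
    exact_mod_cast le_layEval' (S n) hw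
  refine m4.trans ?_
  have m5 : (layEval n (S n) : ℝ) = (2 : ℝ) ^ Real.logb 2 (layEval n (S n)) :=
    (Real.rpow_logb (by norm_num) (by norm_num) m2).symm
  have m6 : (maxEval n (S n) : ℝ) = (2 : ℝ) ^ Real.logb 2 (maxEval n (S n)) :=
    (Real.rpow_logb (by norm_num) (by norm_num) (by linarith)).symm
  rw [m5]
  conv_rhs => rw [m6]
  rw [← Real.rpow_add (by norm_num)]
  exact Real.rpow_le_rpow_of_exponent_le (by norm_num) m3

/-- the same for the (unique) families of Schubert polynomials, without the limit -/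
theorem layered_theorem :
    ∃ S : (n : ℕ) → Equiv.Perm (Fin n) → MvPolynomial (Fin n) ℤ,
      (∀ n T, IsSchubertFamily n T ↔ T = S n) ∧
      ∃ L δ : ℝ, ∃ N : ℕ, 0.2932362762 < L ∧ L < 0.2932362763 ∧ 0 < δ ∧
        Tendsto (fun n : ℕ => Real.logb 2 (layEval n (S n)) / (n : ℝ) ^ 2) atTop (𝓝 L) ∧
        (∀ n ≥ N, (L + δ) * (n : ℝ) ^ 2 ≤ Real.logb 2 (maxEval n (S n))) ∧
        (∀ n ≥ N, ∀ w : Equiv.Perm (Fin n), IsLayered w →
          ((MvPolynomial.eval (fun _ => (1 : ℤ)) (S n w) : ℤ) : ℝ)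
            ≤ (2 : ℝ) ^ (-(δ * (n : ℝ) ^ 2)) * maxEval n (S n)) := by
  obtain ⟨huniq, α, L, δ, N, hL, hL', hLα, -, hδ, hall⟩ := main_theorem
  choose S hS using fun n => (huniq n).exists
  obtain ⟨h1, h2, h3, -⟩ := hall S hS
  refine ⟨S, fun n T => ⟨fun hT => (huniq n).unique hT (hS n), fun hT => hT ▸ hS n⟩, ?_⟩
  set d := min δ ((α - L) / 2) with hd
  have hd0 : 0 < d := lt_min hδ (by linarith)
  have hd1 : d ≤ δ := min_le_left _ _
  have hd2 : L + d < α := by have := min_le_right δ ((α - L) / 2); linarith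
  have ev1 := h1.eventually (lt_mem_nhds hd2)
  obtain ⟨N', hN'⟩ := Filter.eventually_atTop.1 (ev1.and (eventually_ge_atTop 1))
  refine ⟨L, d, max N N', hL, hL', hd0, h2, ?_, ?_⟩
  · intro n hn
    obtain ⟨g1, g3⟩ := hN' n (le_trans (le_max_right _ _) hn)
    have hn0 : (0 : ℝ) < n := by exact_mod_cast g3
    have hn2 : (0 : ℝ) < (n : ℝ) ^ 2 := by positivity
    rw [lt_div_iff₀ hn2] at g1
    exact g1.le
  · intro n hn w hw
    refine (h3 n (le_trans (le_max_left _ _) hn) w hw).trans ?_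
    have m1 : (1 : ℝ) ≤ maxEval n (S n) := by
      exact_mod_cast Pool.Agent.Helper78.Lim.maxEval_pos n (S n) (hS n)
    apply mul_le_mul_of_nonneg_right _ (by linarith)
    apply Real.rpow_le_rpow_of_exponent_le (by norm_num)
    have : d * (n : ℝ) ^ 2 ≤ δ * (n : ℝ) ^ 2 := by gcongr
    linarith

end Pool.Agent.Helper43.LB
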