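import Pool.Agent.Helper43.LB.Point2

/-!
Sum of the pair errors.
-/

namespace Pool.Agent.Helper43.LB

open Finset

theorem ps_eq_sum (e : ℝ → ℝ → ℝ) (S : Finset ℕ) :
    ps e S = ∑ x ∈ (S ×ˢ S).filter (fun x => x.1 < x.2), e x.1 x.2 := by
  unfold ps
  rw [sum_filter, sum_product_right]
  apply sum_congr rfl
  intro t _
  rw [sum_filter]

theorem sum_inv_le_log (N : ℕ) {c : ℝ} (hc : 0 < c) :
    ∑ u ∈ Icc 1 N, 1 / ((u : ℝ) + c) ≤ Real.log (1 + N / c) := by
  have key : ∀ N : ℕ, ∑ u ∈ Icc 1 N, 1 / ((u : ℝ) + c) ≤ Real.log (N + c) - Real.log c := by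
    intro N
    induction N with
    | zero => simp
    | succ N ih =>
      rw [sum_Icc_succ_top (by omega)]
      have h := log_sub_ge (x := (N : ℝ) + c) (y := (N : ℝ) + 1 + c) (by positivity) (by positivity)
      have : (N : ℝ) + 1 + c - (N + c) = 1 := by ring
      rw [this] at h
      push_cast
      linarith
  have h := key N
  rw [← Real.log_div (by positivity) hc.ne'] at h
  have : ((N : ℝ) + c) / c = 1 + N / c := by field_simp; ring
  rwa [this] at h

theorem er_eq {j u : ℝ} (hj : 0 < j) (hu : 2 < u) :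
    (u - 2) / 2 * er j u = 1 / 2 * (j * (j + 2) * (1 / (u + j)) + 4 * j * (j + 1) * (1 / (u + 2 * j))) := by
  unfold er
  have h1 : u - 2 ≠ 0 := by linarith
  have h2 : u + j ≠ 0 := by linarith
  have h3 : u + 2 * j ≠ 0 := by linarith
  field_simp
  ring

theorem er_nonneg {j u : ℝ} (hj : 0 < j) (hu : 2 < u) : 0 ≤ er j u := by
  have h := er_eq hj hu
  have h1 : 0 < (u - 2) / 2 := by linarith
  have h2 : 0 ≤ 1 / 2 * (j * (j + 2) * (1 / (u + j)) + 4 * j * (j + 1) * (1 / (u + 2 * j))) := by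
    have : 0 < u + j := by linarith
    have : 0 < u + 2 * j := by linarith
    positivity
  rw [← h] at h2
  exact nonneg_of_mul_nonneg_right h2 h1

theorem ps_er (a : ℕ) {j : ℝ} (hj : 0 < j) (S : Finset ℕ) (hS : S ⊆ Icc 2 a) :
    ps (fun s t => er j (s + t)) S ≤ 1 / 2 * (5 * j ^ 2 + 6 * j) * Real.log (1 + 2 * a / j) := by
  rw [ps_eq_sum]
  set Q := ((Icc 5 (2 * a)) ×ˢ (Icc 2 a)).filter (fun y : ℕ × ℕ => 2 * y.2 < y.1) with hQ
  have h1 : ∑ x ∈ (S ×ˢ S).filter (fun x => x.1 < x.2), er j ((x.1 : ℝ) + x.2)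
      ≤ ∑ y ∈ Q, er j y.1 := by
    have e1 : ∑ x ∈ (S ×ˢ S).filter (fun x => x.1 < x.2), er j ((x.1 : ℝ) + x.2)
        = ∑ y ∈ ((S ×ˢ S).filter (fun x : ℕ × ℕ => x.1 < x.2)).image
            (fun x : ℕ × ℕ => (x.1 + x.2, x.1)), er j (y.1 : ℝ) := by
      rw [sum_image]
      · apply sum_congr rfl
        intro x _
        push_cast
        rfl
      · rintro ⟨x1, x2⟩ _ ⟨y1, y2⟩ _ h
        simp only [Prod.mk.injEq] at h ⊢
        omega
    rw [e1]
    apply sum_le_sum_of_subset_of_nonneg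
    · intro y hy
      obtain ⟨⟨s, t⟩, hx, rfl⟩ := mem_image.1 hy
      rw [mem_filter, mem_product] at hx
      obtain ⟨⟨hs, ht⟩, hst⟩ := hx
      simp only at hs ht hst
      have h2 := mem_Icc.1 (hS hs)
      have h3 := mem_Icc.1 (hS ht)
      rw [hQ, mem_filter, mem_product, mem_Icc, mem_Icc]
      simp only
      omega
    · intro y hy _
      rw [hQ, mem_filter, mem_product, mem_Icc] at hy
      apply er_nonneg hj
      have : 5 ≤ y.1 := hy.1.1.1
      have : (5 : ℝ) ≤ y.1 := by exact_mod_cast this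
      linarith
  have h2 : ∑ y ∈ Q, er j y.1 = ∑ u ∈ Icc 5 (2 * a),
      (((Icc 2 a).filter (fun s => 2 * s < u)).card : ℝ) * er j u := by
    rw [hQ, sum_filter, sum_product]
    apply sum_congr rfl
    intro u _
    rw [← sum_filter]
    simp only
    rw [sum_const, nsmul_eq_mul]
  have h3 : ∀ u ∈ Icc 5 (2 * a), (((Icc 2 a).filter (fun s => 2 * s < u)).card : ℝ) * er j u
      ≤ 1 / 2 * (j * (j + 2) * (1 / ((u : ℝ) + j)) + 4 * j * (j + 1) * (1 / ((u : ℝ) + 2 * j))) := by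
    intro u hu
    rw [mem_Icc] at hu
    have hu5 : (5 : ℝ) ≤ u := by exact_mod_cast hu.1
    rw [← er_eq hj (by linarith)]
    apply mul_le_mul_of_nonneg_right _ (er_nonneg hj (by linarith))
    have hsub : (Icc 2 a).filter (fun s => 2 * s < u) ⊆ Icc 2 ((u - 1) / 2) := by
      intro s hs
      rw [mem_filter, mem_Icc] at hs
      rw [mem_Icc]
      omega
    have hc := card_le_card hsub
    rw [Nat.card_Icc] at hc
    have hc2 : 2 * ((Icc 2 a).filter (fun s => 2 * s < u)).card + 2 ≤ u := by omega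
    have hc3 : 2 * (((Icc 2 a).filter (fun s => 2 * s < u)).card : ℝ) + 2 ≤ u := by exact_mod_cast hc2
    linarith
  have h4 : ∀ c : ℝ, 0 < c → j ≤ c → ∑ u ∈ Icc 5 (2 * a), 1 / ((u : ℝ) + c)
      ≤ Real.log (1 + 2 * a / j) := by
    intro c hc hjc
    calc ∑ u ∈ Icc 5 (2 * a), 1 / ((u : ℝ) + c) ≤ ∑ u ∈ Icc 1 (2 * a), 1 / ((u : ℝ) + c) := by
          apply sum_le_sum_of_subset_of_nonneg (Icc_subset_Icc (by omega) le_rfl)
          intro u _ _
          positivity
      _ ≤ Real.log (1 + (2 * a : ℕ) / c) := sum_inv_le_log _ hc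
      _ ≤ _ := by
          apply Real.log_le_log (by positivity)
          push_cast
          gcongr
  calc _ ≤ ∑ y ∈ Q, er j y.1 := h1
    _ = _ := h2
    _ ≤ ∑ u ∈ Icc 5 (2 * a),
      1 / 2 * (j * (j + 2) * (1 / ((u : ℝ) + j)) + 4 * j * (j + 1) * (1 / ((u : ℝ) + 2 * j))) :=
        sum_le_sum h3
    _ = 1 / 2 * (j * (j + 2) * ∑ u ∈ Icc 5 (2 * a), 1 / ((u : ℝ) + j)
        + 4 * j * (j + 1) * ∑ u ∈ Icc 5 (2 * a), 1 / ((u : ℝ) + 2 * j)) := by
        rw [mul_sum, mul_sum, ← sum_add_distrib, mul_sum]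
    _ ≤ 1 / 2 * (j * (j + 2) * Real.log (1 + 2 * a / j)
        + 4 * j * (j + 1) * Real.log (1 + 2 * a / j)) := by
        gcongr
        · exact h4 j hj le_rfl
        · exact h4 (2 * j) (by linarith) (by linarith)
    _ = _ := by ring

end Pool.Agent.Helper43.LB
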