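import Pool.Agent.Helper43.LB.Prod

/-!
Pointwise lower bound of `log (Wt / wt)`.
-/

namespace Pool.Agent.Helper43.LB

open Finset

/-- sum over pairs -/
noncomputable def ps (g : ℝ → ℝ → ℝ) (S : Finset ℕ) : ℝ :=
  ∑ t ∈ S, ∑ s ∈ S.filter (· < t), g s t

theorem log_pp (f : ℝ → ℝ → ℝ) (S : Finset ℕ)
    (h : ∀ t ∈ S, ∀ s ∈ S, s < t → f s t ≠ 0) :
    Real.log (pp f S) = ps (fun s t => Real.log (f s t)) S := by
  unfold pp ps
  rw [Real.log_prod]
  · apply sum_congr rfl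
    intro t ht
    rw [Real.log_prod]
    intro s hs
    rw [mem_filter] at hs
    exact h t ht s hs.1 hs.2
  · intro t ht
    rw [prod_ne_zero_iff]
    intro s hs
    rw [mem_filter] at hs
    exact h t ht s hs.1 hs.2

theorem ps_le (f g : ℝ → ℝ → ℝ) (S : Finset ℕ)
    (h : ∀ t ∈ S, ∀ s ∈ S, s < t → f s t ≤ g s t) : ps f S ≤ ps g S := by
  unfold ps
  apply sum_le_sum
  intro t ht
  apply sum_le_sum
  intro s hs
  rw [mem_filter] at hs
  exact h t ht s hs.1 hs.2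

theorem ps_add (f g : ℝ → ℝ → ℝ) (S : Finset ℕ) :
    ps (fun s t => f s t + g s t) S = ps f S + ps g S := by
  unfold ps
  rw [← sum_add_distrib]
  apply sum_congr rfl
  intro t _
  rw [← sum_add_distrib]

theorem ps_smul (c : ℝ) (f : ℝ → ℝ → ℝ) (S : Finset ℕ) :
    ps (fun s t => c * f s t) S = c * ps f S := by
  unfold ps
  rw [mul_sum]
  apply sum_congr rfl
  intro t _
  rw [mul_sum]

theorem ps_image (f : ℝ → ℝ → ℝ) (S : Finset ℕ) (j : ℕ) :
    ps f (S.image (· + j)) = ps (fun s t => f (s + j) (t + j)) S := by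
  unfold ps
  rw [sum_image (by intro x _ y _ h; simpa using h)]
  apply sum_congr rfl
  intro t _
  have : (S.image (· + j)).filter (· < t + j) = (S.filter (· < t)).image (· + j) := by
    ext x
    simp only [mem_filter, mem_image]
    constructor
    · rintro ⟨⟨s, hs, rfl⟩, h⟩
      exact ⟨s, ⟨hs, by omega⟩, rfl⟩
    · rintro ⟨s, ⟨hs, h⟩, rfl⟩
      exact ⟨⟨s, hs, rfl⟩, by omega⟩
  rw [this, sum_image (by intro x _ y _ h; simpa using h)]
  push_cast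
  rfl

theorem log_wt {a b : ℕ} {S : Finset ℕ} (hS : S ⊆ Icc 1 a) :
    Real.log (wt a b S) = 2 * ∑ s ∈ S, Real.log s
      + 2 * ps (fun s t => Real.log (t ^ 2 - s ^ 2)) S
      + ∑ s ∈ S, ∑ Y ∈ Ioc a b, Real.log ((Y : ℝ) ^ 2 - (s : ℝ) ^ 2) := by
  have h1 : 0 < ip S := ip_pos fun s hs => (mem_Icc.1 (hS hs)).1
  have h2 := vn_pos S
  have h3 : ∀ s ∈ S, ∏ Y ∈ Ioc a b, ((Y : ℝ) ^ 2 - (s : ℝ) ^ 2) ≠ 0 := by
    intro s hs
    rw [prod_ne_zero_iff]
    intro Y hY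
    have := (mem_Icc.1 (hS hs)).2
    have := (mem_Ioc.1 hY).1
    exact (sq_sub_pos (by omega)).ne'
  unfold wt
  rw [Real.log_mul (by positivity) (prod_ne_zero_iff.2 h3), Real.log_mul (by positivity)
    (by positivity), Real.log_pow, Real.log_pow]
  have e1 : Real.log (ip S) = ∑ s ∈ S, Real.log s := by
    unfold ip
    rw [Real.log_prod]
    intro s hs
    have := (mem_Icc.1 (hS hs)).1
    have : s ≠ 0 := by omega
    exact_mod_cast this
  have e2 : Real.log (vn S) = ps (fun s t => Real.log (t ^ 2 - s ^ 2)) S := by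
    unfold vn
    rw [log_pp]
    intro t _ s _ hst
    exact (sq_sub_pos hst).ne'
  have e3 : Real.log (∏ s ∈ S, ∏ Y ∈ Ioc a b, ((Y : ℝ) ^ 2 - (s : ℝ) ^ 2))
      = ∑ s ∈ S, ∑ Y ∈ Ioc a b, Real.log ((Y : ℝ) ^ 2 - (s : ℝ) ^ 2) := by
    rw [Real.log_prod h3]
    apply sum_congr rfl
    intro s hs
    rw [Real.log_prod]
    intro Y hY
    have := (mem_Icc.1 (hS hs)).2
    have := (mem_Ioc.1 hY).1
    exact (sq_sub_pos (by omega)).ne'
  rw [e1, e2, e3]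
  push_cast
  ring

theorem sum_pred {a : ℕ} {S : Finset ℕ} (hS : S ⊆ Icc 2 a) (f : ℝ → ℝ) :
    ∑ s ∈ S.image (fun x : ℕ => x - 1), f (s : ℝ) = ∑ s ∈ S, f ((s : ℝ) - 1) := by
  rw [sum_image]
  · apply sum_congr rfl
    intro s hs
    have := (mem_Icc.1 (hS hs)).1
    rw [Nat.cast_sub (by omega)]
    push_cast
    rfl
  · intro x hx y hy hxy
    have h1 := (mem_Icc.1 (hS hx)).1
    have h2 := (mem_Icc.1 (hS hy)).1
    simp only at hxy
    omega

theorem image_pred_succ {a : ℕ} {S : Finset ℕ} (hS : S ⊆ Icc 2 a) :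
    (S.image (· - 1)).image (· + 1) = S := by
  rw [image_image]
  ext t
  simp only [mem_image, Function.comp]
  constructor
  · rintro ⟨s, hs, rfl⟩
    have := (mem_Icc.1 (hS hs)).1
    rwa [Nat.sub_add_cancel (by omega)]
  · intro ht
    have := (mem_Icc.1 (hS ht)).1
    exact ⟨t, ht, by omega⟩

theorem log_wt_pred {a b : ℕ} {S : Finset ℕ} (hS : S ⊆ Icc 2 a) :
    Real.log (wt (a - 1) b (S.image (· - 1))) = 2 * ∑ s ∈ S, Real.log ((s : ℝ) - 1)
      + 2 * ps (fun s t => Real.log ((t - 1) ^ 2 - (s - 1) ^ 2)) S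
      + ∑ s ∈ S, ∑ Y ∈ Ioc (a - 1) b, Real.log ((Y : ℝ) ^ 2 - ((s : ℝ) - 1) ^ 2) := by
  have hsub : S.image (· - 1) ⊆ Icc 1 (a - 1) := by
    intro t ht
    obtain ⟨s, hs, rfl⟩ := mem_image.1 ht
    have := mem_Icc.1 (hS hs)
    rw [mem_Icc]
    omega
  rw [log_wt hsub, sum_pred hS (fun x => Real.log x),
    sum_pred hS (fun x => ∑ Y ∈ Ioc (a - 1) b, Real.log ((Y : ℝ) ^ 2 - x ^ 2))]
  congr 2
  congr 1
  have h := ps_image (fun s t => Real.log ((t - 1) ^ 2 - (s - 1) ^ 2)) (S.image (· - 1)) 1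
  rw [image_pred_succ hS] at h
  rw [h]
  congr 1
  funext s t
  congr 1
  push_cast
  ring

theorem log_Wt {j a b : ℕ} {S : Finset ℕ} (hS : S ⊆ Icc 1 a) :
    Real.log (Wt j a b S) = ∑ s ∈ S, ∑ v ∈ range (j + 1), Real.log ((s : ℝ) + v)
      + ps (fun s t => Real.log ((t - s) * (s + t + j))) S
      + ∑ s ∈ S, Real.log ((s : ℝ) + j)
      + ps (fun s t => Real.log ((t + j) ^ 2 - (s + j) ^ 2)) S
      + ∑ s ∈ S, ∑ Y ∈ Ioc (a + j) b, Real.log ((Y : ℝ) ^ 2 - ((s : ℝ) + j) ^ 2) := by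
  have hs1 : ∀ s ∈ S, (1 : ℝ) ≤ s := by
    intro s hs
    exact_mod_cast (mem_Icc.1 (hS hs)).1
  have f1 : ∀ s ∈ S, ∀ v ∈ range (j + 1), ((s : ℝ) + v) ≠ 0 := by
    intro s hs v _
    have := hs1 s hs
    positivity
  have f2 : ∀ t ∈ S, ∀ s ∈ S, s < t → ((t : ℝ) - s) * (s + t + j) ≠ 0 := by
    intro t ht s hs hst
    have h3 : (s : ℝ) < t := by exact_mod_cast hst
    have h4 := hs1 s hs
    have h5 := hs1 t ht
    have : (0 : ℝ) < (t : ℝ) - s := by linarith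
    positivity
  have f3 : ∀ s ∈ S, ((s : ℝ) + j) ≠ 0 := by
    intro s hs
    have := hs1 s hs
    positivity
  have f4 : ∀ t ∈ S, ∀ s ∈ S, s < t → ((t : ℝ) + j) ^ 2 - (s + j) ^ 2 ≠ 0 := by
    intro t ht s hs hst
    have := sq_sub_pos (s := s + j) (t := t + j) (by omega)
    push_cast at this
    exact this.ne'
  have f5 : ∀ s ∈ S, ∀ Y ∈ Ioc (a + j) b, ((Y : ℝ) ^ 2 - ((s : ℝ) + j) ^ 2) ≠ 0 := by
    intro s hs Y hY
    have h6 := (mem_Icc.1 (hS hs)).2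
    have h7 := (mem_Ioc.1 hY).1
    have := sq_sub_pos (s := s + j) (t := Y) (by omega)
    push_cast at this
    exact this.ne'
  have g1 : ∏ s ∈ S, ∏ v ∈ range (j + 1), ((s : ℝ) + v) ≠ 0 :=
    prod_ne_zero_iff.2 fun s hs => prod_ne_zero_iff.2 (f1 s hs)
  have g2 : pp (fun s t => (t - s) * (s + t + j)) S ≠ 0 := by
    unfold pp
    exact prod_ne_zero_iff.2 fun t ht => prod_ne_zero_iff.2 fun s hs => by
      rw [mem_filter] at hs
      exact f2 t ht s hs.1 hs.2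
  have g3 : ∏ s ∈ S, ((s : ℝ) + j) ≠ 0 := prod_ne_zero_iff.2 f3
  have g4 : pp (fun s t => (t + j) ^ 2 - (s + j) ^ 2) S ≠ 0 := by
    unfold pp
    exact prod_ne_zero_iff.2 fun t ht => prod_ne_zero_iff.2 fun s hs => by
      rw [mem_filter] at hs
      exact f4 t ht s hs.1 hs.2
  have g5 : ∏ s ∈ S, ∏ Y ∈ Ioc (a + j) b, ((Y : ℝ) ^ 2 - ((s : ℝ) + j) ^ 2) ≠ 0 :=
    prod_ne_zero_iff.2 fun s hs => prod_ne_zero_iff.2 (f5 s hs)
  unfold Wt
  rw [Real.log_mul (by positivity) g5, Real.log_mul (by positivity) g4,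
    Real.log_mul (by positivity) g3, Real.log_mul g1 g2, log_pp _ _ f2, log_pp _ _ f4,
    Real.log_prod f3, Real.log_prod (fun s hs => prod_ne_zero_iff.2 (f1 s hs)),
    Real.log_prod (fun s hs => prod_ne_zero_iff.2 (f5 s hs))]
  rw [sum_congr rfl (fun s hs => Real.log_prod (f1 s hs)),
    sum_congr rfl (fun s hs => Real.log_prod (f5 s hs))]

end Pool.Agent.Helper43.LB
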