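import Pool.Agent.Helper43.LB.Point

/-!
Pair inequality and one-body inequality.
-/

namespace Pool.Agent.Helper43.LB

open Finset

/-- `log y - log x ≥ (y - x) / y` -/
theorem log_sub_ge {x y : ℝ} (hx : 0 < x) (hy : 0 < y) : (y - x) / y ≤ Real.log y - Real.log x := by
  have h := Real.one_sub_inv_le_log_of_pos (div_pos hy hx)
  rw [Real.log_div hy.ne' hx.ne', inv_div] at h
  calc (y - x) / y = 1 - x / y := by field_simp
    _ ≤ _ := h

/-- `log y - log x ≤ (y - x) / x` -/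
theorem log_sub_le {x y : ℝ} (hx : 0 < x) (hy : 0 < y) : Real.log y - Real.log x ≤ (y - x) / x := by
  have h := Real.log_le_sub_one_of_pos (div_pos hy hx)
  rw [Real.log_div hy.ne' hx.ne'] at h
  calc _ ≤ y / x - 1 := h
    _ = _ := by field_simp

/-- the pair error -/
noncomputable def er (j u : ℝ) : ℝ := 3 * j / (u - 2) - j / (u + j) - 2 * j / (u + 2 * j)

theorem pair_ineq {s t j : ℝ} (hs : 2 ≤ s) (hst : s < t) (hj : 0 ≤ j) :
    3 / 4 * j * (2 * Real.log (t ^ 2 - s ^ 2) - 2 * Real.log ((t - 1) ^ 2 - (s - 1) ^ 2))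
        - er j (s + t)
      ≤ Real.log ((t - s) * (s + t + j)) + Real.log ((t + j) ^ 2 - (s + j) ^ 2)
        - 2 * Real.log (t ^ 2 - s ^ 2) := by
  have hd : 0 < t - s := by linarith
  have hu : 4 < s + t := by linarith
  set u := s + t with hu'
  have e1 : (t + j) ^ 2 - (s + j) ^ 2 = (t - s) * (u + 2 * j) := by rw [hu']; ring
  have e2 : t ^ 2 - s ^ 2 = (t - s) * u := by rw [hu']; ring
  have e3 : (t - 1) ^ 2 - (s - 1) ^ 2 = (t - s) * (u - 2) := by rw [hu']; ring
  have e4 : (t - s) * (s + t + j) = (t - s) * (u + j) := by rw [hu']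
  rw [e1, e2, e3, e4, Real.log_mul hd.ne' (by linarith), Real.log_mul hd.ne' (by linarith),
    Real.log_mul hd.ne' (by linarith), Real.log_mul hd.ne' (by linarith)]
  have h1 := log_sub_ge (x := u) (y := u + j) (by linarith) (by linarith)
  have h2 := log_sub_ge (x := u) (y := u + 2 * j) (by linarith) (by linarith)
  have h3 := log_sub_le (x := u - 2) (y := u) (by linarith) (by linarith)
  have k1 : (u + j - u) / (u + j) = j / (u + j) := by ring
  have k2 : (u + 2 * j - u) / (u + 2 * j) = 2 * j / (u + 2 * j) := by ring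
  have k3 : (u - (u - 2)) / (u - 2) = 2 / (u - 2) := by ring
  rw [k1] at h1
  rw [k2] at h2
  rw [k3] at h3
  have h4 : 3 / 2 * j * (Real.log u - Real.log (u - 2)) ≤ 3 / 2 * j * (2 / (u - 2)) := by
    gcongr
  have k4 : 3 / 2 * j * (2 / (u - 2)) = 3 * j / (u - 2) := by ring
  rw [k4] at h4
  unfold er
  linarith

theorem sum_Ioc_shift (A B c : ℕ) (f : ℕ → ℝ) :
    ∑ Y ∈ Ioc (A + c) (B + c), f Y = ∑ Y ∈ Ioc A B, f (Y + c) := by
  rw [← Finset.map_add_right_Ioc, sum_map]
  rfl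

/-- sums of `log (Y + x)` -/
noncomputable def LQ (A B : ℕ) (x : ℝ) : ℝ := ∑ Y ∈ Ioc A B, Real.log ((Y : ℝ) + x)

theorem LQ_shift (A B c : ℕ) (x : ℝ) : LQ (A + c) (B + c) x = LQ A B (x + c) := by
  unfold LQ
  rw [sum_Ioc_shift]
  apply sum_congr rfl
  intro Y _
  congr 1
  push_cast
  ring

theorem LQ_add {A B C : ℕ} (h1 : A ≤ B) (h2 : B ≤ C) (x : ℝ) : LQ A C x = LQ A B x + LQ B C x := by
  unfold LQ
  rw [sum_Ioc_consecutive _ h1 h2]

theorem sum_log_sq (A B : ℕ) (x : ℝ) (h : ∀ Y ∈ Ioc A B, x < (Y : ℝ)) (h0 : 0 ≤ x) :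
    ∑ Y ∈ Ioc A B, Real.log ((Y : ℝ) ^ 2 - x ^ 2) = LQ A B (-x) + LQ A B x := by
  unfold LQ
  rw [← sum_add_distrib]
  apply sum_congr rfl
  intro Y hY
  have := h Y hY
  rw [← Real.log_mul (by linarith) (by linarith)]
  congr 1
  ring

theorem LQ_le {A B : ℕ} (h : A ≤ B) (x : ℝ) (h0 : -x < (A : ℝ) + 1) :
    LQ A B x ≤ ((B : ℝ) - A) * Real.log (B + x) := by
  unfold LQ
  calc ∑ Y ∈ Ioc A B, Real.log ((Y : ℝ) + x) ≤ ∑ Y ∈ Ioc A B, Real.log ((B : ℝ) + x) := by
        apply sum_le_sum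
        intro Y hY
        rw [mem_Ioc] at hY
        have h1 : (A : ℝ) + 1 ≤ Y := by exact_mod_cast hY.1
        have h2 : (Y : ℝ) ≤ B := by exact_mod_cast hY.2
        apply Real.log_le_log <;> linarith
    _ = _ := by
        rw [sum_const, Nat.card_Ioc, nsmul_eq_mul, Nat.cast_sub h]

theorem LQ_ge {A B : ℕ} (h : A ≤ B) (x : ℝ) (h0 : -x < (A : ℝ)) :
    ((B : ℝ) - A) * Real.log (A + x) ≤ LQ A B x := by
  unfold LQ
  calc ((B : ℝ) - A) * Real.log (A + x) = ∑ Y ∈ Ioc A B, Real.log ((A : ℝ) + x) := by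
        rw [sum_const, Nat.card_Ioc, nsmul_eq_mul, Nat.cast_sub h]
    _ ≤ _ := by
        apply sum_le_sum
        intro Y hY
        rw [mem_Ioc] at hY
        have h1 : (A : ℝ) + 1 ≤ Y := by exact_mod_cast hY.1
        apply Real.log_le_log <;> linarith

theorem one_ineq {a b j s : ℕ} (hs : 2 ≤ s) (hsa : s ≤ a) (hab : a + j ≤ b) (hj : 1 ≤ j) :
    (j : ℝ) * Real.log s
      + 3 / 4 * j * ((2 * Real.log s + ∑ Y ∈ Ioc a b, Real.log ((Y : ℝ) ^ 2 - (s : ℝ) ^ 2))
          - (2 * Real.log ((s : ℝ) - 1)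
            + ∑ Y ∈ Ioc (a - 1) b, Real.log ((Y : ℝ) ^ 2 - ((s : ℝ) - 1) ^ 2)))
      - 3 / 2 * j * (Real.log s - Real.log ((s : ℝ) - 1))
      - 1 / 4 * j * Real.log (((b : ℝ) + 1) ^ 2 - (s : ℝ) ^ 2)
      + 1 / 2 * j * (((b : ℝ) - a) / (b + s)) - (4 * (j : ℝ) ^ 2 / a + 3 / 4 * j / a)
      ≤ (∑ v ∈ range (j + 1), Real.log ((s : ℝ) + v) + Real.log ((s : ℝ) + j)
          + ∑ Y ∈ Ioc (a + j) b, Real.log ((Y : ℝ) ^ 2 - ((s : ℝ) + j) ^ 2))
        - (2 * Real.log s + ∑ Y ∈ Ioc a b, Real.log ((Y : ℝ) ^ 2 - (s : ℝ) ^ 2)) := by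
  have hs' : (2 : ℝ) ≤ s := by exact_mod_cast hs
  have hsa' : (s : ℝ) ≤ a := by exact_mod_cast hsa
  have hab' : (a : ℝ) + j ≤ b := by exact_mod_cast hab
  have hj' : (1 : ℝ) ≤ j := by exact_mod_cast hj
  -- rewrite the sums
  have t0 : ∑ Y ∈ Ioc a b, Real.log ((Y : ℝ) ^ 2 - (s : ℝ) ^ 2) = LQ a b (-s) + LQ a b s := by
    apply sum_log_sq
    · intro Y hY
      have := (mem_Ioc.1 hY).1
      exact_mod_cast (by omega : s < Y)
    · linarith
  have t1 : ∑ Y ∈ Ioc (a + j) b, Real.log ((Y : ℝ) ^ 2 - ((s : ℝ) + j) ^ 2)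
      = LQ a (b - j) (-s) + LQ (a + 2 * j) (b + j) s := by
    rw [sum_log_sq]
    · have e1 : LQ (a + j) b (-((s : ℝ) + j)) = LQ a (b - j) (-s) := by
        have := LQ_shift a (b - j) j (-((s : ℝ) + j))
        rw [Nat.sub_add_cancel (by omega)] at this
        rw [this]
        congr 1
        ring
      have e2 : LQ (a + j) b ((s : ℝ) + j) = LQ (a + 2 * j) (b + j) s := by
        rw [← LQ_shift, two_mul, add_assoc]
      rw [e1, e2]
    · intro Y hY
      have := (mem_Ioc.1 hY).1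
      exact_mod_cast (by omega : s + j < Y)
    · linarith
  have t2 : ∑ Y ∈ Ioc (a - 1) b, Real.log ((Y : ℝ) ^ 2 - ((s : ℝ) - 1) ^ 2)
      = LQ a (b + 1) (-s) + LQ (a - 2) (b - 1) s := by
    rw [sum_log_sq]
    · have e1 : LQ (a - 1) b (-((s : ℝ) - 1)) = LQ a (b + 1) (-s) := by
        have := LQ_shift (a - 1) b 1 (-(s : ℝ))
        rw [Nat.sub_add_cancel (by omega)] at this
        rw [this]
        congr 1
        push_cast
        ring
      have e2 : LQ (a - 1) b ((s : ℝ) - 1) = LQ (a - 2) (b - 1) s := by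
        have := LQ_shift (a - 2) (b - 1) 1 ((s : ℝ) - 1)
        rw [show a - 2 + 1 = a - 1 by omega, Nat.sub_add_cancel (by omega)] at this
        rw [this]
        congr 1
        push_cast
        ring
      rw [e1, e2]
    · intro Y hY
      have := (mem_Ioc.1 hY).1
      have : (s : ℝ) < (Y : ℝ) + 1 := by exact_mod_cast (by omega : s < Y + 1)
      linarith
    · linarith
  -- differences
  have d1 : LQ a b (-s) = LQ a (b - j) (-s) + LQ (b - j) b (-s) := LQ_add (by omega) (by omega) _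
  have d2 : LQ a b s + LQ b (b + j) s = LQ a (a + 2 * j) s + LQ (a + 2 * j) (b + j) s := by
    rw [← LQ_add (by omega) (by omega), ← LQ_add (by omega) (by omega)]
  have d3 : LQ a (b + 1) (-s) = LQ a b (-s) + Real.log ((b : ℝ) + 1 - s) := by
    rw [LQ_add (A := a) (B := b) (by omega) (by omega)]
    congr 1
    unfold LQ
    rw [Nat.Ioc_succ_singleton, sum_singleton]
    congr 1
    push_cast
    ring
  have d4 : LQ (a - 2) (b - 1) s + Real.log ((b : ℝ) + s)
      = Real.log ((a : ℝ) - 1 + s) + Real.log ((a : ℝ) + s) + LQ a b s := by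
    have e1 : LQ (a - 2) b s = LQ (a - 2) (b - 1) s + Real.log ((b : ℝ) + s) := by
      rw [LQ_add (A := a - 2) (B := b - 1) (C := b) (by omega) (by omega)]
      congr 1
      unfold LQ
      have : b = (b - 1) + 1 := by omega
      conv_lhs => rw [this]
      rw [Nat.add_sub_cancel, Nat.Ioc_succ_singleton, sum_singleton, ← this]
    have e2 : LQ (a - 2) b s = LQ (a - 2) a s + LQ a b s := LQ_add (by omega) (by omega) _
    have e3 : LQ (a - 2) a s = Real.log ((a : ℝ) - 1 + s) + Real.log ((a : ℝ) + s) := by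
      rw [LQ_add (A := a - 2) (B := a - 1) (C := a) (by omega) (by omega)]
      unfold LQ
      have h1 : a - 1 = (a - 2) + 1 := by omega
      have h2 : a = (a - 1) + 1 := by omega
      congr 1
      · conv_lhs => rw [h1]
        rw [Nat.Ioc_succ_singleton, sum_singleton, ← h1, Nat.cast_sub (by omega)]
        push_cast
        rfl
      · conv_lhs => rw [h2]
        rw [Nat.add_sub_cancel, Nat.Ioc_succ_singleton, sum_singleton, ← h2]
    rw [← e1, e2, e3]
  -- inequalities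
  have i1 : (j : ℝ) * Real.log s + Real.log s ≤ ∑ v ∈ range (j + 1), Real.log ((s : ℝ) + v) := by
    calc (j : ℝ) * Real.log s + Real.log s = ∑ v ∈ range (j + 1), Real.log (s : ℝ) := by
          rw [sum_const, card_range, nsmul_eq_mul]; push_cast; ring
      _ ≤ _ := by
          apply sum_le_sum
          intro v _
          apply Real.log_le_log (by linarith)
          have : (0 : ℝ) ≤ v := Nat.cast_nonneg v
          linarith
  have i2 : Real.log (s : ℝ) ≤ Real.log ((s : ℝ) + j) := Real.log_le_log (by linarith) (by linarith)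
  have i3 : LQ (b - j) b (-s) ≤ (j : ℝ) * Real.log ((b : ℝ) - s) := by
    have h := LQ_le (A := b - j) (B := b) (by omega) (-(s : ℝ)) (by
      rw [Nat.cast_sub (by omega)]; linarith)
    rw [Nat.cast_sub (by omega)] at h
    calc _ ≤ _ := h
      _ = _ := by ring_nf
  have i4 : (j : ℝ) * Real.log ((b : ℝ) + s) ≤ LQ b (b + j) s := by
    have h := LQ_ge (A := b) (B := b + j) (by omega) (s : ℝ) (by linarith)
    push_cast at h
    calc _ = _ := by ring
      _ ≤ _ := h
  have i5 : LQ a (a + 2 * j) s ≤ 2 * j * Real.log ((a : ℝ) + s) + 4 * (j : ℝ) ^ 2 / a := by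
    have h := LQ_le (A := a) (B := a + 2 * j) (by omega) (s : ℝ) (by linarith)
    push_cast at h
    have h2 := log_sub_le (x := (a : ℝ) + s) (y := (a : ℝ) + 2 * j + s) (by linarith) (by linarith)
    have h3 : ((a : ℝ) + 2 * j + s - (a + s)) / (a + s) ≤ 2 * j / a := by
      have : (a : ℝ) + 2 * j + s - (a + s) = 2 * j := by ring
      rw [this]
      apply div_le_div_of_nonneg_left (by linarith) (by linarith) (by linarith)
    have h4 : Real.log ((a : ℝ) + 2 * j + s) ≤ Real.log ((a : ℝ) + s) + 2 * j / a := by linarith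
    calc LQ a (a + 2 * j) s ≤ ((a : ℝ) + 2 * j - a) * Real.log ((a : ℝ) + 2 * j + s) := h
      _ = 2 * j * Real.log ((a : ℝ) + 2 * j + s) := by ring
      _ ≤ 2 * j * (Real.log ((a : ℝ) + s) + 2 * j / a) := by gcongr
      _ = _ := by ring
  -- the log inequality
  have j1 : Real.log ((b : ℝ) - s) ≤ Real.log ((b : ℝ) + 1 - s) :=
    Real.log_le_log (by linarith) (by linarith)
  have j2 : Real.log ((b : ℝ) + s) ≤ Real.log ((b : ℝ) + 1 + s) :=
    Real.log_le_log (by linarith) (by linarith)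
  have j3 : Real.log ((a : ℝ) + s) - Real.log ((a : ℝ) - 1 + s) ≤ 1 / a := by
    have h := log_sub_le (x := (a : ℝ) - 1 + s) (y := (a : ℝ) + s) (by linarith) (by linarith)
    have h3 : ((a : ℝ) + s - (a - 1 + s)) / (a - 1 + s) ≤ 1 / a := by
      have : (a : ℝ) + s - (a - 1 + s) = 1 := by ring
      rw [this]
      apply div_le_div_of_nonneg_left (by linarith) (by linarith) (by linarith)
    linarith
  have j4 : ((b : ℝ) - a) / (b + s) ≤ Real.log ((b : ℝ) + s) - Real.log ((a : ℝ) + s) := by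
    have h := log_sub_ge (x := (a : ℝ) + s) (y := (b : ℝ) + s) (by linarith) (by linarith)
    have : (b : ℝ) + s - (a + s) = b - a := by ring
    rw [this] at h
    exact h
  have j5 : Real.log (((b : ℝ) + 1) ^ 2 - (s : ℝ) ^ 2)
      = Real.log ((b : ℝ) + 1 - s) + Real.log ((b : ℝ) + 1 + s) := by
    rw [← Real.log_mul (by linarith) (by linarith)]
    congr 1
    ring
  rw [t0, t1, t2, j5]
  have q1 : (j : ℝ) * (Real.log ((b : ℝ) + 1 - s) - Real.log ((b : ℝ) - s)) ≥ 0 :=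
    mul_nonneg (by linarith) (by linarith)
  have q2 : (j : ℝ) * (Real.log ((b : ℝ) + 1 + s) - Real.log ((b : ℝ) + s)) ≥ 0 :=
    mul_nonneg (by linarith) (by linarith)
  have q3 : (j : ℝ) * (1 / a - (Real.log ((a : ℝ) + s) - Real.log ((a : ℝ) - 1 + s))) ≥ 0 :=
    mul_nonneg (by linarith) (by linarith)
  have q4 : (j : ℝ) * (Real.log ((b : ℝ) + s) - Real.log ((a : ℝ) + s) - ((b : ℝ) - a) / (b + s)) ≥ 0 :=
    mul_nonneg (by linarith) (by linarith)
  have r1 : (3 / 4 * (j : ℝ) / a) = 3 / 4 * (j * (1 / a)) := by ring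
  rw [r1]
  have d3' : (j : ℝ) * LQ a (b + 1) (-s) = j * LQ a b (-s) + j * Real.log ((b : ℝ) + 1 - s) := by
    rw [d3]; ring
  have d4' : (j : ℝ) * LQ (a - 2) (b - 1) s + j * Real.log ((b : ℝ) + s)
      = j * Real.log ((a : ℝ) - 1 + s) + j * Real.log ((a : ℝ) + s) + j * LQ a b s := by
    rw [← mul_add, d4]; ring
  linarith [i1, i2, i3, i4, i5, q1, q2, q3, q4, d1, d2, d3', d4']

end Pool.Agent.Helper43.LB
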