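import Pool.Agent.Helper43.LB.Jen

/-!
The summand of the tail sum as a product, and its logarithm.
-/

namespace Pool.Agent.Helper43.LB

open Finset

theorem pp_image (f : ℝ → ℝ → ℝ) (S : Finset ℕ) (j : ℕ) :
    pp f (S.image (· + j)) = pp (fun s t => f (s + j) (t + j)) S := by
  unfold pp
  rw [prod_image (by intro x _ y _ h; simpa using h)]
  apply prod_congr rfl
  intro t _
  have : (S.image (· + j)).filter (· < t + j) = (S.filter (· < t)).image (· + j) := by
    ext x
    simp only [mem_filter, mem_image]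
    constructor
    · rintro ⟨⟨s, hs, rfl⟩, h⟩
      exact ⟨s, ⟨hs, by omega⟩, rfl⟩
    · rintro ⟨s, ⟨hs, h⟩, rfl⟩
      exact ⟨⟨s, hs, rfl⟩, by omega⟩
  rw [this, prod_image (by intro x _ y _ h; simpa using h)]
  push_cast
  rfl

theorem pp_union (f : ℝ → ℝ → ℝ) (A B : Finset ℕ) (h : ∀ x ∈ A, ∀ y ∈ B, x < y) :
    pp f (A ∪ B) = pp f A * pp f B * ∏ s ∈ A, ∏ Y ∈ B, f s Y := by
  unfold pp
  have hd : Disjoint A B := by
    rw [disjoint_left]
    intro x hx hy
    exact lt_irrefl x (h x hx x hy)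
  rw [prod_union hd]
  have e1 : ∀ t ∈ A, (A ∪ B).filter (· < t) = A.filter (· < t) := by
    intro t ht
    ext x
    simp only [mem_filter, mem_union]
    constructor
    · rintro ⟨hx | hx, hlt⟩
      · exact ⟨hx, hlt⟩
      · exact absurd hlt (not_lt.2 (h t ht x hx).le)
    · rintro ⟨hx, hlt⟩
      exact ⟨Or.inl hx, hlt⟩
  have e2 : ∀ t ∈ B, ∏ x ∈ (A ∪ B).filter (· < t), f x t
      = (∏ x ∈ B.filter (· < t), f x t) * ∏ x ∈ A, f x t := by
    intro t ht
    have : (A ∪ B).filter (· < t) = A ∪ B.filter (· < t) := by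
      ext x
      simp only [mem_filter, mem_union]
      constructor
      · rintro ⟨hx | hx, hlt⟩
        · exact Or.inl hx
        · exact Or.inr ⟨hx, hlt⟩
      · rintro (hx | ⟨hx, hlt⟩)
        · exact ⟨Or.inl hx, h x hx t ht⟩
        · exact ⟨Or.inr hx, hlt⟩
    rw [this, prod_union (hd.mono_right (filter_subset _ _)), mul_comm]
  rw [prod_congr rfl (fun t ht => by rw [e1 t ht]), prod_congr rfl e2, prod_mul_distrib,
    prod_comm (s := B) (t := A), mul_assoc]

/-- the summand of the tail sum without constants -/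
noncomputable def Wt (j a b : ℕ) (S : Finset ℕ) : ℝ :=
  (∏ s ∈ S, ∏ v ∈ range (j + 1), ((s : ℝ) + v)) * pp (fun s t => (t - s) * (s + t + j)) S
    * (∏ s ∈ S, ((s : ℝ) + j)) * pp (fun s t => (t + j) ^ 2 - (s + j) ^ 2) S
    * ∏ s ∈ S, ∏ Y ∈ Ioc (a + j) b, ((Y : ℝ) ^ 2 - ((s : ℝ) + j) ^ 2)

theorem Ico_eq_Ioc (a b : ℕ) : Ico (a + 1) (b + 1) = Ioc a b := by
  ext x; simp only [mem_Ico, mem_Ioc]; omega

theorem summand_eq (k w j p : ℕ) (hjw : j ≤ w) (S : Finset ℕ)
    (hS : S ∈ (Icc 1 (p + k)).powersetCard k) :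
    Lh j S * Lf (S.image (· + j) ∪ Ico (p + k + j + 1) (p + k + w + 1))
      = Kt k j (p + k) (p + k + w) * Wt j (p + k) (p + k + w) S := by
  rw [mem_powersetCard] at hS
  obtain ⟨hS, hc⟩ := hS
  rw [Ico_eq_Ioc]
  have hlt : ∀ x ∈ S.image (· + j), ∀ y ∈ Ioc (p + k + j) (p + k + w), x < y := by
    intro x hx y hy
    obtain ⟨s, hs, rfl⟩ := mem_image.1 hx
    have := (mem_Icc.1 (hS hs)).2
    have := (mem_Ioc.1 hy).1
    omega
  have hd : Disjoint (S.image (· + j)) (Ioc (p + k + j) (p + k + w)) := by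
    rw [disjoint_left]
    intro x hx hy
    exact lt_irrefl x (hlt x hx x hy)
  have hcard : (S.image (· + j) ∪ Ioc (p + k + j) (p + k + w)).card = k + w - j := by
    rw [card_union_of_disjoint hd, card_image_of_injective _ (add_left_injective j), hc,
      Nat.card_Ioc]
    omega
  have hip : ip (S.image (· + j) ∪ Ioc (p + k + j) (p + k + w))
      = (∏ s ∈ S, ((s : ℝ) + j)) * ip (Ioc (p + k + j) (p + k + w)) := by
    unfold ip
    rw [prod_union hd, prod_image (by intro x _ y _ h; simpa using h)]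
    push_cast
    rfl
  have hvn : vn (S.image (· + j) ∪ Ioc (p + k + j) (p + k + w))
      = pp (fun s t => (t + j) ^ 2 - (s + j) ^ 2) S * vn (Ioc (p + k + j) (p + k + w))
        * ∏ s ∈ S, ∏ Y ∈ Ioc (p + k + j) (p + k + w), ((Y : ℝ) ^ 2 - ((s : ℝ) + j) ^ 2) := by
    unfold vn
    rw [pp_union _ _ _ hlt, pp_image, prod_image (by intro x _ y _ h; simpa using h)]
    push_cast
    rfl
  unfold Lh Lf Kt Wt
  rw [hcard, hip, hvn, hc]
  have e1 : k + (p + k + w - (p + k)) - j = k + w - j := by omega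
  rw [e1]
  ring

theorem Kt_pos (k j a b : ℕ) : 0 < Kt k j a b := by
  unfold Kt
  have h1 : 0 < ip (Ioc (a + j) b) := ip_pos fun s hs => by have := (mem_Ioc.1 hs).1; omega
  have h2 := vn_pos (Ioc (a + j) b)
  have h3 : 0 < od (k + (b - a) - j) := by
    unfold od
    apply prod_pos
    intro l _
    exact_mod_cast Nat.factorial_pos _
  have h4 : 0 < ∏ l ∈ range k, ((2 * l + 1 + j).factorial : ℝ) := by
    apply prod_pos
    intro l _
    exact_mod_cast Nat.factorial_pos _
  positivity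

theorem Wt_pos (j a b : ℕ) (S : Finset ℕ) (hS : S ⊆ Icc 1 a) : 0 < Wt j a b S := by
  have hs1 : ∀ s ∈ S, (1 : ℝ) ≤ s := by
    intro s hs
    exact_mod_cast (mem_Icc.1 (hS hs)).1
  unfold Wt
  have h1 : 0 < ∏ s ∈ S, ∏ v ∈ range (j + 1), ((s : ℝ) + v) := by
    apply prod_pos; intro s hs
    apply prod_pos; intro v _
    have := hs1 s hs
    positivity
  have h2 : 0 < pp (fun s t => (t - s) * (s + t + j)) S := by
    apply pp_pos
    intro t ht s hs hst
    have h3 : (s : ℝ) < t := by exact_mod_cast hst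
    have h4 := hs1 s hs
    have h5 := hs1 t ht
    have : (0 : ℝ) < (t : ℝ) - s := by linarith
    positivity
  have h3 : 0 < ∏ s ∈ S, ((s : ℝ) + j) := by
    apply prod_pos; intro s hs
    have := hs1 s hs
    positivity
  have h4 : 0 < pp (fun s t => (t + j) ^ 2 - (s + j) ^ 2) S := by
    apply pp_pos
    intro t ht s hs hst
    have := sq_sub_pos (s := s + j) (t := t + j) (by omega)
    push_cast at this
    exact this
  have h5 : 0 < ∏ s ∈ S, ∏ Y ∈ Ioc (a + j) b, ((Y : ℝ) ^ 2 - ((s : ℝ) + j) ^ 2) := by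
    apply prod_pos; intro s hs
    apply prod_pos; intro Y hY
    have h6 := (mem_Icc.1 (hS hs)).2
    have h7 := (mem_Ioc.1 hY).1
    have := sq_sub_pos (s := s + j) (t := Y) (by omega)
    push_cast at this
    exact this
  positivity

/-- Jensen with the conditioned cap-`p` measure -/
theorem log_Tf_ge (k w j p : ℕ) (hjw : j ≤ w) (hp : 1 ≤ p) :
    Real.log (Kt k j (p + k) (p + k + w)) + Real.log (U0 k (p + k) (p + k + w))
      + E0 k (p + k) (p + k + w) (fun S => Real.log (Wt j (p + k) (p + k + w) S)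
          - Real.log (wt (p + k) (p + k + w) S))
      ≤ Real.log (Tf k w j p) := by
  set a := p + k with ha
  set b := p + k + w with hb
  have hka : k < a := by omega
  have hK := Kt_pos k j a b
  have hpos : ∀ S ∈ (Icc 2 a).powersetCard k, 0 < Wt j a b S / wt a b S := fun S hS =>
    div_pos (Wt_pos j a b S (mem_P hS).2.1) (wt_pos (mem_P hS).2.1)
  have h := E0_jensen (b := b) hka _ hpos
  have e1 : ∑ S ∈ (Icc 2 a).powersetCard k, wt a b S * (Wt j a b S / wt a b S)
      = ∑ S ∈ (Icc 2 a).powersetCard k, Wt j a b S := by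
    apply sum_congr rfl
    intro S hS
    have := (wt_pos (b := b) (mem_P hS).2.1).ne'
    field_simp
  have e2 : E0 k a b (fun S => Real.log (Wt j a b S / wt a b S))
      = E0 k a b (fun S => Real.log (Wt j a b S) - Real.log (wt a b S)) := by
    unfold E0
    congr 1
    apply sum_congr rfl
    intro S hS
    beta_reduce
    rw [Real.log_div (Wt_pos j a b S (mem_P hS).2.1).ne' (wt_pos (mem_P hS).2.1).ne']
  have hsum : 0 < ∑ S ∈ (Icc 2 a).powersetCard k, Wt j a b S :=
    sum_pos (fun S hS => Wt_pos j a b S (mem_P hS).2.1) (P_nonempty hka)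
  have hT : Kt k j a b * ∑ S ∈ (Icc 2 a).powersetCard k, Wt j a b S ≤ Tf k w j p := by
    unfold Tf
    rw [sum_congr rfl (fun S hS => summand_eq k w j p hjw S hS), ← mul_sum]
    apply mul_le_mul_of_nonneg_left _ hK.le
    apply sum_le_sum_of_subset_of_nonneg
    · exact powersetCard_mono (Icc_subset_Icc (by omega) le_rfl)
    · intro S hS _
      exact (Wt_pos _ _ _ S (mem_powersetCard.1 hS).1).le
  have h3 := Real.log_le_log (by positivity) hT
  rw [Real.log_mul hK.ne' hsum.ne'] at h3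
  rw [e1, e2] at h
  linarith

end Pool.Agent.Helper43.LB
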