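import Pool.Agent.Helper43.LB.PairSum

/-!
Lower bound of the tail sum.
-/

namespace Pool.Agent.Helper43.LB

open Finset

theorem sum_log_ratio {a : ℕ} (ha : 1 ≤ a) {S : Finset ℕ} (hS : S ⊆ Icc 2 a) :
    ∑ s ∈ S, (Real.log s - Real.log ((s : ℝ) - 1)) ≤ Real.log a := by
  calc ∑ s ∈ S, (Real.log s - Real.log ((s : ℝ) - 1))
      ≤ ∑ s ∈ Icc 2 a, (Real.log s - Real.log ((s : ℝ) - 1)) := by
        apply sum_le_sum_of_subset_of_nonneg hS
        intro s hs _
        have h2 : (2 : ℝ) ≤ s := by exact_mod_cast (mem_Icc.1 hs).1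
        have := Real.log_le_log (by linarith : (0 : ℝ) < (s : ℝ) - 1) (by linarith : (s : ℝ) - 1 ≤ s)
        linarith
    _ = Real.log a := by
        induction a, ha using Nat.le_induction with
        | base => simp
        | succ n hn ih =>
          have key : ∀ n : ℕ, 1 ≤ n →
              ∑ s ∈ Icc 2 n, (Real.log s - Real.log ((s : ℝ) - 1)) = Real.log n := by
            intro n hn
            induction n, hn using Nat.le_induction with
            | base => simp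
            | succ n hn ih =>
              rw [sum_Icc_succ_top (by omega), ih]
              push_cast
              ring_nf
          exact key (n + 1) (by omega)

theorem pointwise {a b j : ℕ} {S : Finset ℕ} (hS : S ⊆ Icc 2 a) (hab : a + j ≤ b) (hj : 1 ≤ j)
    (ha : 1 ≤ a) :
    (j : ℝ) * ∑ s ∈ S, Real.log s
      + 3 / 4 * j * (Real.log (wt a b S) - Real.log (wt (a - 1) b (S.image (· - 1))))
      - 1 / 4 * j * Real.log (∏ s ∈ S, (((b : ℝ) + 1) ^ 2 - (s : ℝ) ^ 2))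
      + 1 / 2 * j * ∑ s ∈ S, ((b : ℝ) - a) / (b + s)
      - (4 * (j : ℝ) ^ 2 / a + 3 / 4 * j / a) * S.card
      - 3 / 2 * j * Real.log a - ps (fun s t => er j (s + t)) S
      ≤ Real.log (Wt j a b S) - Real.log (wt a b S) := by
  have hS1 : S ⊆ Icc 1 a := hS.trans (Icc_subset_Icc (by omega) le_rfl)
  have hj' : (1 : ℝ) ≤ j := by exact_mod_cast hj
  have e5 : Real.log (∏ s ∈ S, (((b : ℝ) + 1) ^ 2 - (s : ℝ) ^ 2))
      = ∑ s ∈ S, Real.log (((b : ℝ) + 1) ^ 2 - (s : ℝ) ^ 2) := by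
    rw [Real.log_prod]
    intro s hs
    have h1 := (mem_Icc.1 (hS hs)).2
    have := sq_sub_pos (s := s) (t := b + 1) (by omega)
    push_cast at this
    exact this.ne'
  have h1 := sum_le_sum (s := S) (fun s hs => one_ineq (a := a) (b := b) (j := j) (s := s)
    (mem_Icc.1 (hS hs)).1 (mem_Icc.1 (hS hs)).2 hab hj)
  simp only [sum_add_distrib, sum_sub_distrib, ← mul_sum, sum_const, nsmul_eq_mul] at h1
  have h2 := ps_le (fun s t => 3 / 4 * (j : ℝ)
      * (2 * Real.log (t ^ 2 - s ^ 2) - 2 * Real.log ((t - 1) ^ 2 - (s - 1) ^ 2)) - er j (s + t))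
    (fun s t => Real.log ((t - s) * (s + t + j)) + Real.log ((t + j) ^ 2 - (s + j) ^ 2)
      - 2 * Real.log (t ^ 2 - s ^ 2)) S (by
    intro t ht s hs hst
    have k1 : (2 : ℝ) ≤ s := by exact_mod_cast (mem_Icc.1 (hS hs)).1
    have k2 : (s : ℝ) < t := by exact_mod_cast hst
    exact pair_ineq k1 k2 (by linarith))
  have h3 := sum_log_ratio ha hS
  rw [sum_sub_distrib] at h3
  rw [log_wt hS1, log_wt_pred hS, log_Wt hS1, e5]
  unfold ps at h2 ⊢
  simp only [sum_add_distrib, sum_sub_distrib, ← mul_sum] at h2 ⊢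
  have h4 : (j : ℝ) * (∑ s ∈ S, Real.log (s : ℝ) - ∑ s ∈ S, Real.log ((s : ℝ) - 1))
      ≤ j * Real.log a := by gcongr
  linarith [h1, h2, h4]

/-- the statement of module I2 -/
def OneBody : Prop := ∀ (b : ℕ), 1 ≤ b → ∀ S : Finset ℕ, S ⊆ Icc 1 b →
  cA * S.card - cB * ∑ s ∈ S, Real.log (s / b) - cI * b - 1 ≤ ∑ s ∈ S, (b : ℝ) / (b + s)

theorem pointwise2 (hob : OneBody) {a b j k : ℕ} {S : Finset ℕ} (hS : S ⊆ Icc 2 a)
    (hc : S.card = k) (hab : a + j ≤ b) (hj : 1 ≤ j) (hka : k ≤ a) (ha : 1 ≤ a) :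
    (j : ℝ) * (1 - cB * ((b : ℝ) - a) / (2 * b)) * ∑ s ∈ S, Real.log s
      + 3 / 4 * j * (Real.log (wt a b S) - Real.log (wt (a - 1) b (S.image (· - 1))))
      - 1 / 4 * j * Real.log (∏ s ∈ S, (((b : ℝ) + 1) ^ 2 - (s : ℝ) ^ 2))
      + (j * (((b : ℝ) - a) / (2 * b) * (cA * k + cB * k * Real.log b - cI * b))
      - 5 / 2 * (j : ℝ) ^ 2 * Real.log (1 + 2 * a / j) - 4 * (j : ℝ) ^ 2 * k / a
      - (3 * j * Real.log (1 + 2 * a) + 3 / 2 * j * Real.log a + 5 / 4 * j))
      ≤ Real.log (Wt j a b S) - Real.log (wt a b S) := by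
  have hj' : (1 : ℝ) ≤ j := by exact_mod_cast hj
  have ha' : (1 : ℝ) ≤ a := by exact_mod_cast ha
  have hab' : (a : ℝ) + j ≤ b := by exact_mod_cast hab
  have hb0 : (0 : ℝ) < b := by linarith
  have hka' : (k : ℝ) ≤ a := by exact_mod_cast hka
  have h1 := pointwise hS hab hj ha
  have h2 := ps_er a (j := (j : ℝ)) (by linarith) S hS
  have h3 := hob b (by omega) S (hS.trans (Icc_subset_Icc (by omega) (by omega)))
  have e1 : ∑ s ∈ S, Real.log ((s : ℝ) / b) = ∑ s ∈ S, Real.log s - k * Real.log b := by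
    rw [← hc, ← nsmul_eq_mul, ← sum_const, ← sum_sub_distrib]
    apply sum_congr rfl
    intro s hs
    have : s ≠ 0 := by have := (mem_Icc.1 (hS hs)).1; omega
    rw [Real.log_div (by exact_mod_cast this) hb0.ne']
  have e2 : ∑ s ∈ S, ((b : ℝ) - a) / (b + s) = ((b : ℝ) - a) / b * ∑ s ∈ S, (b : ℝ) / (b + s) := by
    rw [mul_sum]
    apply sum_congr rfl
    intro s _
    have : (0 : ℝ) < b + s := by positivity
    field_simp
  rw [e1, hc] at h3
  have hw0 : 0 ≤ ((b : ℝ) - a) / b := div_nonneg (by linarith) hb0.le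
  have hw1 : ((b : ℝ) - a) / b ≤ 1 := by rw [div_le_one hb0]; linarith
  have h4 : ((b : ℝ) - a) / b * (cA * k - cB * (∑ s ∈ S, Real.log s - k * Real.log b) - cI * b - 1)
      ≤ ∑ s ∈ S, ((b : ℝ) - a) / (b + s) := by
    rw [e2]
    exact mul_le_mul_of_nonneg_left h3 hw0
  have h5 : 1 / 2 * (j : ℝ) * (((b : ℝ) - a) / b
      * (cA * k - cB * (∑ s ∈ S, Real.log s - k * Real.log b) - cI * b - 1))
      ≤ 1 / 2 * j * ∑ s ∈ S, ((b : ℝ) - a) / (b + s) := by gcongr
  have h6 : (3 / 4 * (j : ℝ) / a) * k ≤ 3 / 4 * j := by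
    rw [div_mul_eq_mul_div, div_le_iff₀ (by linarith)]
    gcongr
  have h7 : (4 * (j : ℝ) ^ 2 / a) * k = 4 * (j : ℝ) ^ 2 * k / a := by ring
  have h8 : Real.log (1 + 2 * (a : ℝ) / j) ≤ Real.log (1 + 2 * a) := by
    apply Real.log_le_log (by positivity)
    have : 2 * (a : ℝ) / j ≤ 2 * a := div_le_self (by positivity) hj'
    linarith
  have h9 : 3 * (j : ℝ) * Real.log (1 + 2 * (a : ℝ) / j) ≤ 3 * j * Real.log (1 + 2 * a) := by gcongr
  have h10 : 1 / 2 * (j : ℝ) * (((b : ℝ) - a) / b * 1) ≤ 1 / 2 * j := by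
    have : 1 / 2 * (j : ℝ) * (((b : ℝ) - a) / b * 1) ≤ 1 / 2 * j * 1 := by gcongr; linarith
    linarith
  have e3 : 1 / 2 * (j : ℝ) * (((b : ℝ) - a) / b
      * (cA * k - cB * (∑ s ∈ S, Real.log s - k * Real.log b) - cI * b - 1))
      = j * (((b : ℝ) - a) / (2 * b) * (cA * k + cB * k * Real.log b - cI * b))
        - j * (cB * ((b : ℝ) - a) / (2 * b)) * ∑ s ∈ S, Real.log s
        - 1 / 2 * (j : ℝ) * (((b : ℝ) - a) / b * 1) := by
    field_simp
    ring
  have e4 : (j : ℝ) * (1 - cB * ((b : ℝ) - a) / (2 * b)) * ∑ s ∈ S, Real.log s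
      = j * ∑ s ∈ S, Real.log s - j * (cB * ((b : ℝ) - a) / (2 * b)) * ∑ s ∈ S, Real.log s := by ring
  rw [hc] at h1
  have h11 : (4 * (j : ℝ) ^ 2 / a + 3 / 4 * j / a) * k ≤ 4 * (j : ℝ) ^ 2 * k / a + 3 / 4 * j := by
    rw [add_mul, h7]; linarith
  rw [e4]
  rw [e3] at h5
  linarith [h1, h2, h5, h9, h10, h11]

theorem tail_lower (hob : OneBody) (k w j p : ℕ) (hk : 1 ≤ k) (hj : 1 ≤ j) (hjw : j ≤ w)
    (hp : 1 ≤ p) :
    Real.log (Kt k j (p + k) (p + k + w)) + Real.log (U k (p + k) (p + k + w))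
      + j * (3 / 4 * (Real.log (U k (p + k) (p + k + w)) - Real.log (U k (p + k - 1) (p + k + w)))
        - 1 / 4 * (Real.log (U k (p + k) (p + k + w + 1)) - Real.log (U k (p + k) (p + k + w)))
        + (1 - cB * w / (2 * (p + k + w : ℝ))) * ((Real.log (U k (p + k) (p + k + w))
            - Real.log (U (k - 1) (p + k) (p + k + w))
            - 2 * Real.log (ip (Ioc (p + k) (p + k + w)))) / 4)
        + w / (2 * (p + k + w : ℝ)) * (cA * k + cB * k * Real.log (p + k + w : ℝ)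
            - cI * (p + k + w)))
      - 5 / 2 * (j : ℝ) ^ 2 * Real.log (1 + 2 * (p + k) / j) - 4 * (j : ℝ) ^ 2 * k / (p + k)
      - 13 * (j + 1) * Real.log (p + k + w + 2)
      ≤ Real.log (Tf k w j p) := by
  have h0 := log_Tf_ge k w j p hjw hp
  set a := p + k with ha
  set b := p + k + w with hb
  have hka : k < a := by omega
  have hab : a + j ≤ b := by omega
  have ebr : (b : ℝ) = p + k + w := by rw [hb]; push_cast; ring
  have ear : (a : ℝ) = p + k := by rw [ha]; push_cast; ring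
  have hwr : (b : ℝ) - a = w := by rw [ebr, ear]; ring
  have hj' : (1 : ℝ) ≤ j := by exact_mod_cast hj
  have hb3 : (3 : ℝ) ≤ b := by
    have : 3 ≤ b := by omega
    exact_mod_cast this
  have ha1 : (1 : ℝ) ≤ a := by exact_mod_cast (by omega : 1 ≤ a)
  have hab' : (a : ℝ) ≤ b := by exact_mod_cast (by omega : a ≤ b)
  have hcB : cB = 7 / 50 := rfl
  -- expectation of the pointwise bound
  have hE : E0 k a b (fun S => (j : ℝ) * (1 - cB * ((b : ℝ) - a) / (2 * b)) * ∑ s ∈ S, Real.log s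
      + 3 / 4 * j * (Real.log (wt a b S) - Real.log (wt (a - 1) b (S.image (· - 1))))
      + (-(1 / 4) * j) * Real.log (∏ s ∈ S, (((b : ℝ) + 1) ^ 2 - (s : ℝ) ^ 2))
      + (j * (((b : ℝ) - a) / (2 * b) * (cA * k + cB * k * Real.log b - cI * b))
      - 5 / 2 * (j : ℝ) ^ 2 * Real.log (1 + 2 * a / j) - 4 * (j : ℝ) ^ 2 * k / a
      - (3 * j * Real.log (1 + 2 * a) + 3 / 2 * j * Real.log a + 5 / 4 * j)))
      ≤ E0 k a b (fun S => Real.log (Wt j a b S) - Real.log (wt a b S)) := by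
    apply E0_mono hka
    intro S hS
    obtain ⟨h1, h2, h3⟩ := mem_P hS
    have := pointwise2 hob h1 h3 hab hj hka.le (by omega)
    linarith
  rw [E0_add, E0_add, E0_add, E0_smul, E0_smul, E0_smul, E0_const b hka] at hE
  -- Jensen bounds
  have j1 := jen1 (b := b) hka
  have j3 := jen3 (k := k) (a := a) (b := b) hka (by omega)
  have j2 : (Real.log (U0 k a b) - Real.log (U (k - 1) a b) - 2 * Real.log (ip (Ioc a b))) / 4
      ≤ E0 k a b (fun S => ∑ s ∈ S, Real.log s) := by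
    obtain ⟨k', rfl⟩ : ∃ k', k = k' + 1 := ⟨k - 1, by omega⟩
    exact jen2 hka
  have u0 := log_U0_ge hka (by omega : a ≤ b)
  set X := E0 k a b (fun S => ∑ s ∈ S, Real.log s)
  set D := E0 k a b (fun S => Real.log (wt a b S) - Real.log (wt (a - 1) b (S.image (· - 1))))
  set R := E0 k a b (fun S => Real.log (∏ s ∈ S, (((b : ℝ) + 1) ^ 2 - (s : ℝ) ^ 2)))
  set lu0 := Real.log (U0 k a b)
  set lu := Real.log (U k a b)
  set L := Real.log ((p : ℝ) + k + w + 2) with hL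
  have hLb : L = Real.log ((b : ℝ) + 2) := by rw [hL, ebr]
  have hL1 : 1 ≤ L := by
    rw [hLb, Real.le_log_iff_exp_le (by linarith)]
    have := Real.exp_one_lt_d9
    linarith
  have l1 : Real.log ((k : ℝ) + 1) ≤ L := by
    rw [hLb]
    apply Real.log_le_log (by positivity)
    have : (k : ℝ) ≤ a := by exact_mod_cast hka.le
    linarith
  have l1' : 0 ≤ Real.log ((k : ℝ) + 1) := Real.log_nonneg (by have : (0:ℝ) ≤ k := Nat.cast_nonneg k; linarith)
  have l2 : Real.log (a : ℝ) ≤ L := by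
    rw [hLb]
    apply Real.log_le_log (by linarith) (by linarith)
  have l3 : Real.log (1 + 2 * (a : ℝ)) ≤ 2 * L := by
    have : 2 * L = Real.log (((b : ℝ) + 2) ^ 2) := by rw [hLb, Real.log_pow]; push_cast; ring
    rw [this]
    apply Real.log_le_log (by linarith)
    nlinarith
  have hcoef : 0 ≤ 1 - cB * ((b : ℝ) - a) / (2 * b) := by
    have : cB * ((b : ℝ) - a) / (2 * b) ≤ 1 := by
      rw [div_le_one (by linarith), hcB]
      linarith
    linarith
  have hcoef1 : 1 - cB * ((b : ℝ) - a) / (2 * b) ≤ 1 := by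
    have : 0 ≤ cB * ((b : ℝ) - a) / (2 * b) := by
      rw [hcB]
      apply div_nonneg _ (by linarith)
      have : 0 ≤ (b : ℝ) - a := by linarith
      positivity
    linarith
  have m2 : (j : ℝ) * (1 - cB * ((b : ℝ) - a) / (2 * b))
      * ((lu - 3 * Real.log (k + 1) - Real.log (U (k - 1) a b) - 2 * Real.log (ip (Ioc a b))) / 4)
      ≤ j * (1 - cB * ((b : ℝ) - a) / (2 * b)) * X := by
    apply mul_le_mul_of_nonneg_left _ (by positivity)
    linarith
  have m1 : 3 / 4 * (j : ℝ) * (lu - 3 * Real.log (k + 1) - Real.log (U k (a - 1) b))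
      ≤ 3 / 4 * j * D := by
    apply mul_le_mul_of_nonneg_left _ (by positivity)
    linarith
  have m3 : -(1 / 4) * (j : ℝ) * (Real.log (U k a (b + 1)) - (lu - 3 * Real.log (k + 1)))
      ≤ -(1 / 4) * j * R := by
    have : 1 / 4 * (j : ℝ) * R ≤ 1 / 4 * j * (Real.log (U k a (b + 1)) - (lu - 3 * Real.log (k + 1))) := by
      apply mul_le_mul_of_nonneg_left _ (by positivity)
      linarith
    linarith
  -- losses
  have n1 : (j : ℝ) * (1 - cB * ((b : ℝ) - a) / (2 * b)) * (3 * Real.log (k + 1) / 4)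
      ≤ 3 / 4 * (j * L) := by
    calc (j : ℝ) * (1 - cB * ((b : ℝ) - a) / (2 * b)) * (3 * Real.log (k + 1) / 4)
        ≤ j * 1 * (3 * L / 4) := by gcongr
      _ = _ := by ring
  have n2 : (j : ℝ) * Real.log (k + 1) ≤ j * L := by gcongr
  have n3 : (j : ℝ) * Real.log a ≤ j * L := by gcongr
  have n4 : (j : ℝ) * Real.log (1 + 2 * a) ≤ j * (2 * L) := by gcongr
  have n5 : (j : ℝ) ≤ j * L := le_mul_of_one_le_right (by linarith) hL1
  rw [← ebr, ← ear, ← hwr]
  linarith [h0, hE, m1, m2, m3, n1, n2, n3, n4, n5, u0, l1]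

end Pool.Agent.Helper43.LB
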