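import Pool.Agent.Helper43.LB.Tail
import Pool.Agent.Helper30.LB.Fkg

/-!
Product formula of the partition function `U k a b`, and the inequality between the numbers of
fillings of the bump shape, the tail shape and the maximal shape.
-/

namespace Pool.Agent.Helper43.LB

open Finset

/-- the statement of module E -/
def NETail : Prop := ∀ k w j p : ℕ, j ≤ w →
  (NE (2 * k + 1 + w) p (p + j) (eTail (2 * k + 1 + w) k j) : ℝ) = Tf k w j p

theorem Tf_zero (w j p : ℕ) : Tf 0 w j p = Lf (Ico (p + j + 1) (p + w + 1)) := by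
  unfold Tf
  rw [powersetCard_zero, sum_singleton]
  have h1 : Lh j ∅ = 1 := by simp [Lh, pp]
  rw [h1, one_mul, image_empty, empty_union]
  simp

theorem Wt_zero (a b : ℕ) (S : Finset ℕ) : Wt 0 a b S = wt a b S := by
  unfold Wt wt
  have h1 : (∏ s ∈ S, ∏ v ∈ range (0 + 1), ((s : ℝ) + v)) = ip S := by
    unfold ip
    apply prod_congr rfl
    intro s _
    simp
  have h2 : pp (fun s t => (t - s) * (s + t + ((0 : ℕ) : ℝ))) S = vn S := by
    unfold vn
    congr 1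
    ext s t
    push_cast
    ring
  have h3 : (∏ s ∈ S, ((s : ℝ) + ((0 : ℕ) : ℝ))) = ip S := by simp [ip]
  have h4 : pp (fun s t => (t + ((0 : ℕ) : ℝ)) ^ 2 - (s + ((0 : ℕ) : ℝ)) ^ 2) S = vn S := by
    unfold vn
    congr 1
    ext s t
    push_cast
    ring
  rw [h1, h2, h3, h4]
  have h5 : (∏ s ∈ S, ∏ Y ∈ Ioc (a + 0) b, ((Y : ℝ) ^ 2 - ((s : ℝ) + ((0 : ℕ) : ℝ)) ^ 2))
      = ∏ s ∈ S, ∏ Y ∈ Ioc a b, ((Y : ℝ) ^ 2 - (s : ℝ) ^ 2) := by simp
  rw [h5]
  ring

theorem Kt_zero (k a b : ℕ) : Kt k 0 a b = Kf k a b := by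
  unfold Kt Kf od
  simp

theorem Kf_pos (k a b : ℕ) : 0 < Kf k a b := by
  rw [← Kt_zero]; exact Kt_pos k 0 a b

theorem Tf_j0 (k w p : ℕ) : Tf k w 0 p = Kf k (p + k) (p + k + w) * U k (p + k) (p + k + w) := by
  unfold Tf U
  rw [mul_sum]
  apply sum_congr rfl
  intro S hS
  rw [summand_eq k w 0 p (Nat.zero_le _) S hS, Kt_zero, Wt_zero]

theorem Tf_j0_eq (hNE : NETail) (k w p : ℕ) : Tf k w 0 p = Zf (2 * k + 1 + w) p := by
  have h1 := hNE k w 0 p (Nat.zero_le _)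
  have h2 := hNE 0 (2 * k + w) 0 p (Nat.zero_le _)
  have e1 : 2 * 0 + 1 + (2 * k + w) = 2 * k + 1 + w := by ring
  have e2 : eTail (2 * k + 1 + w) k 0 = eTail (2 * k + 1 + w) 0 0 := by
    ext i; simp [eTail]
  rw [e1] at h2
  rw [← h1, e2, h2, Tf_zero]
  unfold Zf
  congr 2
  omega

theorem U_eq_Uf (hNE : NETail) (k a b : ℕ) (hka : k ≤ a) (hab : a ≤ b) : U k a b = Uf k a b := by
  obtain ⟨p, rfl⟩ : ∃ p, a = p + k := ⟨a - k, by omega⟩
  obtain ⟨w, rfl⟩ : ∃ w, b = p + k + w := ⟨b - (p + k), by omega⟩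
  have h1 := Tf_j0 k w p
  have h2 := Tf_j0_eq hNE k w p
  unfold Uf
  have e1 : p + k + w - (p + k) = w := by omega
  have e2 : p + k - k = p := by omega
  rw [e1, e2, ← h2, h1, mul_div_cancel_left₀ _ (Kf_pos _ _ _).ne']

theorem NE_max (hNE : NETail) (m p j : ℕ) (hj : j + 1 ≤ m) :
    (NE m p (p + j) (eMax m j) : ℝ) = Zf (m - j) (p + j) := by
  have h1 := hNE 0 (m - 1) j p (by omega)
  have e1 : 2 * 0 + 1 + (m - 1) = m := by omega
  have e2 : eTail m 0 j = eMax m j := by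
    ext i; simp [eTail, eMax]
  rw [e1, e2] at h1
  rw [h1, Tf_zero]
  unfold Zf
  congr 2
  omega

theorem Tf_pos (k w j p : ℕ) (hjw : j ≤ w) : 0 < Tf k w j p := by
  unfold Tf
  apply sum_pos
  · intro S hS
    rw [summand_eq k w j p hjw S hS]
    exact mul_pos (Kt_pos _ _ _ _) (Wt_pos _ _ _ _ (mem_powersetCard.1 hS).1)
  · rw [powersetCard_nonempty, Nat.card_Icc]
    omega

theorem Lf_pos {S : Finset ℕ} (h : ∀ s ∈ S, 1 ≤ s) : 0 < Lf S := by
  unfold Lf
  have := ip_pos h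
  have := vn_pos S
  have : 0 < od S.card := by unfold od; exact prod_pos fun l _ => by positivity
  positivity

theorem Zf_pos (m p : ℕ) : 0 < Zf m p := Lf_pos fun s hs => by
  have := (mem_Ico.1 hs).1; omega

theorem NE_bump_ge (hNE : NETail) (k w j p : ℕ) (hjw : j ≤ w) :
    Tf k w j p ^ 2 ≤ NE (2 * k + 1 + w) p (p + j) (eBump (2 * k + 1 + w) k j)
      * Zf (2 * k + 1 + w - j) (p + j) := by
  have h1 := bump_ge k w j p hjw
  rw [← NE_max hNE _ _ _ (by omega), ← hNE k w j p hjw]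
  exact_mod_cast h1

theorem NE_bump_pos (hNE : NETail) (k w j p : ℕ) (hjw : j ≤ w) :
    0 < NE (2 * k + 1 + w) p (p + j) (eBump (2 * k + 1 + w) k j) := by
  have h1 := NE_bump_ge hNE k w j p hjw
  have h2 := Tf_pos k w j p hjw
  rcases Nat.eq_zero_or_pos (NE (2 * k + 1 + w) p (p + j) (eBump (2 * k + 1 + w) k j)) with h | h
  · rw [h] at h1
    have : 0 < Tf k w j p ^ 2 := by positivity
    simp at h1
    linarith
  · exact h

end Pool.Agent.Helper43.LB
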